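import Mathlib

/-!
Finite conditions of the iteration and their order.
-/

namespace Pool.Agent.P.MP_92f5e0_lc

/-- finite conditions -/
@[ext] structure Cond (O Ω : Type) where
  dom : Finset O
  len : ℕ
  U : Finset (O × ℕ)
  A : Finset (O × ℕ)
  E : Finset (O × Ω)
  hU : ∀ x ∈ U, x.1 ∈ dom ∧ x.2 < len
  hA : ∀ x ∈ A, x.1 ∈ dom ∧ x.2 < len
  hE : ∀ x ∈ E, x.1 ∈ dom

variable {O Ω C : Type} [LinearOrder O] [DecidableEq Ω] [Preorder C]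

namespace Cond

/-- restriction -/
def res (ξ : O) (p : Cond O Ω) : Cond O Ω where
  dom := p.dom.filter (· < ξ)
  len := p.len
  U := p.U.filter (·.1 < ξ)
  A := p.A.filter (·.1 < ξ)
  E := p.E.filter (·.1 < ξ)
  hU x hx := by
    rw [Finset.mem_filter] at hx ⊢
    exact ⟨⟨(p.hU x hx.1).1, hx.2⟩, (p.hU x hx.1).2⟩
  hA x hx := by
    rw [Finset.mem_filter] at hx ⊢
    exact ⟨⟨(p.hA x hx.1).1, hx.2⟩, (p.hA x hx.1).2⟩
  hE x hx := by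
    rw [Finset.mem_filter] at hx ⊢
    exact ⟨p.hE x hx.1, hx.2⟩

/-- union -/
def join (p q : Cond O Ω) : Cond O Ω where
  dom := p.dom ∪ q.dom
  len := max p.len q.len
  U := p.U ∪ q.U
  A := p.A ∪ q.A
  E := p.E ∪ q.E
  hU x hx := by
    rw [Finset.mem_union] at hx ⊢
    exact hx.elim (fun h => ⟨Or.inl (p.hU x h).1, lt_max_of_lt_left (p.hU x h).2⟩)
      fun h => ⟨Or.inr (q.hU x h).1, lt_max_of_lt_right (q.hU x h).2⟩
  hA x hx := by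
    rw [Finset.mem_union] at hx ⊢
    exact hx.elim (fun h => ⟨Or.inl (p.hA x h).1, lt_max_of_lt_left (p.hA x h).2⟩)
      fun h => ⟨Or.inr (q.hA x h).1, lt_max_of_lt_right (q.hA x h).2⟩
  hE x hx := by
    rw [Finset.mem_union] at hx ⊢
    exact hx.imp (p.hE x) (q.hE x)

/-- a condition with one coordinate -/
def pt (ξ : O) (l : ℕ) (u s : Finset ℕ) (e : Finset Ω) : Cond O Ω where
  dom := {ξ}
  len := l
  U := {ξ} ×ˢ u.filter (· < l)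
  A := {ξ} ×ˢ s.filter (· < l)
  E := {ξ} ×ˢ e
  hU x hx := by
    rw [Finset.mem_product, Finset.mem_filter] at hx
    exact ⟨hx.1, hx.2.2⟩
  hA x hx := by
    rw [Finset.mem_product, Finset.mem_filter] at hx
    exact ⟨hx.1, hx.2.2⟩
  hE _ hx := (Finset.mem_product.1 hx).1

/-- a condition with empty stems -/
def zero (F : Finset O) (l : ℕ) : Cond O Ω := ⟨F, l, ∅, ∅, ∅, by simp, by simp, by simp⟩

variable {ξ ζ : O} {p q : Cond O Ω} {x : O × ℕ} {y : O × Ω} {l : ℕ} {u s : Finset ℕ} {e : Finset Ω}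
  {F : Finset O}

section
omit [DecidableEq Ω]
@[simp] theorem res_dom : ζ ∈ (p.res ξ).dom ↔ ζ ∈ p.dom ∧ ζ < ξ := Finset.mem_filter
@[simp] theorem res_len : (p.res ξ).len = p.len := rfl
@[simp] theorem res_U : x ∈ (p.res ξ).U ↔ x ∈ p.U ∧ x.1 < ξ := Finset.mem_filter
@[simp] theorem res_A : x ∈ (p.res ξ).A ↔ x ∈ p.A ∧ x.1 < ξ := Finset.mem_filter
@[simp] theorem res_E : y ∈ (p.res ξ).E ↔ y ∈ p.E ∧ y.1 < ξ := Finset.mem_filter
end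
@[simp] theorem join_dom : ζ ∈ (p.join q).dom ↔ ζ ∈ p.dom ∨ ζ ∈ q.dom := Finset.mem_union
@[simp] theorem join_len : (p.join q).len = max p.len q.len := rfl
@[simp] theorem join_U : x ∈ (p.join q).U ↔ x ∈ p.U ∨ x ∈ q.U := Finset.mem_union
@[simp] theorem join_A : x ∈ (p.join q).A ↔ x ∈ p.A ∨ x ∈ q.A := Finset.mem_union
@[simp] theorem join_E : y ∈ (p.join q).E ↔ y ∈ p.E ∨ y ∈ q.E := Finset.mem_union
section
omit [LinearOrder O] [DecidableEq Ω]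
@[simp] theorem pt_dom : ζ ∈ (pt ξ l u s e).dom ↔ ζ = ξ := Finset.mem_singleton
@[simp] theorem pt_len : (pt ξ l u s e).len = l := rfl
@[simp] theorem pt_U : x ∈ (pt ξ l u s e).U ↔ x.1 = ξ ∧ x.2 ∈ u ∧ x.2 < l := by
  simp only [pt, Finset.mem_product, Finset.mem_singleton, Finset.mem_filter]
@[simp] theorem pt_A : x ∈ (pt ξ l u s e).A ↔ x.1 = ξ ∧ x.2 ∈ s ∧ x.2 < l := by
  simp only [pt, Finset.mem_product, Finset.mem_singleton, Finset.mem_filter]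
@[simp] theorem pt_E : y ∈ (pt ξ l u s e).E ↔ y.1 = ξ ∧ y.2 ∈ e := by
  simp only [pt, Finset.mem_product, Finset.mem_singleton]
@[simp] theorem zero_dom : (zero F l : Cond O Ω).dom = F := rfl
@[simp] theorem zero_len : (zero F l : Cond O Ω).len = l := rfl
@[simp] theorem zero_U : (zero F l : Cond O Ω).U = ∅ := rfl
@[simp] theorem zero_A : (zero F l : Cond O Ω).A = ∅ := rfl
@[simp] theorem zero_E : (zero F l : Cond O Ω).E = ∅ := rfl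
end

/-- all coordinates are below `ξ` -/
def Bd (ξ : O) (p : Cond O Ω) : Prop := ∀ ζ ∈ p.dom, ζ < ξ

section
omit [DecidableEq Ω]

theorem bd_res (ξ : O) (p : Cond O Ω) : (p.res ξ).Bd ξ := fun _ h => (res_dom.1 h).2

theorem Bd.mono (h : p.Bd ξ) (h' : ξ ≤ ζ) : p.Bd ζ := fun η hη => (h η hη).trans_le h'

theorem Bd.res (h : p.Bd ξ) (ζ : O) : (p.res ζ).Bd ξ := fun η hη => h η (res_dom.1 hη).1

theorem Bd.res_eq (h : p.Bd ξ) : p.res ξ = p := by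
  ext x
  · simpa using h x
  · rfl
  · simpa using fun hx => h _ (p.hU x hx).1
  · simpa using fun hx => h _ (p.hA x hx).1
  · simpa using fun hx => h _ (p.hE x hx)

theorem res_res (h : ζ ≤ ξ) (p : Cond O Ω) : (p.res ξ).res ζ = p.res ζ := by
  ext x
  · simpa using fun h1 _ => lt_of_lt_of_le h1 h
  · rfl
  all_goals simpa using fun h1 _ => lt_of_lt_of_le h1 h

end

theorem Bd.join (h : p.Bd ξ) (h' : q.Bd ξ) : (p.join q).Bd ξ :=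
  fun ζ hζ => (join_dom.1 hζ).elim (h ζ) (h' ζ)

theorem join_comm (p q : Cond O Ω) : p.join q = q.join p := by
  ext <;> simp [or_comm, max_comm]

end Cond

open Cond

/-- the part of the order which does not depend on names -/
structure Base (q p : Cond O Ω) : Prop where
  dom : p.dom ⊆ q.dom
  len : p.len ≤ q.len
  E : p.E ⊆ q.E
  U : ∀ x : O × ℕ, x.1 ∈ p.dom → x.2 < p.len → (x ∈ q.U ↔ x ∈ p.U)
  A : ∀ x : O × ℕ, x.1 ∈ p.dom → x.2 < p.len → (x ∈ q.A ↔ x ∈ p.A)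
  ad : ∀ ξ ∈ p.dom, ∀ ζ ∈ p.dom, ∀ k, p.len ≤ k → (ξ, k) ∈ q.A → (ζ, k) ∈ q.A → ξ = ζ

/-- names of sets of natural numbers -/
abbrev Nm (C O Ω : Type) : Type := ℕ → Set (C × Cond O Ω)

/-- the order of the iteration with names `D`, below the closed condition `c` -/
inductive Le (D : O → Ω → Nm C O Ω) (c : C) : Cond O Ω → Cond O Ω → Prop
  | mk {q p : Cond O Ω} (b : Base q p) (y : O → Ω → ℕ → C × Cond O Ω)
      (h1 : ∀ ξ i k, (ξ, i) ∈ p.E → p.len ≤ k → (ξ, k) ∈ q.U → y ξ i k ∈ D ξ i k ∧ c ≤ (y ξ i k).1)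
      (h2 : ∀ ξ i k, (ξ, i) ∈ p.E → p.len ≤ k → (ξ, k) ∈ q.U → Le D c (q.res ξ) (y ξ i k).2) :
      Le D c q p

/-- the condition puts `k` into the set named `ν` -/
def Fc (D : O → Ω → Nm C O Ω) (c : C) (q : Cond O Ω) (ν : Nm C O Ω) (k : ℕ) : Prop :=
  ∃ y ∈ ν k, c ≤ y.1 ∧ Le D c q y.2

variable {D D' : O → Ω → Nm C O Ω} {c c' : C} {p q r t : Cond O Ω} {ξ : O} {ν : Nm C O Ω} {k : ℕ}

section
omit [DecidableEq Ω]

theorem le_iff : Le D c q p ↔ Base q p ∧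
    ∀ ξ i k, (ξ, i) ∈ p.E → p.len ≤ k → (ξ, k) ∈ q.U → Fc D c (q.res ξ) (D ξ i) k := by
  constructor
  · rintro ⟨b, y, h1, h2⟩
    exact ⟨b, fun ξ i k a1 a2 a3 => ⟨_, (h1 ξ i k a1 a2 a3).1, (h1 ξ i k a1 a2 a3).2,
      h2 ξ i k a1 a2 a3⟩⟩
  · rintro ⟨b, h⟩
    have : Nonempty (C × Cond O Ω) := ⟨(c, q)⟩
    choose! y h1 h2 h3 using h
    exact ⟨b, y, fun ξ i k a1 a2 a3 => ⟨h1 ξ i k a1 a2 a3, h2 ξ i k a1 a2 a3⟩, h3⟩

theorem Le.base (h : Le D c q p) : Base q p := (le_iff.1 h).1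

theorem Le.fc (h : Le D c q p) {i : Ω} (h1 : (ξ, i) ∈ p.E) (h2 : p.len ≤ k) (h3 : (ξ, k) ∈ q.U) :
    Fc D c (q.res ξ) (D ξ i) k := (le_iff.1 h).2 ξ i k h1 h2 h3

omit [LinearOrder O] in
theorem Base.U_sub (h : Base q p) : p.U ⊆ q.U :=
  fun x hx => (h.U x (p.hU x hx).1 (p.hU x hx).2).2 hx

omit [LinearOrder O] in
theorem Base.A_sub (h : Base q p) : p.A ⊆ q.A :=
  fun x hx => (h.A x (p.hA x hx).1 (p.hA x hx).2).2 hx

theorem Le.bd (h : Le D c q p) (hq : q.Bd ξ) : p.Bd ξ := fun ζ hζ => hq ζ (h.base.dom hζ)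

theorem le_of_agree (h1 : p.dom ⊆ q.dom) (h2 : p.len ≤ q.len) (h3 : p.E ⊆ q.E)
    (h4 : ∀ x : O × ℕ, x.1 ∈ p.dom → (x ∈ q.U ↔ x ∈ p.U))
    (h5 : ∀ x : O × ℕ, x.1 ∈ p.dom → (x ∈ q.A ↔ x ∈ p.A)) : Le D c q p :=
  le_iff.2 ⟨⟨h1, h2, h3, fun x hx _ => h4 x hx, fun x hx _ => h5 x hx, fun _ a1 _ _ _ a2 a3 _ =>
    absurd (p.hA _ ((h5 _ a1).1 a3)).2 (not_lt.2 a2)⟩, fun _ _ _ a1 a2 a3 =>
    absurd (p.hU _ ((h4 _ (p.hE _ a1)).1 a3)).2 (not_lt.2 a2)⟩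

theorem Le.refl (p : Cond O Ω) : Le D c p p :=
  le_of_agree (fun _ h => h) le_rfl (fun _ h => h) (fun _ _ => Iff.rfl) fun _ _ => Iff.rfl

theorem Le.mono_c (h : Le D c q p) (hc : c' ≤ c) : Le D c' q p := by
  induction h with
  | mk b y h1 _ ih => exact ⟨b, y, fun ξ i k a1 a2 a3 =>
      ⟨(h1 ξ i k a1 a2 a3).1, hc.trans (h1 ξ i k a1 a2 a3).2⟩, ih⟩

theorem Le.res (h : Le D c q p) (ξ : O) : Le D c (q.res ξ) (p.res ξ) := by
  obtain ⟨b, h⟩ := le_iff.1 h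
  refine le_iff.2 ⟨⟨fun ζ hζ => ?_, b.len, fun y hy => ?_, fun x h1 h2 => ?_, fun x h1 h2 => ?_,
    fun ζ h1 η h2 k h3 h4 h5 => ?_⟩, fun ζ i k h1 h2 h3 => ?_⟩
  · exact res_dom.2 ⟨b.dom (res_dom.1 hζ).1, (res_dom.1 hζ).2⟩
  · exact res_E.2 ⟨b.E (res_E.1 hy).1, (res_E.1 hy).2⟩
  · rw [res_U, res_U, b.U x (res_dom.1 h1).1 h2]
  · rw [res_A, res_A, b.A x (res_dom.1 h1).1 h2]
  · exact b.ad ζ (res_dom.1 h1).1 η (res_dom.1 h2).1 k h3 (res_A.1 h4).1 (res_A.1 h5).1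
  · rw [res_res (res_E.1 h1).2.le]
    exact h ζ i k (res_E.1 h1).1 h2 (res_U.1 h3).1

theorem Le.trans (h : Le D c q p) (h' : Le D c p r) : Le D c q r := by
  induction h' generalizing q with
  | @mk p r b' y h1 _ ih =>
  have b := h.base
  refine le_iff.2 ⟨⟨b'.dom.trans b.dom, b'.len.trans b.len, b'.E.trans b.E, fun x a1 a2 => ?_,
    fun x a1 a2 => ?_, fun ζ a1 η a2 k a3 a4 a5 => ?_⟩, fun ζ i k a1 a2 a3 => ?_⟩
  · exact (b.U x (b'.dom a1) (a2.trans_le b'.len)).trans (b'.U x a1 a2)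
  · exact (b.A x (b'.dom a1) (a2.trans_le b'.len)).trans (b'.A x a1 a2)
  · rcases lt_or_ge k p.len with a6 | a6
    · exact b'.ad ζ a1 η a2 k a3 ((b.A _ (b'.dom a1) a6).1 a4) ((b.A _ (b'.dom a2) a6).1 a5)
    · exact b.ad ζ (b'.dom a1) η (b'.dom a2) k a6 a4 a5
  · rcases lt_or_ge k p.len with a6 | a6
    · have a7 := (b.U _ (b'.dom (r.hE _ a1)) a6).1 a3
      exact ⟨_, (h1 ζ i k a1 a2 a7).1, (h1 ζ i k a1 a2 a7).2, ih ζ i k a1 a2 a7 (h.res ζ)⟩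
    · exact h.fc (b'.E a1) a6 a3

theorem le_res (ξ : O) (p : Cond O Ω) : Le D c p (p.res ξ) :=
  le_of_agree (fun _ h => (res_dom.1 h).1) le_rfl (fun _ h => (res_E.1 h).1)
    (fun x h => by simp [(res_dom.1 h).2]) fun x h => by simp [(res_dom.1 h).2]

theorem Le.res_left (h : Le D c q p) (hp : p.Bd ξ) : Le D c (q.res ξ) p := hp.res_eq ▸ h.res ξ

theorem Fc.mono (h : Fc D c q ν k) (hc : c' ≤ c) (hq : Le D c' r q) : Fc D c' r ν k :=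
  let ⟨y, h1, h2, h3⟩ := h; ⟨y, h1, hc.trans h2, hq.trans (h3.mono_c hc)⟩

theorem Le.congr (hD : ∀ ζ < ξ, D ζ = D' ζ) (h : Le D c q p) (hq : q.Bd ξ) : Le D' c q p := by
  induction h with
  | @mk q p b y h1 _ ih =>
    exact ⟨b, y, fun ζ i k a1 a2 a3 => hD ζ (hq ζ (q.hU _ a3).1) ▸ h1 ζ i k a1 a2 a3,
      fun ζ i k a1 a2 a3 => ih ζ i k a1 a2 a3 (hq.res ζ)⟩

theorem Fc.congr (hD : ∀ ζ < ξ, D ζ = D' ζ) (h : Fc D c q ν k) (hq : q.Bd ξ) : Fc D' c q ν k :=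
  let ⟨y, h1, h2, h3⟩ := h; ⟨y, h1, h2, h3.congr hD hq⟩

/-- the order can be checked separately below `ξ` and from `ξ` on -/
theorem le_of_res (h : Le D c (q.res ξ) (p.res ξ)) (h1 : p.dom ⊆ q.dom) (h2 : p.E ⊆ q.E)
    (h3 : ∀ x : O × ℕ, ξ ≤ x.1 → x.1 ∈ p.dom → x.2 < p.len → (x ∈ q.U ↔ x ∈ p.U))
    (h4 : ∀ x : O × ℕ, ξ ≤ x.1 → x.1 ∈ p.dom → x.2 < p.len → (x ∈ q.A ↔ x ∈ p.A))
    (h5 : ∀ η ∈ p.dom, ∀ ζ ∈ p.dom, ξ ≤ η → ∀ k, p.len ≤ k → (η, k) ∈ q.A → (ζ, k) ∈ q.A → η = ζ)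
    (h6 : ∀ η i k, ξ ≤ η → (η, i) ∈ p.E → p.len ≤ k → (η, k) ∈ q.U →
      Fc D c (q.res η) (D η i) k) : Le D c q p := by
  have b := h.base
  refine le_iff.2 ⟨⟨h1, b.len, h2, fun x a1 a2 => ?_, fun x a1 a2 => ?_,
    fun η a1 ζ a2 k a3 a4 a5 => ?_⟩, fun η i k a1 a2 a3 => ?_⟩
  · rcases lt_or_ge x.1 ξ with a | a
    · simpa [a] using b.U x (res_dom.2 ⟨a1, a⟩) a2
    · exact h3 x a a1 a2
  · rcases lt_or_ge x.1 ξ with a | a
    · simpa [a] using b.A x (res_dom.2 ⟨a1, a⟩) a2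
    · exact h4 x a a1 a2
  · rcases lt_or_ge η ξ with a | a
    · rcases lt_or_ge ζ ξ with a' | a'
      · exact b.ad η (res_dom.2 ⟨a1, a⟩) ζ (res_dom.2 ⟨a2, a'⟩) k a3 (res_A.2 ⟨a4, a⟩)
          (res_A.2 ⟨a5, a'⟩)
      · exact (h5 ζ a2 η a1 a' k a3 a5 a4).symm
    · exact h5 η a1 ζ a2 a k a3 a4 a5
  · rcases lt_or_ge η ξ with a | a
    · rw [← res_res a.le]
      exact h.fc (res_E.2 ⟨a1, a⟩) a2 (res_U.2 ⟨a3, a⟩)
    · exact h6 η i k a a1 a2 a3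

end

theorem join_le (h1 : ∀ x ∈ p.U, x.1 ∈ r.dom → x ∈ r.U) (h2 : ∀ x ∈ p.A, x.1 ∈ r.dom → x ∈ r.A) :
    Le D c (r.join p) r :=
  le_of_agree Finset.subset_union_left (le_max_left _ _) Finset.subset_union_left
    (fun x hx => by simpa using fun h => h1 x h hx) fun x hx => by simpa using fun h => h2 x h hx

theorem join_zero_le (F : Finset O) (l : ℕ) : Le D c (r.join (zero F l)) r :=
  join_le (by simp) (by simp)

theorem amal_left (hr : r.Bd ξ) (h : Le D c r (p.res ξ)) : Le D c (r.join p) r :=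
  join_le (fun _ h1 h2 => h.base.U_sub (res_U.2 ⟨h1, hr _ h2⟩))
    fun _ h1 h2 => h.base.A_sub (res_A.2 ⟨h1, hr _ h2⟩)

theorem amal_right (hr : r.Bd ξ) (h : Le D c r (p.res ξ)) : Le D c (r.join p) p := by
  have h1 : ∀ x ∈ r.U, x.1 < ξ := fun x hx => hr _ (r.hU x hx).1
  have h2 : ∀ x ∈ r.A, x.1 < ξ := fun x hx => hr _ (r.hA x hx).1
  refine le_of_res (((amal_left hr h).res_left hr).trans h) Finset.subset_union_right
    Finset.subset_union_right (fun x a1 _ _ => ?_) (fun x a1 _ _ => ?_)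
    (fun η _ ζ _ a1 k a2 a3 _ => ?_) fun η i k a1 _ a2 a3 => ?_
  · simpa using fun h => absurd (h1 x h) (not_lt.2 a1)
  · simpa using fun h => absurd (h2 x h) (not_lt.2 a1)
  · rcases join_A.1 a3 with a | a
    exacts [absurd (h2 _ a) (not_lt.2 a1), absurd (p.hA _ a).2 (not_lt.2 a2)]
  · rcases join_U.1 a3 with a | a
    exacts [absurd (h1 _ a) (not_lt.2 a1), absurd (p.hU _ a).2 (not_lt.2 a2)]

end Pool.Agent.P.MP_92f5e0_lc
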