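import Pool.Agent.P.MP_92f5e0_lc.Frame
import Pool.Agent.P.MP_92f5e0_lc.Cond

/-!
The index sets and their cardinalities.
-/

open Set Filter Cardinal

namespace Pool.Agent.P.MP_92f5e0_lc

/-- the length of the iteration -/
abbrev OO : Type := (Order.succ 𝔠 : Cardinal.{0}).ord.ToType

/-- the first uncountable ordinal -/
abbrev Om : Type := (Order.succ ℵ₀ : Cardinal.{0}).ord.ToType

section
variable {κ : Cardinal.{0}} (hκ : ℵ₀ ≤ κ)
include hκ

theorem mk_Iic_succ (i : (Order.succ κ).ord.ToType) : #(Iic i) ≤ κ := by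
  rw [← Order.lt_succ_iff]
  refine (mk_Iic_lt i (by simp) ?_).trans_eq (mk_ord_toType _)
  rw [mk_ord_toType]
  exact hκ.trans (Order.le_succ _)

theorem bdd_succ (T : Type) (f : T → (Order.succ κ).ord.ToType) (hT : #T ≤ κ) :
    ∃ i, ∀ x, f x < i := by
  by_contra h
  push Not at h
  have h1 : (⋃ x, Iic (f x)) = Set.univ := eq_univ_of_forall fun i => mem_iUnion.2 (h i)
  have h2 := mk_iUnion_le_sum_mk (f := fun x => Iic (f x))
  rw [h1, mk_univ, mk_ord_toType] at h2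
  have h3 : sum (fun x => #(Iic (f x))) ≤ κ :=
    (sum_le_sum _ (fun _ => κ) fun x => mk_Iic_succ hκ _).trans (by
      rw [sum_const']
      exact (mul_le_mul_left hT _).trans_eq (mul_eq_self hκ))
  exact (Order.lt_succ κ).not_ge (h2.trans h3)

end

theorem bdd_OO (T : Type) (f : T → OO) (hT : #T ≤ 𝔠) : ∃ i, ∀ x, f x < i :=
  bdd_succ aleph0_le_continuum T f hT

theorem bdd_Om (T : Type) (f : T → Om) (hT : #T ≤ ℵ₀) : ∃ i, ∀ x, f x < i :=
  bdd_succ le_rfl T f hT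

theorem bdd_OO' {S : Set OO} (hS : S.Countable) : ∃ i, ∀ x ∈ S, x < i :=
  let ⟨i, hi⟩ := bdd_OO S (↑) (hS.le_aleph0.trans aleph0_le_continuum); ⟨i, fun x hx => hi ⟨x, hx⟩⟩

instance : NoMaxOrder OO := ⟨fun i => let ⟨j, hj⟩ := bdd_OO' (countable_singleton i); ⟨j, hj i rfl⟩⟩

instance : NoMaxOrder Om := ⟨fun i =>
  let ⟨j, hj⟩ := bdd_Om Unit (fun _ => i) mk_le_aleph0; ⟨j, hj ()⟩⟩

instance : Nonempty OO := let ⟨j, _⟩ := bdd_OO' countable_empty; ⟨j⟩

instance : Nonempty Om := let ⟨j, _⟩ := bdd_Om Empty Empty.elim mk_le_aleph0; ⟨j⟩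

theorem countable_Iic_Om (η : Om) : (Iic η).Countable :=
  le_aleph0_iff_set_countable.1 (mk_Iic_succ le_rfl η)

theorem mk_Iio_OO (ξ : OO) : #(Iio ξ) ≤ 𝔠 :=
  (mk_le_mk_of_subset Iio_subset_Iic_self).trans (mk_Iic_succ aleph0_le_continuum ξ)

theorem mk_Om : #Om ≤ 𝔠 := by
  rw [mk_ord_toType, Order.succ_le_iff]
  exact aleph0_lt_continuum

theorem mk_RR : #(ℕ → ℕ) = 𝔠 := by simp

/-- the closed conditions collapsing the continuum -/
abbrev CC : Type := End Om (ℕ → ℕ)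

/-- finite conditions -/
abbrev Cd : Type := Cond OO Om

/-- names -/
abbrev NN : Type := Nm CC OO Om

theorem closed_CC : Closed ℵ₀ CC := End.closed bdd_Om

theorem mk_CC : #CC ≤ 𝔠 := by
  have h : #CC ≤ #(Σ δ : Om, Iio δ → ℕ → ℕ) :=
    mk_le_of_surjective (f := fun x => (⟨x.1, x.2⟩ : CC)) fun x => ⟨⟨x.1, x.2⟩, rfl⟩
  refine h.trans ?_
  rw [mk_sigma]
  refine (sum_le_sum _ (fun _ => 𝔠) fun δ => ?_).trans ?_
  · rw [← power_def, mk_RR]
    refine (power_le_power_left continuum_ne_zero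
      ((countable_Iic_Om δ).mono Iio_subset_Iic_self).le_aleph0).trans_eq continuum_power_aleph0
  · rw [sum_const']
    exact (mul_le_mul_left mk_Om _).trans_eq continuum_mul_self

theorem mk_prod_le {S T : Type} (h : #S ≤ 𝔠) (h' : #T ≤ 𝔠) : #(S × T) ≤ 𝔠 := by
  rw [mk_prod, lift_id, lift_id]
  exact (mul_le_mul' h h').trans_eq continuum_mul_self

theorem mk_finset_le {S : Type} (h : #S ≤ 𝔠) : #(Finset S) ≤ 𝔠 := by
  rcases finite_or_infinite S with h1 | h1
  · exact mk_le_aleph0.trans aleph0_le_continuum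
  · rwa [mk_finset_of_infinite]

theorem mk_bd (ξ : OO) : #{p : Cd // p.Bd ξ} ≤ 𝔠 := by
  have h1 : #ℕ ≤ 𝔠 := mk_le_aleph0.trans aleph0_le_continuum
  have key : ∀ {T : Type} (s t : Finset (OO × T)), (∀ x ∈ s, x.1 < ξ) → (∀ x ∈ t, x.1 < ξ) →
      s.preimage (Prod.map ((↑) : Iio ξ → OO) id)
        (Subtype.val_injective.prodMap Function.injective_id).injOn =
      t.preimage (Prod.map ((↑) : Iio ξ → OO) id)
        (Subtype.val_injective.prodMap Function.injective_id).injOn → s = t := by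
    intro T s t hs ht h
    ext x
    have := fun hx : x.1 < ξ => Finset.ext_iff.1 h (⟨x.1, hx⟩, x.2)
    simp only [Finset.mem_preimage, Prod.map, id] at this
    exact ⟨fun a => (this (hs x a)).1 a, fun a => (this (ht x a)).2 a⟩
  refine (mk_le_of_injective (f := fun p : {p : Cd // p.Bd ξ} =>
    ((p.1.dom.subtype (· ∈ Iio ξ), p.1.len), (p.1.U.preimage (Prod.map ((↑) : Iio ξ → OO) id)
      (Subtype.val_injective.prodMap Function.injective_id).injOn,
      p.1.A.preimage (Prod.map ((↑) : Iio ξ → OO) id)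
        (Subtype.val_injective.prodMap Function.injective_id).injOn),
      p.1.E.preimage (Prod.map ((↑) : Iio ξ → OO) id)
        (Subtype.val_injective.prodMap Function.injective_id).injOn)) fun p q h => ?_).trans
    (mk_prod_le (mk_prod_le (mk_finset_le (mk_Iio_OO ξ)) h1) (mk_prod_le (mk_prod_le
      (mk_finset_le (mk_prod_le (mk_Iio_OO ξ) h1)) (mk_finset_le (mk_prod_le (mk_Iio_OO ξ) h1)))
      (mk_finset_le (mk_prod_le (mk_Iio_OO ξ) mk_Om))))
  simp only [Prod.mk.injEq] at h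
  obtain ⟨⟨a1, a2⟩, ⟨a3, a4⟩, a5⟩ := h
  refine Subtype.ext (Cond.ext ?_ a2
    (key _ _ (fun x hx => p.2 _ (p.1.hU x hx).1) (fun x hx => q.2 _ (q.1.hU x hx).1) a3)
    (key _ _ (fun x hx => p.2 _ (p.1.hA x hx).1) (fun x hx => q.2 _ (q.1.hA x hx).1) a4)
    (key _ _ (fun x hx => p.2 _ (p.1.hE x hx)) (fun x hx => q.2 _ (q.1.hE x hx)) a5))
  ext x
  have := fun hx : x < ξ => Finset.ext_iff.1 a1 ⟨x, hx⟩
  simp only [Finset.mem_subtype] at this
  exact ⟨fun a => (this (p.2 x a)).1 a, fun a => (this (q.2 x a)).2 a⟩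

theorem exists_surj {T : Type} [Nonempty T] (h : #T ≤ 𝔠) :
    ∃ f : (ℕ → ℕ) → T, Function.Surjective f := by
  rw [← mk_RR] at h
  obtain ⟨g⟩ := (le_def _ _).1 h
  exact ⟨_, Function.invFun_surjective g.injective⟩

theorem exists_enum (ξ : OO) : ∃ e : (ℕ → ℕ) → NN, ∀ ν : NN, (∀ k, (ν k).Countable) →
    (∀ k, ∀ y ∈ ν k, y.2.Bd ξ) → ∃ x, e x = ν := by
  obtain ⟨f, hf⟩ := exists_surj (T := ℕ → ℕ → Option (CC × {p : Cd // p.Bd ξ})) (by
    have h : #(Option (CC × {p : Cd // p.Bd ξ})) ≤ 𝔠 := by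
      rw [mk_option]
      exact add_le_of_le aleph0_le_continuum (mk_prod_le mk_CC (mk_bd ξ))
        (one_le_aleph0.trans aleph0_le_continuum)
    rw [← power_def, ← power_def, mk_nat]
    exact (power_le_power_right ((power_le_power_right h).trans_eq continuum_power_aleph0)).trans_eq
      continuum_power_aleph0)
  refine ⟨fun x k => {y | ∃ j z, f x k j = some z ∧ (z.1, z.2.1) = y}, fun ν h1 h2 => ?_⟩
  have : ∀ k, ∃ g : ℕ → Option (CC × {p : Cd // p.Bd ξ}),
      {y | ∃ j z, g j = some z ∧ (z.1, z.2.1) = y} = ν k := fun k => by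
    rcases (ν k).eq_empty_or_nonempty with h | h
    · exact ⟨fun _ => none, by simp [h]⟩
    · obtain ⟨g, hg⟩ := (h1 k).exists_eq_range h
      refine ⟨fun j => some ((g j).1, ⟨(g j).2, h2 k _ (hg ▸ mem_range_self j)⟩), ?_⟩
      ext y
      simp [hg]
  choose g hg using this
  obtain ⟨x, hx⟩ := hf g
  exact ⟨x, funext fun k => by simp only [hx, hg]⟩

/-- an enumeration of the countable names below `ξ` -/
noncomputable def en (ξ : OO) : (ℕ → ℕ) → NN := (exists_enum ξ).choose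

theorem en_surj {ξ : OO} {ν : NN} (h1 : ∀ k, (ν k).Countable) (h2 : ∀ k, ∀ y ∈ ν k, y.2.Bd ξ) :
    ∃ x, en ξ x = ν := (exists_enum ξ).choose_spec ν h1 h2

end Pool.Agent.P.MP_92f5e0_lc
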