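import Pool.Agent.Lib.Helper87.CodeDefs

namespace Pool.Agent.P.MP_92f5e0_lc

open Pool.Agent.Lib.Helper87 Coded

/-- no function of `M` eventually dominates all members of `H` -/
def Unbounded (M : Set ZFSet.{0}) (H : Set (ℕ → ℕ)) : Prop :=
  ∀ f : ℕ → ℕ, code f ∈ M → ∃ h ∈ H, ¬ ∀ᶠ n in Filter.atTop, h n ≤ f n

/-- every infinite set of `M` is split by a member of `S` -/
def Splitting (M : Set ZFSet.{0}) (S : Set (Set ℕ)) : Prop :=
  ∀ x : Set ℕ, code x ∈ M → x.Infinite → ∃ s ∈ S, (x ∩ s).Infinite ∧ (x \ s).Infinite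

/-- `A` is a maximal almost disjoint family in the sense of `M` -/
def Mad (M : Set ZFSet.{0}) (A : Set (Set ℕ)) : Prop :=
  A.Infinite ∧ (∀ a ∈ A, a.Infinite) ∧ (∀ a ∈ A, ∀ b ∈ A, a ≠ b → (a ∩ b).Finite) ∧
    ∀ x : Set ℕ, code x ∈ M → x.Infinite → ∃ a ∈ A, (a ∩ x).Infinite

/-- `x` is not almost covered by finitely many members of `A` -/
def Positive (A : Set (Set ℕ)) (x : Set ℕ) : Prop :=
  ¬ ∃ F ⊆ A, F.Finite ∧ (x \ ⋃₀ F).Finite

/-- every sequence in `M` of positive sets is met by a single member of `A` -/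
def Tight (M : Set ZFSet.{0}) (A : Set (Set ℕ)) : Prop :=
  ∀ b : ℕ → Set ℕ, code b ∈ M → (∀ n, Positive A (b n)) → ∃ a ∈ A, ∀ n, (a ∩ b n).Infinite

end Pool.Agent.P.MP_92f5e0_lc
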