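import Pool.Agent.P.MP_92f5e0_lc.Ultra

/-!
Forcing notions consisting of a closed part and a finite part.
-/

open Set Filter Cardinal Pool.Agent.Lib.Helper87

namespace Pool.Agent.P.MP_92f5e0_lc

/-- small families of pairwise compatible conditions have lower bounds -/
def Closed (κ : Cardinal.{0}) (S : Type) [Preorder S] : Prop :=
  ∀ (ι : Type) (x : ι → S), #ι ≤ κ → (∀ i j, ∃ z, z ≤ x i ∧ z ≤ x j) → ∃ y, ∀ i, y ≤ x i

theorem Closed.mono {κ κ' : Cardinal.{0}} {S : Type} [Preorder S] (h : Closed κ S) (hκ : κ' ≤ κ) :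
    Closed κ' S := fun ι x h1 => h ι x (h1.trans hκ)

theorem Closed.prod {κ : Cardinal.{0}} {S S' : Type} [Preorder S] [Preorder S'] (h : Closed κ S)
    (h' : Closed κ S') : Closed κ (S × S') := fun ι x h1 h2 => by
  obtain ⟨y, hy⟩ := h ι (fun i => (x i).1) h1 fun i j => let ⟨z, a, b⟩ := h2 i j; ⟨z.1, a.1, b.1⟩
  obtain ⟨y', hy'⟩ := h' ι (fun i => (x i).2) h1 fun i j => let ⟨z, a, b⟩ := h2 i j; ⟨z.2, a.2, b.2⟩
  exact ⟨(y, y'), fun i => ⟨hy i, hy' i⟩⟩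

/-- few dense open sets have dense intersection -/
theorem Closed.exists_all {κ : Cardinal.{0}} {S : Type} [Preorder S] (h : Closed κ S) {ι : Type}
    (hι : #ι ≤ κ) {R : ι → S → Prop} (hR : ∀ i s s', s' ≤ s → R i s → R i s') {s : S}
    (hd : ∀ i, ∀ s' ≤ s, ∃ t ≤ s', R i t) : ∃ t ≤ s, ∀ i, R i t := by
  have key : ∀ (T : Set ι) (g : T → S), (∀ j j', ∃ z, z ≤ g j ∧ z ≤ g j') → (∀ j, g j ≤ s) →
      ∃ y ≤ s, ∀ j, y ≤ g j := fun T g h1 h2 => by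
    rcases isEmpty_or_nonempty T with h3 | ⟨⟨j⟩⟩
    · exact ⟨s, le_rfl, fun j => isEmptyElim j⟩
    · obtain ⟨y, hy⟩ := h T g ((mk_set_le T).trans hι) h1
      exact ⟨y, (hy j).trans (h2 j), hy⟩
  have step : ∀ i (g : {j | WellOrderingRel j i} → S), ∃ t ≤ s, R i t ∧
      ((∀ j j', ∃ z, z ≤ g j ∧ z ≤ g j') → (∀ j, g j ≤ s) → ∀ j, t ≤ g j) := fun i g => by
    by_cases hg : (∀ j j', ∃ z, z ≤ g j ∧ z ≤ g j') ∧ ∀ j, g j ≤ s
    · obtain ⟨y, h1, h2⟩ := key _ g hg.1 hg.2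
      obtain ⟨t, h3, h4⟩ := hd i y h1
      exact ⟨t, h3.trans h1, h4, fun _ _ j => h3.trans (h2 j)⟩
    · obtain ⟨t, h3, h4⟩ := hd i s le_rfl
      exact ⟨t, h3, h4, fun a b => absurd ⟨a, b⟩ hg⟩
  choose st h1 h2 h3 using step
  obtain ⟨f, hf⟩ : ∃ f : ι → S, ∀ i, f i = st i fun j => f j :=
    ⟨(IsWellFounded.wf (r := WellOrderingRel)).fix fun i g => st i fun j => g j.1 j.2,
      fun i => WellFounded.fix_eq _ _ _⟩
  have h4 : ∀ i, f i ≤ s := fun i => hf i ▸ h1 _ _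
  have h5 : ∀ i j, WellOrderingRel j i → f i ≤ f j := by
    intro i
    induction i using (IsWellFounded.wf (r := WellOrderingRel)).induction with
    | h i ih =>
    intro j hj
    rw [hf i]
    refine h3 i (fun j => f j) (fun a b => ?_) (fun a => h4 a) ⟨j, hj⟩
    rcases trichotomous_of WellOrderingRel a.1 b.1 with h | h | h
    exacts [⟨_, ih b.1 b.2 a.1 h, le_rfl⟩, ⟨_, le_rfl, h ▸ le_rfl⟩, ⟨_, le_rfl, ih a.1 a.2 b.1 h⟩]
  obtain ⟨y, a1, a2⟩ := key univ (fun j => f j) (fun a b => by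
    rcases trichotomous_of WellOrderingRel a.1 b.1 with h | h | h
    exacts [⟨_, h5 _ _ h, le_rfl⟩, ⟨_, le_rfl, h ▸ le_rfl⟩, ⟨_, le_rfl, h5 _ _ h⟩]) fun a => h4 a
  exact ⟨y, a1, fun i => hR i _ _ (a2 ⟨i, mem_univ _⟩) (hf i ▸ h2 _ _)⟩

theorem exists_dom {ι : Type} [Countable ι] (h : ι → ℕ → ℕ) :
    ∃ H : ℕ → ℕ, ∀ i, ∀ᶠ n in atTop, h i n ≤ H n := by
  rcases isEmpty_or_nonempty ι with h1 | h1
  · exact ⟨fun _ => 0, fun i => isEmptyElim i⟩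
  · obtain ⟨e, he⟩ := exists_surjective_nat ι
    refine ⟨fun n => (Finset.range (n + 1)).sup fun k => h (e k) n, fun i => ?_⟩
    obtain ⟨k, rfl⟩ := he i
    filter_upwards [eventually_ge_atTop k] with n hn
    exact Finset.le_sup (f := fun k => h (e k) n) (Finset.mem_range.2 (Nat.lt_succ_of_le hn))

/-- countably many requirements on a closed condition and a function can be met together -/
theorem Closed.exists_dom {S : Type} [Preorder S] (h : Closed ℵ₀ S) {ι : Type} [Countable ι]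
    {R : ι → S → (ℕ → ℕ) → Prop} (hR : ∀ i s s' f, s' ≤ s → R i s f → R i s' f)
    (hR' : ∀ i s f f', (∀ᶠ n in atTop, f n ≤ f' n) → R i s f → R i s f') {s : S}
    (hd : ∀ i, ∀ s' ≤ s, ∃ t ≤ s', ∃ f, R i t f) : ∃ t ≤ s, ∃ f, ∀ i, R i t f := by
  obtain ⟨t, h1, h2⟩ := h.exists_all mk_le_aleph0 (R := fun i s => ∃ f, R i s f)
    (fun i s s' h ⟨f, hf⟩ => ⟨f, hR i s s' f h hf⟩) hd
  choose f hf using h2
  obtain ⟨H, hH⟩ := MP_92f5e0_lc.exists_dom f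
  exact ⟨t, h1, H, fun i => hR' i t _ _ (hH i) (hf i)⟩

/-- functions on initial segments -/
structure End (O β : Type) [LinearOrder O] where
  δ : O
  g : Iio δ → β

section
variable {O β : Type} [LinearOrder O] [Inhabited β]

/-- the total function given by an initial segment -/
def End.fn (x : End O β) (ξ : O) : β := if h : ξ < x.δ then x.g ⟨ξ, h⟩ else default

instance : Preorder (End O β) where
  le x y := y.δ ≤ x.δ ∧ ∀ ξ, ξ < y.δ → x.fn ξ = y.fn ξ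
  le_refl _ := ⟨le_rfl, fun _ _ => rfl⟩
  le_trans _ _ _ h h' := ⟨h'.1.trans h.1, fun ξ hξ => (h.2 ξ (hξ.trans_le h'.1)).trans (h'.2 ξ hξ)⟩

/-- the initial segment of a total function -/
def End.of (δ : O) (f : O → β) : End O β := ⟨δ, fun x => f x⟩

theorem End.fn_mk {δ ξ : O} (f : O → β) (h : ξ < δ) : (End.of δ f).fn ξ = f ξ := dif_pos h

theorem End.closed {κ : Cardinal.{0}} (hO : ∀ (ι : Type) (f : ι → O), #ι ≤ κ → ∃ δ, ∀ i, f i < δ) :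
    Closed κ (End O β) := fun ι x h1 h2 => by
  classical
  obtain ⟨δ, hδ⟩ := hO ι (fun i => (x i).δ) h1
  refine ⟨End.of δ fun ξ => if h : ∃ i, ξ < (x i).δ then (x h.choose).fn ξ else default,
    fun i => ⟨(hδ i).le, fun ξ hξ => ?_⟩⟩
  have h3 : ∃ i, ξ < (x i).δ := ⟨i, hξ⟩
  rw [End.fn_mk _ (hξ.trans (hδ i)), dif_pos h3]
  obtain ⟨z, a1, a2⟩ := h2 h3.choose i
  exact (a1.2 ξ h3.choose_spec).symm.trans (a2.2 ξ hξ)

theorem End.exists_ext [NoMaxOrder O] (x : End O β) (b : β) :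
    ∃ y ≤ x, x.δ < y.δ ∧ y.fn x.δ = b := by
  obtain ⟨δ, h⟩ := exists_gt x.δ
  refine ⟨End.of δ (Function.update x.fn x.δ b), ⟨h.le, fun ξ hξ => ?_⟩, h, ?_⟩
  · rw [End.fn_mk _ (hξ.trans h), Function.update_of_ne hξ.ne]
  · rw [End.fn_mk _ h, Function.update_self]

theorem End.exists_long (x : End O β) (ξ : O) : ∃ y ≤ x, ξ ≤ y.δ :=
  ⟨End.of (max x.δ ξ) x.fn, ⟨le_max_left _ _, fun _ h => End.fn_mk _ (lt_max_of_lt_left h)⟩,
    le_max_right _ _⟩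

end

/-- a forcing notion with a countably closed part and a finite part -/
structure Frame (P S O Ty : Type) [Preorder P] [Preorder S] where
  pure : P → S
  supp : P → Finset O
  ty : P → O → Ty
  mono : ∀ {q r}, q ≤ r → pure q ≤ pure r
  compat : ∀ q r s, s ≤ pure q → s ≤ pure r →
    (∀ ζ ∈ supp q, ζ ∈ supp r → ty q ζ = ty r ζ) → ∃ t, t ≤ q ∧ t ≤ r ∧ pure t ≤ s
  closed : Closed ℵ₀ S

variable {P S O Ty : Type} [Preorder P] [Preorder S] (F : Frame P S O Ty)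

theorem Frame.ext (q : P) {s : S} (h : s ≤ F.pure q) : ∃ t ≤ q, F.pure t ≤ s :=
  let ⟨t, h1, _, h2⟩ := F.compat q q s h h fun _ _ _ => rfl; ⟨t, h1, h2⟩

theorem Frame.fusion [Countable Ty] {ι : Type} [Countable ι] (D : ι → P → Prop) (s : S)
    (hD : ∀ n r, F.pure r ≤ s → ∃ r' ≤ r, D n r') :
    ∃ s' ≤ s, ∃ A : Set P, A.Countable ∧ (∀ a ∈ A, s' ≤ F.pure a) ∧
      ∀ n r, F.pure r ≤ s' → ∃ a ∈ A, D n a ∧ ∃ t, t ≤ r ∧ t ≤ a := by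
  classical
  let R : ι → (K : Finset O) → (K → Ty) → S → P → Prop := fun n K τ s0 q =>
    D n q ∧ s0 ≤ F.pure q ∧ ∀ ζ : K, F.ty q ζ = τ ζ
  have h1 : ∀ K : Finset O, ∀ᶠ w in gen S, ∀ n τ, (∃ q, w.In q ∧ w.Frc fun s0 => R n K τ s0 q) ∨
      w.Frc fun s0 => ∀ s1 ≤ s0, ¬ ∃ q, R n K τ s1 q := fun K =>
    ev_call fun n => ev_call fun τ => by
      filter_upwards [ev_frc_not (fun s0 => ∃ q, R n K τ s0 q) fun p q h ⟨a, a1, a2, a3⟩ =>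
        ⟨a, a1, h.trans a2, a3⟩, ev_frc_ex (R n K τ)] with w a1 a2
      rw [a1, ← a2]
      exact em _
  obtain ⟨w, a1, a2, a3, a4, a5⟩ := exists_world s (ev_generic.and ((ev_all_finset h1).and
    ((ev_of_club club_countable).and (ev_all fun q : P =>
      ev_countable_set (P := S) (F.supp q).countable_toSet))))
  have b1 : w.G.Countable := (countable_emb_mem a4).mono fun p hp => a2.mem p hp
  have := b1.to_subtype
  obtain ⟨s', b2⟩ := F.closed w.G (fun x => x.1) mk_le_aleph0 fun i j =>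
    let ⟨r, _, h⟩ := a2.dir _ i.2 _ j.2; ⟨r, h⟩
  refine ⟨s', b2 ⟨s, a1⟩, {q | w.In q ∧ ∃ s0 ∈ w.G, s0 ≤ F.pure q},
    (countable_emb_mem a4).mono fun q hq => hq.1, fun q ⟨_, s0, c1, c2⟩ => (b2 ⟨s0, c1⟩).trans c2,
    fun n r hr => ?_⟩
  obtain ⟨r', c1, c2⟩ := hD n r (hr.trans (b2 ⟨s, a1⟩))
  have c3 : ∀ s0 ∈ w.G, F.pure r' ≤ s0 := fun s0 h => (F.mono c1).trans (hr.trans (b2 ⟨s0, h⟩))
  rcases a3 ((F.supp r').filter w.In) (fun i hi => (Finset.mem_filter.1 hi).2) n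
    (fun ζ => F.ty r' ζ) with ⟨q, c4, s0, c5, c6, c7, c9⟩ | ⟨s0, c4, c5⟩
  · obtain ⟨t, d1, d2, -⟩ := F.compat q r' _ ((c3 s0 c5).trans c7) le_rfl fun ζ d1 d2 =>
      c9 ⟨ζ, Finset.mem_filter.2 ⟨d2, a5 q c4 ζ d1⟩⟩
    exact ⟨q, ⟨c4, s0, c5, c7⟩, c6, t, d2.trans c1, d1⟩
  · exact absurd ⟨r', c2, le_rfl, fun _ => rfl⟩ (c5 _ (c3 s0 c4))

/-- the generic filter extends the closed condition `s` -/
def Frame.Has (w : World P) (s : S) : Prop := w.Frc fun q => F.pure q ≤ s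

theorem Frame.Has.mono {w : World P} {s s' : S} (h : F.Has w s) (hs : s ≤ s') : F.Has w s' :=
  h.imp fun _ h => h.trans hs

theorem Frame.sem {Φ : World P → Prop} {s : S} (h : ∀ᶠ w in gen P, F.Has w s → Φ w) {q : P}
    (hq : F.pure q ≤ s) : Sem q Φ :=
  h.mono fun _ h1 ⟨r, h2, h3⟩ => h1 ⟨r, h2, (F.mono h3).trans hq⟩

theorem Frame.ev_of_pure {Φ : World P → Prop}
    (h : ∀ s, ∃ s' ≤ s, ∀ᶠ w in gen P, F.Has w s' → Φ w) : ∀ᶠ w in gen P, Φ w :=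
  ev_of_dense fun q => by
    obtain ⟨s', h1, h2⟩ := h (F.pure q)
    obtain ⟨t, h3, h4⟩ := F.ext q h1
    exact ⟨t, h3, F.sem h2 h4⟩

theorem Frame.ev_dense {s : S} (D : P → Prop) (hD : ∀ r, F.pure r ≤ s → ∃ r' ≤ r, D r') :
    ∀ᶠ w in gen P, F.Has w s → ∃ r ∈ w.G, D r := by
  filter_upwards [Lib.Helper87.ev_dense D] with w h ⟨q, h1, h2⟩
  obtain ⟨r, a1, -, a2⟩ := h q h1 fun r hr => hD r ((F.mono hr).trans h2)
  exact ⟨r, a1, a2⟩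

theorem Frame.fusion_ev [Countable Ty] {ι : Type} [Countable ι] (D : ι → P → Prop) (s : S)
    (hD : ∀ n r, F.pure r ≤ s → ∃ r' ≤ r, D n r') :
    ∃ s' ≤ s, ∃ A : Set P, A.Countable ∧ (∀ a ∈ A, s' ≤ F.pure a) ∧
      ∀ᶠ w in gen P, F.Has w s' → ∀ n, ∃ a ∈ A, D n a ∧ w.Has a := by
  obtain ⟨s', h1, A, h2, h3, h4⟩ := F.fusion D s hD
  refine ⟨s', h1, A, h2, h3, ?_⟩
  filter_upwards [ev_call fun n => F.ev_dense (s := s') (fun t => ∃ a ∈ A, D n a ∧ t ≤ a)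
    fun r hr => let ⟨a, a1, a2, t, a3, a4⟩ := h4 n r hr; ⟨t, a3, a, a1, a2, a4⟩] with w h5 h6 n
  obtain ⟨t, a1, a, a2, a3, a4⟩ := h5 n h6
  exact ⟨a, a2, a3, t, a1, a4⟩

theorem Frame.dir_pure [Countable Ty] {ι : Type} [Countable ι]
    {Φ : ι → (ℕ → ℕ) → World P → Prop} (h1 : ∀ k h, Measurable (Φ k h))
    (h2 : ∀ k h h' w, (∀ᶠ n in atTop, h n ≤ h' n) → Φ k h w → Φ k h' w) {s : S}
    (h3 : ∀ k, ∀ᶠ w in gen P, F.Has w s → ∃ h, w.In h ∧ Φ k h w) :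
    ∃ s' ≤ s, ∃ H, ∀ᶠ w in gen P, F.Has w s' → ∀ k, Φ k H w := by
  obtain ⟨s', a1, A, a2, -, a3⟩ := F.fusion_ev (fun k q => ∃ h, Sem q (Φ k h)) s fun k r hr =>
    Sem.ex_in (h1 k) (F.sem (h3 k) hr)
  have := a2.to_subtype
  have h4 : ∀ x : ι × A, ∃ h, (∃ h, Sem x.2.1 (Φ x.1 h)) → Sem x.2.1 (Φ x.1 h) := fun x => by
    by_cases h : ∃ h, Sem x.2.1 (Φ x.1 h)
    exacts [⟨_, fun _ => h.choose_spec⟩, ⟨0, fun h' => absurd h' h⟩]
  choose f hf using h4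
  obtain ⟨H, hH⟩ := exists_dom f
  refine ⟨s', a1, H, ?_⟩
  filter_upwards [a3, ev_call fun x : ι × A => ev_sem (Φ x.1 (f x))] with w b1 b2 b3 k
  obtain ⟨a, b4, b5, b6⟩ := b1 b3 k
  exact h2 k _ _ w (hH (k, ⟨a, b4⟩)) (b2 (k, ⟨a, b4⟩) a b6 (hf (k, ⟨a, b4⟩) b5))

include F in
theorem Frame.dir [Countable Ty] : Dir P := fun _ _ _ h1 h2 h3 => F.ev_of_pure fun s => by
  obtain ⟨s', a1, H, a2⟩ := F.dir_pure h1 h2 (s := s) fun k => (h3 k).mono fun _ h _ => h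
  refine ⟨s', a1, ?_⟩
  filter_upwards [a2, ev_const H] with w b1 b2 b3 using ⟨H, b2, b1 b3⟩

/-- the image of a world under a projection -/
def proj {Q : Type} [Preorder Q] (t0 : P) (π : P → Q) (w : World P) : World Q :=
  ⟨w.N, {q | w.In q ∧ ∃ t ∈ w.G, t ≤ t0 ∧ π t ≤ q}⟩

theorem ev_proj {Q : Type} [Preorder Q] {t0 : P} {π : P → Q}
    (h1 : ∀ t t', t ≤ t' → t' ≤ t0 → π t ≤ π t')
    (h2 : ∀ t ≤ t0, ∀ q ≤ π t, ∃ t' ≤ t, π t' ≤ q) {Φ : World Q → Prop}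
    (h : ∀ᶠ w in gen Q, Φ w) : Sem t0 fun w => Φ (proj t0 π w) := by
  filter_upwards [ev_of_club (ev_gen_iff.1 h), ev_generic, ev_fun π, ev_all fun D : Set Q =>
    ev_dense_ex fun t q => q ∈ D ∧ π t ≤ q] with w a1 a2 a3 a4 ⟨t1, a5, a6⟩
  refine a1 _ ⟨fun q hq => hq.1, ?_, fun D b1 b2 => ?_⟩
  · rintro q ⟨-, t, b1, b2, b3⟩ q' ⟨-, t', c1, c2, c3⟩
    obtain ⟨r, d1, d2, d3⟩ := a2.dir t b1 t' c1
    exact ⟨π r, ⟨a3 r (a2.mem r d1), r, d1, d2.trans b2, le_rfl⟩, (h1 _ _ d2 b2).trans b3,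
      (h1 _ _ d3 c2).trans c3⟩
  · obtain ⟨r, c1, c2, q, c3, c4, c5⟩ := a4 D b1 t1 a5 fun t ht => by
      obtain ⟨q, c1, c2⟩ := b2 (π t)
      obtain ⟨t', c3, c4⟩ := h2 t (ht.trans a6) q c2
      exact ⟨t', c3, q, c1, c4⟩
    exact ⟨q, ⟨c3, r, c1, c2.trans a6, c5⟩, c4⟩

theorem ev_proj_frc {Q : Type} [Preorder Q] (t0 : P) (π : P → Q) : ∀ᶠ w in gen P,
    ∀ D : Q → Prop, (∀ p q, q ≤ p → D p → D q) →
      ((proj t0 π w).Frc D ↔ w.Frc fun t => t ≤ t0 ∧ D (π t)) := by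
  filter_upwards [ev_generic, ev_fun π] with w a1 a2 D hD
  constructor
  · rintro ⟨q, ⟨-, t, b1, b2, b3⟩, b4⟩
    exact ⟨t, b1, b2, hD _ _ b3 b4⟩
  · rintro ⟨t, b1, b2, b3⟩
    exact ⟨π t, ⟨a2 t (a1.mem t b1), t, b1, b2, le_rfl⟩, b3⟩

end Pool.Agent.P.MP_92f5e0_lc
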