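import Pool.Agent.P.MP_92f5e0_lc.Stage

/-!
The invariant is preserved along the iteration.
-/

open Set Filter Cardinal Pool.Agent.Lib.Helper87

namespace Pool.Agent.P.MP_92f5e0_lc

open Cond

variable {D : Data} {β δ : OO}

/-- restriction of a condition -/
noncomputable def rs (β : OO) (q : Q D δ) : Q D β := ⟨(q.1.1, q.1.2.res β), bd_res _ _⟩

theorem inv_of_countable (h : Countable {p : Cd // p.Bd δ}) : Inv D δ := fun X hX c hL => by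
  obtain ⟨c', h1, h2⟩ := closed_CC.exists_all (ι := ℕ × {p : Cd // p.Bd δ}) mk_le_aleph0
    (R := fun k c' => ∃ m, ∃ r : Q D δ, c' ≤ r.1.1 ∧ Le D r.1.1 r.1.2 k.2.1 ∧
      ∃ s, X (k.1, m, s) r ∧ Av k.2.1 r.1.2 s)
    (fun _ _ _ h ⟨m, r, a1, a2⟩ => ⟨m, r, h.trans a1, a2⟩) (s := c) fun k c1 h1 => by
      obtain ⟨r, a1, m, a2⟩ := hL ⟨(c1, k.2.1), k.2.2⟩ h1 k.1
      exact ⟨r.1.1, a1.1, m, r, le_rfl, a1.2, a2⟩
  choose m hm using h2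
  obtain ⟨H, hH⟩ := exists_dom fun p n => m (n, p)
  refine ⟨c', h1, H, fun q hq n0 => ?_⟩
  obtain ⟨n, a1, a2⟩ := ((hH ⟨q.1.2, q.2⟩).and (eventually_ge_atTop n0)).exists
  obtain ⟨r, b1, b2, s, b3, b4⟩ := hm (n, ⟨q.1.2, q.2⟩)
  exact ⟨⟨(q.1.1, r.1.2), r.2⟩, ⟨le_rfl, b2.mono_c (hq.trans b1)⟩, n, a2, _, a1, s,
    hX _ _ _ ⟨hq.trans b1, Le.refl _⟩ b3, b4⟩

theorem inv_bot (h : ∀ ζ, ¬ ζ < δ) : Inv D δ := by
  refine inv_of_countable (Function.Injective.countable (f := fun p => p.1.len) fun p q e => ?_)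
  refine Subtype.ext (Cond.ext ?_ e ?_ ?_ ?_) <;> ext x
  · exact iff_of_false (fun a => h _ (p.2 _ a)) fun a => h _ (q.2 _ a)
  · exact iff_of_false (fun a => h _ (p.2 _ (p.1.hU x a).1)) fun a => h _ (q.2 _ (q.1.hU x a).1)
  · exact iff_of_false (fun a => h _ (p.2 _ (p.1.hA x a).1)) fun a => h _ (q.2 _ (q.1.hA x a).1)
  · exact iff_of_false (fun a => h _ (p.2 _ (p.1.hE x a))) fun a => h _ (q.2 _ (q.1.hE x a))

theorem Inv.quot (H : Inv D β) (hβ : β ≤ δ) {X : ℕ × ℕ × Finset ℕ → Q D δ → Prop} {c : CC}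
    (hL : ∀ q : Q D δ, q.1.1 ≤ c → ∀ n, ∃ r ≤ q, ∃ m s, X (n, m, s) r ∧ Av q.1.2 r.1.2 s) :
    ∃ c' ≤ c, ∃ h : ℕ → ℕ, ∀ q : Q D β, q.1.1 ≤ c' → ∀ n0, ∃ r ≤ q, ∃ n, n0 ≤ n ∧ ∃ m, m ≤ h n ∧
      ∃ s, (∃ t : Q D δ, X (n, m, s) t ∧ r ≤ rs β t) ∧ Av q.1.2 r.1.2 s :=
  H (fun y r => ∃ t : Q D δ, X y t ∧ r ≤ rs β t) (fun _ _ _ h ⟨t, a1, a2⟩ => ⟨t, a1, h.trans a2⟩) c
    fun q hq n => by
      obtain ⟨r, a1, m, s, a2, a3⟩ := hL ⟨q.1, q.2.mono hβ⟩ hq n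
      exact ⟨rs β r, ⟨a1.1, a1.2.res_left q.2⟩, m, s, ⟨r, a2, le_rfl⟩, fun k hk =>
        ⟨(a3 k hk).1, (a3 k hk).2.1, fun ζ b1 b2 => (a3 k hk).2.2 ζ b1 (res_A.1 b2).1⟩⟩

/-- amalgamation -/
theorem exists_amal (hβ : β ≤ δ) {r : Q D β} {t : Q D δ} (h : r ≤ rs β t) :
    ∃ t' ≤ t, t'.1 = (r.1.1, r.1.2.join t.1.2) ∧ Le D r.1.1 t'.1.2 r.1.2 :=
  ⟨⟨(r.1.1, r.1.2.join t.1.2), (r.2.mono hβ).join t.2⟩, ⟨h.1, amal_right r.2 h.2⟩, rfl,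
    amal_left r.2 h.2⟩

theorem inv_limit (H : ∀ β < δ, Inv D β) (h0 : ∃ β, β < δ) (h1 : ∀ β < δ, ∃ β', β < β' ∧ β' < δ) :
    Inv D δ := fun X hX c hL => by
  have hF : ∀ F : Finset OO, (∀ ζ ∈ F, ζ < δ) → ∃ β < δ, ∀ ζ ∈ F, ζ < β := fun F hF => by
    rcases F.eq_empty_or_nonempty with rfl | h
    · exact h0.imp fun _ h => ⟨h, by simp⟩
    · obtain ⟨β, a1, a2⟩ := h1 _ (hF _ (F.max'_mem h))
      exact ⟨β, a2, fun ζ hζ => (F.le_max' ζ hζ).trans_lt a1⟩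
  by_cases hc : ∃ Γ ⊆ Iio δ, Γ.Countable ∧ ∀ ζ < δ, ∃ β ∈ Γ, ζ < β
  · obtain ⟨Γ, a1, a2, a3⟩ := hc
    have := a2.to_subtype
    obtain ⟨c', b1, h, b2⟩ := closed_CC.exists_dom (ι := Γ) (R := fun β c' h => ∀ q : Q D β,
      q.1.1 ≤ c' → ∀ n0, ∃ r ≤ q, ∃ n, n0 ≤ n ∧ ∃ m, m ≤ h n ∧
        ∃ s, (∃ t : Q D δ, X (n, m, s) t ∧ r ≤ rs β t) ∧ Av q.1.2 r.1.2 s)
      (fun _ _ _ _ h H q hq => H q (hq.trans h)) (fun _ _ f f' h H q hq n0 => by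
        obtain ⟨N, hN⟩ := eventually_atTop.1 h
        obtain ⟨r, b1, n, b2, m, b3, b4⟩ := H q hq (max n0 N)
        exact ⟨r, b1, n, le_of_max_le_left b2, m, b3.trans (hN n (le_of_max_le_right b2)), b4⟩)
      (s := c) fun β c1 h => (H β (a1 β.2)).quot (le_of_lt (a1 β.2)) fun q hq => hL q (hq.trans h)
    refine ⟨c', b1, h, fun q hq n0 => ?_⟩
    obtain ⟨β0, b3, b4⟩ := hF _ q.2
    obtain ⟨β, b5, b6⟩ := a3 β0 b3
    obtain ⟨r, c1, n, c2, m, c3, s, ⟨t, c4, c5⟩, c6⟩ :=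
      b2 ⟨β, b5⟩ ⟨q.1, fun ζ hζ => (b4 ζ hζ).trans b6⟩ hq n0
    obtain ⟨t', c7, c8, c9⟩ := exists_amal (le_of_lt (a1 b5)) c5
    refine ⟨t', ⟨?_, ?_⟩, n, c2, m, c3, s, hX _ _ _ c7 c4, c6.mono (base_refl _) c1.2.base c9.base⟩
    · rw [c8]
      exact c1.1
    · rw [show t'.1.1 = r.1.1 by rw [c8]]
      exact c9.trans c1.2
  · obtain ⟨c1, a1, A, a2, a3, a4⟩ := (frQ D δ).fusion
      (fun y q => X y q ∨ ∀ r ≤ q, ¬ X y r) c fun y r _ => by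
        by_cases h : ∃ t ≤ r, X y t
        · exact h.imp fun _ h => ⟨h.1, Or.inl h.2⟩
        · exact ⟨r, le_rfl, Or.inr fun t a b => h ⟨t, a, b⟩⟩
    push Not at hc
    obtain ⟨β0, b1, b2⟩ := hc (⋃ a ∈ A, (a.1.2.dom : Set OO))
      (iUnion₂_subset fun a _ ζ hζ => a.2 ζ hζ) (a2.biUnion fun a _ => a.1.2.dom.countable_toSet)
    obtain ⟨β, b3, b4⟩ := h1 β0 b1
    obtain ⟨c', b5, h, b6⟩ := (H β b4).quot b4.le fun q (hq : q.1.1 ≤ c1) => hL q (hq.trans a1)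
    refine ⟨c', b5.trans a1, h, fun q hq n0 => ?_⟩
    obtain ⟨r, c2, n, c3, m, c4, s, ⟨t, c5, c6⟩, c7⟩ := b6 (rs β q) hq n0
    obtain ⟨t', d1, d2, d3⟩ := exists_amal b4.le c6
    have d4 : t'.1.1 = r.1.1 := by rw [d2]
    obtain ⟨a, d5, d6, t'', d7, d8⟩ := a4 (n, m, s) t' (d4.trans_le (c2.1.trans (hq.trans b5)))
    have d9 : rs β t'' ≤ r := ⟨d4 ▸ d7.1, (d7.2.trans (d3.mono_c (d4 ▸ d7.1))).res_left r.2⟩
    obtain ⟨z, e1, e2, e3⟩ := exists_amal b4.le (d9.trans c2)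
    have e4 : z.1.1 = t''.1.1 := by rw [e2]; rfl
    refine ⟨z, e1, n, c3, m, c4, s, hX _ a _ ⟨e4 ▸ d8.1, e4 ▸ e3.trans (d8.2.res_left
      fun ζ hζ => (b2 ζ (mem_biUnion d5 hζ)).trans_lt b3)⟩
      (d6.resolve_right fun h => h t'' d8 (hX _ _ _ (d7.trans d1) c5)), fun k hk => ?_⟩
    have e5 := c7.mono (base_refl _) c2.2.base (e3.trans d9.2).base k hk
    refine ⟨e5.1, e5.2.1, fun ζ e6 e7 => ?_⟩
    rcases lt_or_ge ζ β with e8 | e8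
    · exact e5.2.2 ζ (res_dom.2 ⟨e6, e8⟩) e7
    · rw [e2] at e7
      rcases join_A.1 e7 with e9 | e9
      exacts [(res_A.1 e9).2.not_ge e8, (q.1.2.hA _ e9).2.not_ge e5.1]

theorem inv_succ {B : Set NN} (H : Stage D β B (D β)) (h0 : β < δ) (h1 : ∀ ζ < δ, ζ ≤ β) :
    Inv D δ := fun X hX c hL => by
  classical
  let Y : ℕ × Finset ℕ × Finset ℕ → ℕ × ℕ × Finset ℕ × Finset ℕ → Q D β → Prop := fun τ y q =>
    ∃ r : Q D δ, ∃ t, X (y.1, y.2.1, t) r ∧ q ≤ rs β r ∧ β ∈ r.1.2.dom ∧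
      (∀ k < τ.1, ((β, k) ∈ r.1.2.U ↔ k ∈ τ.2.1) ∧ ((β, k) ∈ r.1.2.A ↔ k ∈ τ.2.2)) ∧
      (∀ k, τ.1 ≤ k → (β, k) ∈ r.1.2.U → k ∈ y.2.2.1) ∧
      (∀ k, τ.1 ≤ k → (β, k) ∈ r.1.2.A → k ∈ y.2.2.2) ∧ t ⊆ y.2.2.2 ∧
      ∀ k ∈ t, k < r.1.2.len ∧ (β, k) ∉ r.1.2.A
  obtain ⟨c', a1, h, a2⟩ := closed_CC.exists_dom (ι := ℕ × Finset ℕ × Finset ℕ)
    (R := fun τ c' h => ∀ q : Q D β, q.1.1 ≤ c' → ∀ E n0, ∃ r ≤ q, ∃ n, n0 ≤ n ∧ ∃ m, m ≤ h n ∧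
      WU (fun q : Q D β => q.1) (fcQ D β) (D β) (Y τ) q E n m r)
    (fun _ _ _ _ h H q hq => H q (hq.trans h)) (fun _ _ f f' h H q hq E n0 => by
      obtain ⟨N, hN⟩ := eventually_atTop.1 h
      obtain ⟨r, b1, n, b2, m, b3, b4⟩ := H q hq E (max n0 N)
      exact ⟨r, b1, n, le_of_max_le_left b2, m, b3.trans (hN n (le_of_max_le_right b2)), b4⟩)
    (s := c) fun τ c1 hc => H.s2 (Y τ) (fun _ _ _ h ⟨r, t, a1, a2, a3⟩ => ⟨r, t, a1, h.trans a2, a3⟩)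
      c1 fun q hq E n => by
        have b0 : β ∉ q.1.2.dom := fun h => lt_irrefl _ (q.2 β h)
        obtain ⟨r, b1, m, t, b2, b3⟩ := hL ⟨(q.1.1, q.1.2.join (pt β τ.1 τ.2.1 τ.2.2 E)),
          (q.2.mono h0.le).join fun ζ hζ => pt_dom.1 hζ ▸ h0⟩ (hq.trans hc) n
        have b4 : Le D r.1.1 r.1.2 (q.1.2.join (pt β τ.1 τ.2.1 τ.2.2 E)) := b1.2
        have b5 : β ∈ (q.1.2.join (pt β τ.1 τ.2.1 τ.2.2 E)).dom := by simp
        have b6 : ∀ k, (β, k) ∉ q.1.2.U := fun k h => b0 (q.1.2.hU _ h).1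
        have b7 : ∀ k, (β, k) ∉ q.1.2.A := fun k h => b0 (q.1.2.hA _ h).1
        have b8 : ∀ k, τ.1 ≤ k → (β, k) ∈ r.1.2.U → max q.1.2.len τ.1 ≤ k := fun k d1 d2 => by
          by_contra d3
          simpa [b6, d1.not_gt] using (b4.base.U (β, k) b5 (not_le.1 d3)).1 d2
        have b9 : ∀ k, τ.1 ≤ k → (β, k) ∈ r.1.2.A → max q.1.2.len τ.1 ≤ k := fun k d1 d2 => by
          by_contra d3
          simpa [b7, d1.not_gt] using (b4.base.A (β, k) b5 (not_le.1 d3)).1 d2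
        refine ⟨rs β r, ⟨b1.1, (b4.trans (join_le (fun x d1 d2 => absurd ((pt_U.1 d1).1 ▸ d2) b0)
          fun x d1 d2 => absurd ((pt_A.1 d1).1 ▸ d2) b0)).res_left q.2⟩, m,
          (stem r.1.2.U β).filter (τ.1 ≤ ·), (stem r.1.2.A β).filter (τ.1 ≤ ·) ∪ t,
          ⟨r, t, b2, le_rfl, b4.base.dom b5, fun k hk => ⟨?_, ?_⟩, fun k d1 d2 => by simp [d1, d2],
            fun k d1 d2 => by simp [d1, d2], Finset.subset_union_right,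
            fun k hk => ⟨(b3 k hk).2.1, (b3 k hk).2.2 β b5⟩⟩, fun k hk => ?_, fun k hk => ?_⟩
        · simpa [b6, hk] using b4.base.U (β, k) b5 (lt_max_of_lt_right hk)
        · simpa [b7, hk] using b4.base.A (β, k) b5 (lt_max_of_lt_right hk)
        · rw [Finset.mem_filter, mem_stem] at hk
          exact ⟨le_of_max_le_left (b8 k hk.2 hk.1), fun i hi =>
            b4.fc (by simp [hi]) (b8 k hk.2 hk.1) hk.1⟩
        · rcases Finset.mem_union.1 hk with hk | hk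
          · rw [Finset.mem_filter, mem_stem] at hk
            exact ⟨le_of_max_le_left (b9 k hk.2 hk.1), (r.1.2.hA _ hk.1).2, fun ζ d1 d2 =>
              b0 (b4.base.ad β b5 ζ (join_dom.2 (Or.inl d1)) k (b9 k hk.2 hk.1) hk.1
                (res_A.1 d2).1 ▸ d1)⟩
          · exact ⟨le_of_max_le_left (b3 k hk).1, (b3 k hk).2.1, fun ζ d1 d2 =>
              (b3 k hk).2.2 ζ (join_dom.2 (Or.inl d1)) (res_A.1 d2).1⟩
  refine ⟨c', a1, h, fun q0 hq n0 => ?_⟩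
  obtain ⟨q, a3, a4, -⟩ := exists_big q0 {β} 0
  obtain ⟨q', b1, n, b2, m, b3, u, s, ⟨r, t, b4, b5, b6, b7, b8, b9, b10, b11⟩, c1, c2⟩ :=
    a2 (q.1.2.len, stem q.1.2.U β, stem q.1.2.A β) (rs β q) (a3.1.trans hq)
      ((q.1.2.E.filter (·.1 = β)).image Prod.snd) n0
  simp only [mem_stem] at b7 b8 b9
  have d0 : ∀ ζ ∈ q.1.2.dom, β ≤ ζ → ζ = β := fun ζ d1 d2 => le_antisymm (h1 ζ (q.2 ζ d1)) d2
  have d1 : Le D q'.1.1 ((q'.1.2.join r.1.2).join q.1.2) (q'.1.2.join r.1.2) := by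
    refine join_le (fun x d1 _ => ?_) fun x d1 _ => ?_
    · rcases lt_or_ge x.1 β with d2 | d2
      · exact join_U.2 (Or.inl (b1.2.base.U_sub (res_U.2 ⟨d1, d2⟩)))
      · have d3 : x = (β, x.2) := Prod.ext (d0 _ (q.1.2.hU x d1).1 d2) rfl
        exact join_U.2 (Or.inr (d3 ▸ (b7 _ (q.1.2.hU x d1).2).1.2 (d3 ▸ d1)))
    · rcases lt_or_ge x.1 β with d2 | d2
      · exact join_A.2 (Or.inl (b1.2.base.A_sub (res_A.2 ⟨d1, d2⟩)))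
      · have d3 : x = (β, x.2) := Prod.ext (d0 _ (q.1.2.hA x d1).1 d2) rfl
        exact join_A.2 (Or.inr (d3 ▸ (b7 _ (q.1.2.hA x d1).2).2.2 (d3 ▸ d1)))
  have d2 := d1.trans (amal_left q'.2 b5.2)
  have d3 := d1.trans (amal_right q'.2 b5.2)
  have d4 : ∀ k, (β, k) ∉ q'.1.2.U := fun k h => lt_irrefl _ (q'.2 _ (q'.1.2.hU _ h).1)
  have d5 : ∀ k, (β, k) ∉ q'.1.2.A := fun k h => lt_irrefl _ (q'.2 _ (q'.1.2.hA _ h).1)
  have d6 := c2.mono (base_refl _) b1.2.base d2.base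
  have d7 : Le D q'.1.1 ((q'.1.2.join r.1.2).join q.1.2) q.1.2 := by
    refine le_of_res ((d2.res_left q'.2).trans b1.2) Finset.subset_union_right
      Finset.subset_union_right (fun x e1 e2 e3 => ?_) (fun x e1 e2 e3 => ?_)
      (fun η e1 ζ e2 e3 k e4 e5 e6 => ?_) fun η i k e1 e2 e3 e4 => ?_
    · obtain ⟨ζ, k⟩ := x
      obtain rfl : ζ = β := d0 _ e2 e1
      simp [d4, (b7 k e3).1]
    · obtain ⟨ζ, k⟩ := x
      obtain rfl : ζ = β := d0 _ e2 e1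
      simp [d5, (b7 k e3).2]
    · obtain rfl : η = β := d0 _ e1 e3
      rcases lt_or_ge ζ η with e7 | e7
      · have e8 : (η, k) ∈ r.1.2.A := by
          simpa [d5, show (η, k) ∉ q.1.2.A from fun h => (q.1.2.hA _ h).2.not_ge e4] using e5
        exact absurd e6 ((d6 k (b9 k e4 e8)).2.2 ζ (res_dom.2 ⟨e2, e7⟩))
      · exact (d0 ζ e2 e7).symm
    · obtain rfl : η = β := d0 _ (q.1.2.hE _ e2) e1
      have e8 : (η, k) ∈ r.1.2.U := by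
        simpa [d4, show (η, k) ∉ q.1.2.U from fun h => (q.1.2.hU _ h).2.not_ge e3] using e4
      exact Fc.mono ((c1 k (b8 k e3 e8)).2 i (by simpa using e2)) le_rfl (d2.res_left q'.2)
  refine ⟨⟨(q'.1.1, (q'.1.2.join r.1.2).join q.1.2), ((q'.2.mono h0.le).join r.2).join q.2⟩,
    le_trans ⟨b1.1, d7⟩ a3, n, b2, m, b3, t, hX _ r _ ⟨b5.1, d3⟩ b4, fun k hk => ?_⟩
  have e1 := d6 k (b10 hk)
  refine ⟨a3.2.base.len.trans e1.1, e1.2.1, fun ζ e2 e3 => ?_⟩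
  rcases lt_or_ge ζ β with e4 | e4
  · exact e1.2.2 ζ (res_dom.2 ⟨a3.2.base.dom e2, e4⟩) e3
  · obtain rfl : ζ = β := d0 ζ (a3.2.base.dom e2) e4
    exact (b11 k hk).2 ((d3.base.A _ b6 (b11 k hk).1).1 e3)

open Classical in
/-- the iteration given by a bookkeeping function -/
noncomputable def DD (bk : OO → Set NN) : Data :=
  (wellFounded_lt (α := OO)).fix fun ξ g =>
    Classical.epsilon (Stage (fun ζ => if h : ζ < ξ then g ζ h else fun _ _ => ∅) ξ (bk ξ))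

theorem DD_eq (bk : OO → Set NN) (ξ : OO) :
    DD bk ξ = Classical.epsilon (Stage (DD bk) ξ (bk ξ)) := by
  classical
  rw [← stage_congr (D := fun ζ => if ζ < ξ then DD bk ζ else fun _ _ => ∅) fun ζ h => if_pos h]
  exact WellFounded.fix_eq _ _ _

theorem DD_congr {bk bk' : OO → Set NN} (h : ∀ ζ < δ, bk ζ = bk' ζ) :
    ∀ ζ < δ, DD bk ζ = DD bk' ζ := by
  intro ζ
  induction ζ using WellFoundedLT.induction with
  | ind ζ ih =>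
  intro hζ
  rw [DD_eq, DD_eq bk', h ζ hζ, stage_congr fun η hη => ih η hη (hη.trans hζ)]

theorem inv_DD (bk : OO → Set NN) (δ : OO) : Inv (DD bk) δ := by
  induction δ using WellFoundedLT.induction with
  | ind δ ih =>
  by_cases h0 : ∃ β, β < δ
  · by_cases h1 : ∀ β < δ, ∃ β', β < β' ∧ β' < δ
    · exact inv_limit ih h0 h1
    · push Not at h1
      obtain ⟨β, a1, a2⟩ := h1
      refine inv_succ (B := bk β) ?_ a1 fun ζ hζ => not_lt.1 fun h => (a2 ζ h).not_gt hζ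
      rw [DD_eq]
      exact Classical.epsilon_spec ((ih β a1).exists_stage _)
  · exact inv_bot (not_exists.1 h0)

theorem stage_DD (bk : OO → Set NN) (ξ : OO) : Stage (DD bk) ξ (bk ξ) (DD bk ξ) := by
  rw [DD_eq]
  exact Classical.epsilon_spec ((inv_DD bk ξ).exists_stage _)

end Pool.Agent.P.MP_92f5e0_lc
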