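import Pool.Agent.P.MP_92f5e0_lc.Total

/-!
Small families are neither splitting nor maximal.
-/

open Set Filter Cardinal Pool.Agent.Lib.Helper87

namespace Pool.Agent.P.MP_92f5e0_lc

open Cond

theorem exists_addU {a : AA} {ξ : OO} (hξ : ξ < a.δ) {t : TT} (h : t.1.1.1 ≤ a) (l : ℕ) :
    ∃ r ≤ t, ∃ k, l ≤ k ∧ (ξ, k) ∈ r.1.2.U := by
  classical
  obtain ⟨q, a1, k, a2, a3⟩ := (stage_DD a.fn ξ).s1 (pj a ξ t)
    ((t.1.2.E.filter (·.1 = ξ)).image Prod.snd) (max l t.1.2.len)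
  have hD := fun ζ hζ => (DD_congr h.2 ζ hζ).symm
  obtain ⟨b1, -⟩ := add_pt q.2 ((le_up h (q.2.mono hξ.le)).2 a1.2) (le_of_max_le_right a2)
    (u := {k}) (s := ∅) (fun j hj => ⟨Finset.mem_singleton.1 hj, fun i hi => by
      rw [← hD ξ hξ]
      exact Fc.congr hD (a3 i (by simpa using hi)) (q.2.mono hξ.le)⟩) (by simp)
  exact ⟨⟨((t.1.1.1, q.1.1), _), ((q.2.mono (hξ.le.trans h.1)).join t.2).join fun ζ hζ =>
    pt_dom.1 hζ ▸ hξ.trans_le h.1⟩, ⟨⟨le_rfl, a1.1⟩, b1⟩, k, le_of_max_le_left a2, by simp⟩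

theorem sem_gu {a : AA} {ξ : OO} (hξ : ξ < a.δ) {t0 : TT} (h : t0.1.1.1 ≤ a) :
    Sem t0 fun w => (gu ξ w).Infinite ∧ ∀ i, w.In i →
      (gu ξ w \ val (fcQ _ ξ) (DD a.fn ξ i) (proj t0 (pj a ξ) w)).Finite := by
  filter_upwards [ev_call fun l => ev_dense_has fun r : TT => ∃ k, l ≤ k ∧ (ξ, k) ∈ r.1.2.U,
    ev_all fun i => ev_dense_has fun r : TT => (ξ, i) ∈ r.1.2.E, ev_generic,
    ev_proj_frc t0 (pj a ξ)] with w a1 a2 a3 a4 a5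
  refine ⟨infinite_of_forall fun l => ?_, fun i hi => ?_⟩
  · obtain ⟨r, b1, -, k, b2, b3⟩ := a1 l t0 a5 fun t ht => exists_addU hξ (ht.1.1.trans h) l
    exact ⟨k, b2, r, b1, b3⟩
  obtain ⟨r, b1, b2, b3⟩ := a2 i hi t0 a5 fun t ht => ⟨⟨(t.1.1, t.1.2.join (pt ξ 0 ∅ ∅ {i})),
    t.2.join fun ζ hζ => pt_dom.1 hζ ▸ hξ.trans_le (ht.1.1.trans h).1⟩,
    ⟨le_rfl, join_le (by simp) (by simp)⟩, by simp⟩
  refine (finite_Iio r.1.2.len).subset fun k ⟨⟨t, c1, c2⟩, c3⟩ => ?_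
  by_contra hk
  obtain ⟨t', d1, d2, d3⟩ := a3.dir t c1 r b1
  have d4 := (d3.trans b2).1.1.trans h
  have d5 := d3.2.fc b3 (not_lt.1 hk) (d2.2.base.U_sub c2)
  rw [DD_congr d4.2 ξ hξ] at d5
  exact c3 ((a4 _ fcQ_mono).2 ⟨t', d1, d3.trans b2,
    d5.congr (DD_congr d4.2) ((bd_res _ _).mono hξ.le)⟩)

theorem sem_val {a : AA} {ξ : OO} (hξ : ξ ≤ a.δ) {t0 : TT} (h : t0.1.1.1 ≤ a) :
    Sem t0 fun w => ∀ ν, BdN ξ ν → val (fcQ _ ξ) ν (proj t0 (pj a ξ) w) = val fcT ν w := by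
  filter_upwards [ev_generic, ev_proj_frc t0 (pj a ξ)] with w a1 a2 ⟨t1, a3, a4⟩ ν hν
  ext k
  refine (a2 _ fcQ_mono).trans ⟨?_, ?_⟩
  · rintro ⟨t, b1, b2, y, b3, b4, b5⟩
    exact ⟨t, b1, y, b3, b4, (le_of_pj hξ (b2.1.1.trans h) (hν k y b3)).2 b5⟩
  · rintro ⟨t, b1, b2⟩
    obtain ⟨r, c1, c2, c3⟩ := a1.dir t b1 t1 a3
    obtain ⟨y, b3, b4, b5⟩ := fcT_mono _ _ c2 b2
    exact ⟨r, c1, c3.trans a4, y, b3, b4,
      (le_of_pj hξ ((c3.trans a4).1.1.trans h) (hν k y b3)).1 b5⟩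

theorem ev_kill {Y : Om → World TT → Set ℕ} (hY : ∀ η, MS (Y η)) : ∀ᶠ w in gen TT, ∃ ξ, w.In ξ ∧
    (gu ξ w).Infinite ∧ ∀ η, w.In η →
      (gu ξ w ∩ Y η w).Finite ∨ (¬ OK Y w ∧ (gu ξ w \ Y η w).Finite) := ev_of_dense fun t => by
  classical
  let R : CC × Om → AA → NN → CC → Prop := fun x a ν c => BdN a.δ ν ∧ (∀ k, ∀ y ∈ ν k, y.1 = c) ∧
    ∀ᶠ w in gen TT, frT.Has w (a, c) → val fcT ν w = Y x.2 w
  obtain ⟨a, h1, h2⟩ := closed_AA.exists_all (mk_prod_le mk_CC mk_Om)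
    (R := fun x a => ∃ c ≤ x.1, ∃ ν, R x a ν c)
    (fun _ _ _ h ⟨c, a1, ν, a2, a3, a4⟩ => ⟨c, a1, ν, fun k y hy => (a2 k y hy).mono h.1, a3,
      a4.mono fun _ a5 a6 => a5 (a6.mono _ ⟨h, le_rfl⟩)⟩) (s := t.1.1.1) fun x a _ =>
      let ⟨s, a1, ν, _, a2⟩ := exists_nameT (hY x.2) (a, x.1); ⟨s.1, a1.1, s.2, a1.2, ν, a2⟩
  obtain ⟨a', h3, h4, h5⟩ := a.exists_ext {ν | ∃ x c, R x a ν c}
  obtain ⟨t0, h6, h7⟩ : ∃ t0 ≤ t, t0.1.1.1 = a' :=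
    ⟨⟨((a', t.1.1.2), t.1.2), t.2.mono (h3.trans h1).1⟩, ⟨⟨h3.trans h1, le_rfl⟩, Le.refl _⟩, rfl⟩
  have s3 := (stage_DD a'.fn a.δ).s3
  rw [h5] at s3
  refine ⟨t0, h6, ?_⟩
  filter_upwards [ev_proj (t0 := t0) (π := pj a' a.δ)
    (fun _ _ h h' => pj_mono h4.le h ((h.trans h').1.1.trans h7.le))
    (fun _ h _ hq => (pj_lift h4.le (h.1.1.trans h7.le) hq).imp fun _ h => ⟨h.1, h.2.2⟩) s3,
    sem_gu h4 h7.le, sem_val h4.le h7.le, ev_const a.δ, ev_generic, ev_in_finset Om,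
    ev_in_finset NN, ev_const (Classical.arbitrary Om),
    ev_all fun η => ev_dense_ex fun (r : TT) (ν : NN) => (∃ x c, R x a ν c) ∧
      Sem r fun w => val fcT ν w = Y η w,
    ev_all fun η => ev_all fun ν : NN => ev_sem fun w => val fcT ν w = Y η w,
    ev_all fun ν : NN => ev_imp (A := ∃ x c, R x a ν c) (Φ := fun w => ∃ η, w.In η ∧ ∃ c,
      (∀ k, ∀ y ∈ ν k, y.1 = c) ∧ (frT.Has w (a, c) → val fcT ν w = Y η w)) fun ⟨x, c, h⟩ => by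
        filter_upwards [h.2.2, ev_const x.2] with w a1 a2 using ⟨_, a2, c, h.2.1, a1⟩]
    with w a1 a2 a3 a4 a5 a6 a7 a8 a9 a10 a11 a12
  replace a1 := a1 a12
  replace a3 := a3 a12
  obtain ⟨a2, a13⟩ := a2 a12
  obtain ⟨t1, a14, a15⟩ := a12
  have e1 : ∀ ν, (∃ x c, R x a ν c) → bv (fcQ _ a.δ) {ν | ∃ x c, R x a ν c} ν
      (proj t0 (pj a' a.δ) w) = val fcT ν w := fun ν hν => by
    rw [← a3 ν (let ⟨_, _, h⟩ := hν; h.1)]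
    ext k
    exact and_iff_right hν
  have e2 : ∀ ν, w.In ν → bv (fcQ _ a.δ) {ν | ∃ x c, R x a ν c} ν (proj t0 (pj a' a.δ) w) = ∅ ∨
      ∃ η, w.In η ∧ bv (fcQ _ a.δ) {ν | ∃ x c, R x a ν c} ν (proj t0 (pj a' a.δ) w) = Y η w := by
    intro ν b1
    refine or_iff_not_imp_left.2 fun b2 => ?_
    obtain ⟨k, b3, b4⟩ := nonempty_iff_ne_empty.2 b2
    obtain ⟨η, b5, c, b6, b7⟩ := a11 ν b1 b3
    rw [a3 ν (let ⟨_, _, h⟩ := b3; h.1)] at b4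
    obtain ⟨r, b8, b9⟩ := b4
    obtain ⟨r', c1, c2, c3⟩ := a5.dir r b8 t1 a14
    obtain ⟨y, c4, c5, -⟩ := fcT_mono _ _ c2 b9
    exact ⟨η, b5, (e1 ν b3).trans (b7 ⟨r', c1, (c3.trans a15).1.1.trans (h7.le.trans h3),
      c5.trans_eq (b6 k y c4)⟩)⟩
  have e3 : OK Y w → OK (bv (fcQ _ a.δ) {ν | ∃ x c, R x a ν c}) (proj t0 (pj a' a.δ) w) := by
    refine fun ⟨b1, b2⟩ => ⟨fun ν c1 ν' c2 => ?_, fun F c1 => ?_⟩
    · rcases e2 ν c1 with c3 | ⟨η, c3, c4⟩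
      · exact Or.inr (by rw [c3, empty_inter]; exact finite_empty)
      rcases e2 ν' c2 with c5 | ⟨η', c5, c6⟩
      · exact Or.inr (by rw [c5, inter_empty]; exact finite_empty)
      rw [c4, c6]
      exact b1 η c3 η' c5
    · have c2 : ∀ ν, ∃ η, w.In η ∧ (ν ∈ F → bv (fcQ _ a.δ) {ν | ∃ x c, R x a ν c} ν
          (proj t0 (pj a' a.δ) w) ⊆ Y η w) := fun ν => by
        by_cases c2 : ν ∈ F
        · rcases e2 ν ((a7 F).1 c1 ν c2) with c3 | ⟨η, c3, c4⟩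
          exacts [⟨_, a8, fun _ => c3 ▸ empty_subset _⟩, ⟨η, c3, fun _ => c4.subset⟩]
        · exact ⟨_, a8, fun h => absurd h c2⟩
      choose f c3 c4 using c2
      refine (b2 (F.image f) ((a6 _).2 fun η hη => ?_)).mono (compl_subset_compl.2 ?_)
      · obtain ⟨ν, -, rfl⟩ := Finset.mem_image.1 hη
        exact c3 ν
      · rw [Finset.set_biUnion_finset_image]
        exact iUnion₂_mono c4
  refine ⟨_, a4, a2, fun η hη => ?_⟩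
  obtain ⟨r, b1, -, ν, b2, b3, b4⟩ := a9 η hη t1 a14 fun q hq => by
    obtain ⟨c, b1, ν, b2⟩ := h2 (q.1.1.2, η)
    exact ⟨⟨((q.1.1.1, c), q.1.2), q.2⟩, ⟨⟨le_rfl, b1⟩, Le.refl _⟩, ν, ⟨_, c, b2⟩, frT.sem b2.2.2
      ⟨(hq.trans a15).1.1.trans (h7.le.trans h3), le_rfl⟩⟩
  obtain ⟨i, c1, c2⟩ := a1 ν b2
  rw [e1 ν b3, a10 η hη ν b2 r (w.has_of_mem b1) b4] at c2
  exact c2.imp (fun c3 => (a13 i c1).subset fun k hk =>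
    ⟨hk.1, fun c4 => Set.disjoint_left.1 c3 c4 hk.2⟩) fun c3 =>
      ⟨fun c4 => c3.1 (e3 c4), (a13 i c1).subset (sdiff_subset_sdiff_right c3.2)⟩

end Pool.Agent.P.MP_92f5e0_lc
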