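import Pool.Agent.P.MP_92f5e0_lc.Kill
import Pool.Agent.P.MP_92f5e0_lc.Defs

/-!
The model.
-/

open Set Filter Cardinal Pool.Agent.Lib.Helper87 Coded

namespace Pool.Agent.P.MP_92f5e0_lc

section
variable {P : Type} [Preorder P]

theorem MS.namedC {E : World P → Set ℕ} (h : MS E) : NamedC E := by
  refine namedC_set (I := ℕ) namedC_const_nat h ?_
  filter_upwards [ev_ctype ℕ] with w hw z
  simp [hw]

theorem ms_code {y : World P → ZFSet.{0}} (h : Named y) : MS fun w => {k : ℕ | code k ∈ y w} :=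
  fun k => (named_nat k).measurable_mem h

theorem meas_exM {Ψ : ZFSet.{0} → World P → Prop}
    (h : ∀ τ : Name P, Measurable fun w => Ψ (w.val τ) w) : Measurable fun w => ∃ u ∈ w.M, Ψ u w :=
  (measurable_ex_in h).congr_ev (Eventually.of_forall fun _ =>
    ⟨fun ⟨_, ⟨τ, a1, a2⟩, a3⟩ => ⟨τ, a1, a2 ▸ a3⟩, fun ⟨τ, a1, a2⟩ => ⟨_, ⟨τ, a1, rfl⟩, a2⟩⟩)

end

theorem code_preimage (x : Set ℕ) : {k : ℕ | code k ∈ code x} = x := by
  ext k
  exact code_mem_code (T := ℕ)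

/-- the generic collapse maps `η` to a point of `S` -/
def gv (η : Om) (S : Set (ℕ → ℕ)) (w : World TT) : Prop :=
  w.Frc fun t => η < t.1.1.2.δ ∧ t.1.1.2.fn η ∈ S

theorem meas_gv (η : Om) (S : Set (ℕ → ℕ)) : Measurable (gv η S) :=
  measurable_frc fun _ _ h h' => ⟨h'.1.trans_le h.1.2.1, by rw [h.1.2.2 η h'.1]; exact h'.2⟩

theorem ev_card_Om {T : Type} (ρ : (ℕ → ℕ) → T) {S : Set T} (hS : S ⊆ range ρ)
    {x : T → World TT → ZFSet.{0}} (hx : ∀ b, Named (x b)) : ∀ᶠ w in gen TT, ∀ A : ZFSet.{0},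
      (∀ b b', w.In b → w.In b' → x b w = x b' w → b = b') →
      (∀ z, z ∈ A ↔ ∃ b, w.In b ∧ b ∈ S ∧ x b w = z) → CardLE w.M A (w.ordTop Om) := by
  filter_upwards [ev_cardLE (I := T × Om) (a := fun i => x i.1) (fun i => hx _)
    (b := fun i w => w.ord i.2) (fun i => named_ord _) (Φ := fun i w => i.1 ∈ S ∧
      gv i.2 (ρ ⁻¹' {i.1}) w ∧ ∀ η, w.In η → η < i.2 → ¬ gv η (ρ ⁻¹' {i.1}) w)
    fun i => measurable_const.and ((meas_gv _ _).and (measurable_all_in fun η =>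
      measurable_const.imp (meas_gv _ _).not)), ev_in_prod T Om, ev_generic, ev_nonempty,
    ev_all fun y : ℕ → ℕ => ev_dense_ex fun (t : TT) η => η < t.1.1.2.δ ∧ t.1.1.2.fn η = y,
    ev_all fun b => ev_skolem fun y => ρ y = b] with w a1 a2 a3 ⟨t0, a4⟩ a5 a6 A h1 h2
  refine a1 A _ (fun z hz => ?_) (fun i b1 b2 => ⟨(h2 _).2 ⟨_, ((a2 i).1 b1).1, b2.1, rfl⟩,
    w.mem_ordTop.2 ⟨_, ((a2 i).1 b1).2, rfl⟩⟩) fun i j b1 b2 b3 b4 => ?_
  · obtain ⟨b, b1, b2, rfl⟩ := (h2 z).1 hz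
    obtain ⟨y, b3, rfl⟩ := a6 b b1 (hS b2)
    obtain ⟨r, b4, -, η, b5, b6, b7⟩ := a5 y b3 t0 a4 fun q _ => by
      obtain ⟨c, c1, c2⟩ := q.1.1.2.exists_ext y
      exact ⟨⟨((q.1.1.1, c), q.1.2), q.2⟩, ⟨⟨le_rfl, c1⟩, Le.refl _⟩, _, c2⟩
    obtain ⟨η', c1, c2⟩ := (wellFounded_lt (α := Om)).has_min
      {η | w.In η ∧ gv η (ρ ⁻¹' {ρ y}) w} ⟨η, b5, r, b4, b6, congrArg ρ b7⟩
    exact ⟨(ρ y, η'), (a2 _).2 ⟨b1, c1.1⟩, ⟨b2, c1.2, fun ζ d1 d2 d3 => c2 ζ ⟨d1, d3⟩ d2⟩, rfl⟩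
  · obtain ⟨c1, c2⟩ := (a2 i).1 b1
    obtain ⟨c3, c4⟩ := (a2 j).1 b2
    rw [w.ord_inj c2 c4]
    constructor
    · intro e
      have e' := h1 _ _ c1 c3 e
      rcases lt_trichotomy i.2 j.2 with h | h | h
      exacts [absurd (e' ▸ b3.2.1) (b4.2.2 _ c2 h), h, absurd (e' ▸ b4.2.1) (b3.2.2 _ c4 h)]
    · intro e
      obtain ⟨p, d1, d2, d3⟩ := b3.2.1
      obtain ⟨q, d4, d5, d6⟩ := b4.2.1
      obtain ⟨r, -, d7, d8⟩ := a3.dir p d1 q d4
      rw [← d7.1.2.2 _ d2, e, d8.1.2.2 _ d5] at d3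
      rw [show i.1 = j.1 from d3.symm.trans d6]

theorem ev_Om_small : ∀ᶠ w in gen TT, ∀ α ∈ w.ordTop Om, CardLE w.M α ZFSet.omega := by
  have key : ∀ η : Om, ∀ᶠ w in gen TT, CardLE w.M (w.ord η) ZFSet.omega := fun η => by
    obtain ⟨j, hj⟩ := countable_iff_exists_injOn.1 (countable_Iic_Om η)
    filter_upwards [ev_cardLE (I := Om) (a := fun ζ w => w.ord ζ) named_ord
      (b := fun ζ _ => code (j ζ)) (fun _ => named_nat _) (Φ := fun ζ _ => ζ < η)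
      fun _ => measurable_const] with w h
    refine h _ _ (fun z hz => w.mem_ord.1 hz) (fun ζ a1 a2 => ⟨w.mem_ord.2 ⟨ζ, a1, a2, rfl⟩,
      mem_omega_iff.2 ⟨_, rfl⟩⟩) fun ζ ζ' a1 a2 a3 a4 => ?_
    rw [w.ord_inj a1 a2, code_inj, hj.eq_iff a3.le a4.le]
  filter_upwards [ev_all key] with w h α hα
  obtain ⟨η, h1, rfl⟩ := w.mem_ordTop.1 hα
  exact h η h1

theorem ev_OO_small : ∀ᶠ w in gen TT, ∀ α ∈ w.ordTop OO, CardLE w.M α (w.ordTop Om) := by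
  have key : ∀ ξ : OO, ∀ᶠ w in gen TT, CardLE w.M (w.ord ξ) (w.ordTop Om) := fun ξ => by
    obtain ⟨f, hf⟩ := exists_surj (T := Iic ξ) (mk_Iic_succ aleph0_le_continuum ξ)
    filter_upwards [ev_card_Om (fun y => (f y).1) (S := Iio ξ) (fun ζ (hζ : ζ < ξ) =>
      (hf ⟨ζ, mem_Iic.2 hζ.le⟩).imp fun _ hy => congrArg Subtype.val hy) named_ord] with w h
    exact h _ (fun _ _ a1 a2 => (w.ord_inj a1 a2).1) fun z => w.mem_ord
  filter_upwards [ev_all key] with w h α hα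
  obtain ⟨ξ, h1, rfl⟩ := w.mem_ordTop.1 hα
  exact h ξ h1

theorem ev_unbounded : ∀ᶠ w in gen TT, ∃ H : Set (ℕ → ℕ), code H ∈ w.M ∧
    CardLE w.M (code H) (w.ordTop Om) ∧ Unbounded w.M H := by
  have n1 : ∀ h : ℕ → ℕ, NamedC fun _ : World TT => h := fun h =>
    namedC_seq fun n => namedC_const_nat _
  have n2 : NamedC fun w : World TT => {h : ℕ → ℕ | w.In h} :=
    namedC_set n1 (Φ := fun _ _ => True) (fun _ => measurable_const)
      (Eventually.of_forall fun w z => by simp)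
  filter_upwards [n2.ev_mem, ev_card_Om id (S := Set.univ) (by simp) n1,
    ev_all_named (Φ := fun y w => ∀ f : ℕ → ℕ, code f = y → ∃ h : ℕ → ℕ, w.In h ∧
      ¬ ∀ᶠ n in atTop, h n ≤ f n) fun y hy => by
      have m1 : ∀ n m : ℕ, Measurable fun w => ZFSet.pair (code n) (code m) ∈ y w := fun n m =>
        ((named_nat n).pair (named_nat m)).measurable_mem hy
      filter_upwards [ev_unb (Φ := fun n m w => (∃ m' : ℕ, ZFSet.pair (code n) (code m') ∈ y w) →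
        ZFSet.pair (code n) (code m) ∈ y w) (fun n m => (Measurable.exists (m1 n)).imp (m1 n m))
        fun w n => by
          by_cases h : ∃ m' : ℕ, ZFSet.pair (code n) (code m') ∈ y w
          exacts [h.imp fun _ h _ => h, ⟨0, fun h' => absurd h' h⟩]] with w ⟨h, a1, a2⟩ f e
      refine ⟨h, a1, fun a3 => ?_⟩
      obtain ⟨N, hN⟩ := eventually_atTop.1 a3
      obtain ⟨n, a4, m, a5, a6⟩ := a2 N
      simp only [← e, pair_mem_code_seq, exists_eq', true_imp_iff] at a6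
      exact (hN n a4).not_gt (a6 ▸ a5)] with w a1 a2 a3
  exact ⟨_, a1, a2 _ (fun _ _ _ _ => code_inj.1) fun z => by simp [mem_code_set],
    fun f hf => a3 _ hf f rfl⟩

theorem ev_continuum : ∀ᶠ w in gen TT,
    CardLE w.M (code {x : Set ℕ | code x ∈ w.M}) (w.ordTop OO) := by
  obtain ⟨ψ⟩ : Nonempty (OO × (ℕ → ℕ) ↪ OO) := by
    rw [← Cardinal.le_def, mk_prod, lift_id, lift_id, mk_RR, mk_ord_toType]
    exact (mul_eq_left (aleph0_le_continuum.trans (Order.le_succ _)) (Order.le_succ _)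
      continuum_ne_zero).le
  let Y : OO × (ℕ → ℕ) → World TT → Set ℕ := fun i => val fcT (en i.1 i.2)
  have hY : ∀ i, MS (Y i) := fun i => ms_valT _
  filter_upwards [ev_cardLE (a := fun i w => code (Y i w)) (fun i => (hY i).namedC)
    (b := fun i w => w.ord (ψ i)) (fun i => named_ord _)
    (Φ := fun i w => ∀ j, w.In j → WellOrderingRel j i → Y j w ≠ Y i w)
    fun i => measurable_all_in fun j => measurable_const.imp ((hY j).eq (hY i)).not,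
    ev_all fun i => (hY i).namedC.ev_mem, ev_fun ψ,
    ev_all_named (Φ := fun y w => ∃ i, w.In i ∧ Y i w = {k : ℕ | code k ∈ y}) fun y hy =>
      frT.ev_of_pure fun s => by
        obtain ⟨s', a1, ν, a2, a3, -, a4⟩ := exists_nameT (ms_code hy) s
        obtain ⟨x, rfl⟩ := en_surj a2 a3
        refine ⟨s', a1, ?_⟩
        filter_upwards [a4, ev_const (s'.1.δ, x)] with w b1 b2 b3 using ⟨_, b2, b1 b3⟩]
    with w a1 a2 a3 a4
  refine a1 _ _ (fun z hz => ?_) (fun i b1 _ => ⟨code_mem_code.2 (a2 i b1),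
    w.mem_ordTop.2 ⟨_, a3 i b1, rfl⟩⟩) fun i j b1 b2 b3 b4 => ?_
  · obtain ⟨x, b1, rfl⟩ := mem_code_set.1 hz
    have b2 := a4 _ b1
    rw [code_preimage] at b2
    obtain ⟨i, ⟨b3, rfl⟩, b4⟩ := (IsWellFounded.wf (r := WellOrderingRel)).has_min
      {i | w.In i ∧ Y i w = x} b2
    exact ⟨i, b3, fun j c1 c2 c3 => b4 j ⟨c1, c3⟩ c2, rfl⟩
  · rw [w.ord_inj (a3 i b1) (a3 j b2), code_inj, ψ.injective.eq_iff]
    refine ⟨fun e => ?_, fun e => e ▸ rfl⟩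
    rcases trichotomous_of WellOrderingRel i j with h | h | h
    exacts [absurd e (b4 i b1 h), h, absurd e.symm (b3 j b2 h)]

theorem infinite_compl_of_ad {S F : Set (Set ℕ)} (h1 : S.Infinite) (h2 : ∀ a ∈ S, a.Infinite)
    (h3 : ∀ a ∈ S, ∀ b ∈ S, a ≠ b → (a ∩ b).Finite) (hF : F.Finite)
    (h4 : ∀ b ∈ F, b = ∅ ∨ b ∈ S) : (⋃₀ F)ᶜ.Infinite := by
  obtain ⟨a, a1, a2⟩ := h1.exists_notMem_finite hF
  refine ((h2 a a1).sdiff (hF.biUnion (t := fun b => a ∩ b) fun b hb => ?_)).mono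
    fun k hk ⟨b, b1, b2⟩ => hk.2 (mem_biUnion b1 ⟨hk.1, b2⟩)
  rcases h4 b hb with rfl | h
  · simp
  · exact h3 a a1 b h fun e => a2 (e ▸ hb)

theorem ev_small : ∀ᶠ w in gen TT, ∀ S : Set (Set ℕ), code S ∈ w.M →
    CardLE w.M (code S) (w.ordTop Om) → ¬ Splitting w.M S ∧ ¬ Mad w.M S := by
  refine (ev_all_named (Φ := fun f w => ∀ S : Set (Set ℕ), code S ∈ w.M →
      ZFSet.IsFunc (code S) (w.ordTop Om) f →
      (∀ x x' y, ZFSet.pair x y ∈ f → ZFSet.pair x' y ∈ f → x = x') →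
      ¬ Splitting w.M S ∧ ¬ Mad w.M S) fun f hf => ?_).mono
    fun w h S h1 ⟨f, h2, h3, h4⟩ => h f h2 S h1 h3 h4
  obtain ⟨Y, hY, e⟩ : ∃ Y : Om → World TT → Set ℕ, (∀ η, MS (Y η)) ∧ ∀ η w, Y η w =
      {k | ∃ u ∈ w.M, ZFSet.pair u (w.ord η) ∈ f w ∧ code k ∈ u} :=
    ⟨_, fun η k => meas_exM fun τ => (((named_val τ).pair (named_ord η)).measurable_mem hf).and
      ((named_nat k).measurable_mem (named_val τ)), fun _ _ => rfl⟩
  filter_upwards [ev_kill hY, ev_all fun ξ => (ms_gu ξ).namedC.ev_mem, ev_trans, ev_in_finset Om]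
    with w ⟨ξ, a1, a2, a3⟩ a4 a5 a6 S h1 h2 h3
  have e1 : ∀ x ∈ S, ∀ η, ZFSet.pair (code x) (w.ord η) ∈ f w → Y η w = x := fun x hx η h => by
    rw [e]
    ext k
    exact ⟨fun ⟨u, _, b1, b2⟩ => code_mem_code.1 (h3 _ _ _ b1 h ▸ b2),
      fun hk => ⟨_, a5 _ h1 _ (code_mem_code.2 hx), h, code_mem_code.2 hk⟩⟩
  have e2 : ∀ x ∈ S, ∃ η, w.In η ∧ Y η w = x := fun x hx => by
    obtain ⟨y, b1, -⟩ := h2.2 _ (code_mem_code.2 hx)
    obtain ⟨η, b2, rfl⟩ := w.mem_ordTop.1 (ZFSet.pair_mem_prod.1 (h2.1 b1)).2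
    exact ⟨η, b2, e1 x hx η b1⟩
  have e3 : ∀ η, Y η w = ∅ ∨ Y η w ∈ S := fun η => by
    refine or_iff_not_imp_left.2 fun h => ?_
    obtain ⟨k, hk⟩ := nonempty_iff_ne_empty.2 h
    rw [e] at hk
    obtain ⟨u, -, b1, -⟩ := hk
    obtain ⟨x, b2, rfl⟩ := mem_code_set.1 (ZFSet.pair_mem_prod.1 (h2.1 b1)).1
    rwa [e1 x b2 η b1]
  constructor
  · intro H
    obtain ⟨x, b1, b2, b3⟩ := H _ (a4 ξ a1) a2
    obtain ⟨η, b4, rfl⟩ := e2 x b1
    exact (a3 η b4).elim b2 fun h => b3 h.2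
  · rintro ⟨H1, H2, H3, H4⟩
    obtain ⟨x, b1, b2⟩ := H4 _ (a4 ξ a1) a2
    obtain ⟨η, b4, rfl⟩ := e2 x b1
    refine (a3 η b4).elim (fun h => b2 (inter_comm _ _ ▸ h)) fun h => h.1
      ⟨fun i _ j _ => ?_, fun F _ => ?_⟩
    · rcases e3 i with c1 | c1
      · exact Or.inr (by simp [c1])
      rcases e3 j with c2 | c2
      · exact Or.inr (by simp [c2])
      exact or_iff_not_imp_left.2 (H3 _ c1 _ c2)
    · have := infinite_compl_of_ad H1 H2 H3 (F.finite_toSet.image fun η => Y η w)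
        (forall_mem_image.2 fun η _ => e3 η)
      rwa [sUnion_image] at this

theorem ev_family : ∀ᶠ w in gen TT,
    code (vals ga w) ∈ w.M ∧ Mad w.M (vals ga w) ∧ Tight w.M (vals ga w) := by
  have n1 : NamedC (vals ga) := namedC_set (fun ξ => (ms_ga ξ).namedC) (Φ := fun _ _ => True)
    (fun _ => measurable_const) (Eventually.of_forall fun w z => by simp [vals])
  filter_upwards [n1.ev_mem, ev_all ev_ga_inf, ev_all fun ξ => ev_all (ev_ga_ad ξ), ev_trans,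
    ev_in_finset OO, ev_call fun n => ev_const (Infinite.natEmbedding OO n),
    ev_all_named (Φ := fun y w => ∃ ξ, w.In ξ ∧ ∀ _ : ℕ, (ga ξ w ∩ {k : ℕ | code k ∈ y}).Infinite ∨
      ∃ F : Finset OO, w.In F ∧ ({k : ℕ | code k ∈ y} \ ⋃ ζ ∈ F, ga ζ w).Finite)
      fun y hy => ev_tight (Y := fun _ w => {k : ℕ | code k ∈ y w}) fun _ => ms_code hy,
    ev_all_named (Φ := fun y w => ∃ ξ, w.In ξ ∧ ∀ n : ℕ, (ga ξ w ∩ {k : ℕ | ∃ u ∈ w.M,
      ZFSet.pair (code n) u ∈ y ∧ code k ∈ u}).Infinite ∨ ∃ F : Finset OO, w.In F ∧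
        ({k : ℕ | ∃ u ∈ w.M, ZFSet.pair (code n) u ∈ y ∧ code k ∈ u} \ ⋃ ζ ∈ F, ga ζ w).Finite)
      fun y hy => ev_tight (Y := fun (n : ℕ) w => {k : ℕ | ∃ u ∈ w.M,
      ZFSet.pair (code n) u ∈ y w ∧ code k ∈ u}) fun n k => meas_exM fun τ =>
        (((named_nat n).pair (named_val τ)).measurable_mem hy).and
          ((named_nat k).measurable_mem (named_val τ))] with w a1 a2 a3 a4 a5 a6 a7 a8
  refine ⟨a1, ⟨infinite_of_injective_forall_mem (f := fun n => ga (Infinite.natEmbedding OO n) w)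
    (fun n m e => ?_) fun n => mem_vals (a6 n), forall_vals.2 a2, forall_vals.2 fun ξ b1 =>
      forall_vals.2 fun ζ b2 b3 => a3 ξ b1 ζ b2 fun e => b3 (e ▸ rfl), fun x b1 b2 => ?_⟩,
    fun b b1 b2 => ?_⟩
  · by_contra h
    have := a3 _ (a6 n) _ (a6 m) fun e => h ((Infinite.natEmbedding OO).injective e)
    simp only at e
    rw [← e, inter_self] at this
    exact a2 _ (a6 n) this
  · obtain ⟨ξ, b3, b4⟩ := a7 _ b1
    rw [code_preimage] at b4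
    rcases b4 0 with b5 | ⟨F, b5, b6⟩
    · exact ⟨_, mem_vals b3, b5⟩
    by_contra h
    push Not at h
    refine b2 ((b6.union (F.finite_toSet.biUnion fun ζ hζ =>
      h _ (mem_vals ((a5 F).1 b5 ζ hζ)))).subset fun k hk => ?_)
    by_cases c : k ∈ ⋃ ζ ∈ F, ga ζ w
    · obtain ⟨ζ, c1, c2⟩ := mem_iUnion₂.1 c
      exact Or.inr (mem_biUnion c1 ⟨c2, hk⟩)
    · exact Or.inl ⟨hk, c⟩
  · obtain ⟨ξ, b3, b4⟩ := a8 _ b1
    have e : ∀ n, {k : ℕ | ∃ u ∈ w.M, ZFSet.pair (code n) u ∈ code b ∧ code k ∈ u} = b n := by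
      intro n
      have c1 : ZFSet.pair (code n) (code (b n)) ∈ code b := pair_mem_code_seq.2 rfl
      ext k
      constructor
      · rintro ⟨u, -, c2, c3⟩
        obtain ⟨m, c4⟩ := mem_code_seq.1 c2
        rw [ZFSet.pair_inj, code_inj] at c4
        rwa [← c4.2, c4.1, code_mem_code] at c3
      · exact fun hk => ⟨_, a4 _ (a4 _ (a4 _ b1 _ c1) {code n, code (b n)} (by simp [ZFSet.pair]))
          _ (by simp), c1, code_mem_code.2 hk⟩
    simp only [e] at b4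
    refine ⟨_, mem_vals b3, fun n => (b4 n).resolve_right fun ⟨F, c1, c2⟩ => b2 n
      ⟨(fun ζ => ga ζ w) '' F, forall_mem_image.2 fun ζ hζ => mem_vals ((a5 F).1 c1 ζ hζ),
        F.finite_toSet.image _, ?_⟩⟩
    rwa [sUnion_image]

theorem main : ∃ M : Set ZFSet.{0}, TransModelZFC M ∧ ∃ κ ∈ M, ∃ μ ∈ M,
    κ.IsOrdinal ∧ μ.IsOrdinal ∧ (∀ α ∈ κ, CardLE M α ZFSet.omega) ∧ (∀ α ∈ μ, CardLE M α κ) ∧
    CardLE M (code {x : Set ℕ | code x ∈ M}) μ ∧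
    (∃ H : Set (ℕ → ℕ), code H ∈ M ∧ CardLE M (code H) κ ∧ Unbounded M H) ∧
    (∀ S : Set (Set ℕ), code S ∈ M → CardLE M (code S) κ → ¬ Splitting M S ∧ ¬ Mad M S) ∧
    ∃ A : Set (Set ℕ), code A ∈ M ∧ Mad M A ∧ Tight M A := by
  obtain ⟨w, h1, h2, h3, h4, h5, h6, h7, h8, h9⟩ := (ev_zfc.and ((named_ordTop (O := Om)).ev_mem.and
    ((named_ordTop (O := OO)).ev_mem.and (ev_Om_small.and (ev_OO_small.and (ev_continuum.and
      (ev_unbounded.and (ev_small.and ev_family)))))))).exists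
  exact ⟨w.M, h1, _, h2, _, h3, w.isOrdinal_ordTop, w.isOrdinal_ordTop, h4, h5, h6, h7, h8, _, h9⟩

end Pool.Agent.P.MP_92f5e0_lc
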