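import Mathlib

/-!
Ideals on `ℕ` generated by closed hereditary families which depend on a parameter set.
-/

open Set Filter

namespace Pool.Agent.P.MP_92f5e0_lc

/-- `E` is nonempty and contains a member of `V` -/
def Hit (V : Set (Finset ℕ)) (E : Set ℕ) : Prop := E.Nonempty ∧ ∃ v ∈ V, (v : Set ℕ) ⊆ E

theorem Hit.mono {V V' : Set (Finset ℕ)} {E E' : Set ℕ} (h : Hit V E) (hV : V ⊆ V')
    (hE : E ⊆ E') : Hit V' E' :=
  let ⟨h1, v, h2, h3⟩ := h; ⟨h1.mono hE, v, hV h2, h3.trans hE⟩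

theorem not_hit_empty (V : Set (Finset ℕ)) : ¬ Hit V ∅ := fun h => not_nonempty_empty h.1

/-- `E` is covered by sets, one for each member of the list, which are not hit by it -/
def Sm : List (Set (Finset ℕ)) → Set ℕ → Prop
  | [], E => E ⊆ ∅
  | V :: L, E => ∃ f, ¬ Hit V f ∧ Sm L (E \ f)

theorem Sm.mono {L : List (Set (Finset ℕ))} {E E' : Set ℕ} (h : Sm L E) (hE : E' ⊆ E) :
    Sm L E' := by
  induction L generalizing E E' with
  | nil => exact hE.trans h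
  | cons V L ih =>
    obtain ⟨f, h1, h2⟩ := h
    exact ⟨f, h1, ih h2 (sdiff_subset_sdiff_left hE)⟩

theorem sm_empty (L : List (Set (Finset ℕ))) : Sm L ∅ := by
  induction L with
  | nil => exact Subset.rfl
  | cons V L ih => exact ⟨∅, not_hit_empty V, ih.mono sdiff_subset⟩

theorem Sm.append {L L' : List (Set (Finset ℕ))} {E E' : Set ℕ} (h : Sm L E) (h' : Sm L' E') :
    Sm (L ++ L') (E ∪ E') := by
  induction L generalizing E with
  | nil => exact h'.mono (union_subset (h.trans (empty_subset _)) Subset.rfl)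
  | cons V L ih =>
    obtain ⟨f, h1, h2⟩ := h
    refine ⟨f, h1, (ih h2).mono fun k hk => ?_⟩
    rcases hk.1 with h3 | h3
    exacts [Or.inl ⟨h3, hk.2⟩, Or.inr h3]

theorem Sm.map_mono {ι : Type*} {L : List ι} {V W : ι → Set (Finset ℕ)} {E : Set ℕ}
    (h : Sm (L.map V) E) (hW : ∀ i ∈ L, W i ⊆ V i) : Sm (L.map W) E := by
  induction L generalizing E with
  | nil => exact h
  | cons i L ih =>
    obtain ⟨f, h1, h2⟩ := h
    exact ⟨f, fun h3 => h1 (h3.mono (hW i List.mem_cons_self) Subset.rfl),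
      ih h2 fun j hj => hW j (List.mem_cons_of_mem _ hj)⟩

/-- limit along an ultrafilter -/
def ulim (E : ℕ → Set ℕ) : Set ℕ := {k | ∀ᶠ m in hyperfilter ℕ, k ∈ E m}

theorem ev_hyper {Φ : ℕ → Prop} (h : ∀ᶠ m in atTop, Φ m) : ∀ᶠ m in hyperfilter ℕ, Φ m :=
  h.filter_mono Nat.hyperfilter_le_atTop

theorem not_hit_ulim {V : Set (Finset ℕ)} {W : ℕ → Set (Finset ℕ)} {f : ℕ → Set ℕ}
    (h : ∀ v ∈ V, ∀ᶠ m in atTop, v ∈ W m) (hf : ∀ m, ¬ Hit (W m) (f m)) : ¬ Hit V (ulim f) := by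
  rintro ⟨⟨k, hk⟩, v, h1, h2⟩
  have h3 : ∀ᶠ m in hyperfilter ℕ, ∀ j ∈ v, j ∈ f m := (eventually_all_finset v).2 fun j hj => h2 hj
  obtain ⟨m, a1, a2, a3⟩ := (Eventually.and hk (h3.and (ev_hyper (h v h1)))).exists
  exact hf m ⟨⟨k, a1⟩, v, a3, a2⟩

theorem Sm.lim {ι : Type*} {L : List ι} {V : ι → Set (Finset ℕ)} {W : ℕ → ι → Set (Finset ℕ)}
    (h : ∀ i ∈ L, ∀ v ∈ V i, ∀ᶠ m in atTop, v ∈ W m i) {E : ℕ → Set ℕ}
    (hs : ∀ m, Sm (L.map (W m)) (E m)) : Sm (L.map V) (ulim E) := by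
  induction L generalizing E with
  | nil =>
    intro k hk
    obtain ⟨m, hm⟩ := Eventually.exists hk
    exact hs m hm
  | cons i L ih =>
    choose f h1 h2 using hs
    refine ⟨ulim f, not_hit_ulim (h i List.mem_cons_self) h1,
      (ih (fun j hj => h j (List.mem_cons_of_mem _ hj)) h2).mono fun k hk => ?_⟩
    exact Eventually.and hk.1 (Ultrafilter.eventually_not.2 hk.2)

theorem Sm.lim' {L : List (Set (Finset ℕ))} {E : ℕ → Set ℕ} (hs : ∀ m, Sm L (E m)) :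
    Sm L (ulim E) := by
  have := Sm.lim (L := L) (V := id) (W := fun _ => id) (fun _ _ _ h => Eventually.of_forall fun _ => h)
    (E := E) (by simpa using hs)
  simpa using this

theorem sm_cons_iff {V : Set (Finset ℕ)} {L : List (Set (Finset ℕ))} {E : Set ℕ} :
    Sm (V :: L) E ↔ ∀ m, ∃ f : Finset ℕ, ¬ Hit V f ∧ Sm L ((E ∩ Iio m) \ f) := by
  classical
  constructor
  · rintro ⟨f, h1, h2⟩ m
    refine ⟨(Finset.range m).filter (· ∈ f), fun h => h1 (h.mono Subset.rfl fun k hk => ?_),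
      h2.mono fun k hk => ⟨hk.1.1, fun h => hk.2 ?_⟩⟩
    · exact (Finset.mem_filter.1 hk).2
    · exact Finset.mem_filter.2 ⟨Finset.mem_range.2 hk.1.2, h⟩
  · intro h
    refine (Sm.lim' (L := V :: L) (E := fun m => E ∩ Iio m) fun m => ?_).mono fun k hk => ?_
    · obtain ⟨f, h1, h2⟩ := h m
      exact ⟨f, h1, h2⟩
    · exact ev_hyper ((eventually_gt_atTop k).mono fun m hm => ⟨hk, hm⟩)

/-- ideals containing the finite sets -/
structure IsId (J : Set ℕ → Prop) : Prop where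
  mono : ∀ {E E'}, J E → E' ⊆ E → J E'
  union : ∀ {E E'}, J E → J E' → J (E ∪ E')
  fin : ∀ l, J (Iio l)

theorem IsId.empty {J : Set ℕ → Prop} (h : IsId J) : J ∅ := h.mono (h.fin 0) (empty_subset _)

theorem IsId.finite {J : Set ℕ → Prop} (h : IsId J) {E : Set ℕ} (hE : E.Finite) : J E := by
  obtain ⟨l, hl⟩ := hE.bddAbove
  exact h.mono (h.fin (l + 1)) fun k hk => Nat.lt_succ_of_le (hl hk)

theorem IsId.biUnion {J : Set ℕ → Prop} (h : IsId J) {ι : Type*} (F : Finset ι) {E : ι → Set ℕ}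
    (hE : ∀ i ∈ F, J (E i)) : J (⋃ i ∈ F, E i) := by
  classical
  induction F using Finset.induction_on with
  | empty => simpa using h.empty
  | insert a F _ ih =>
    rw [Finset.set_biUnion_insert]
    exact h.union (hE a (Finset.mem_insert_self _ _))
      (ih fun i hi => hE i (Finset.mem_insert_of_mem hi))

theorem IsId.of_diff {J : Set ℕ → Prop} (h : IsId J) {E f : Set ℕ} (h1 : J f) (h2 : J (E \ f)) :
    J E := h.mono (h.union h1 h2) fun k hk => by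
  by_cases hf : k ∈ f
  exacts [Or.inl hf, Or.inr ⟨hk, hf⟩]

theorem Sm.ind {J : Set ℕ → Prop} (hJ : IsId J) {L : List (Set (Finset ℕ))}
    (hL : ∀ V ∈ L, ∀ f, ¬ Hit V f → J f) {E : Set ℕ} (h : Sm L E) : J E := by
  induction L generalizing E with
  | nil => exact hJ.mono hJ.empty h
  | cons V L ih =>
    obtain ⟨f, h1, h2⟩ := h
    exact hJ.of_diff (hL V List.mem_cons_self f h1)
      (ih (fun W hW => hL W (List.mem_cons_of_mem _ hW)) h2)

/-- sets of pairs of finite sets -/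
abbrev Zs : Type := Set (Finset ℕ × Finset ℕ)

/-- first coordinates of the pairs whose second coordinate avoids `a` -/
def vs (a : Set ℕ) (z : Zs) : Set (Finset ℕ) := {v | ∃ s, (v, s) ∈ z ∧ Disjoint (s : Set ℕ) a}

theorem vs_mono {a a' : Set ℕ} {z z' : Zs} (ha : a' ⊆ a) (hz : z ⊆ z') : vs a z ⊆ vs a' z' :=
  fun _ ⟨s, h1, h2⟩ => ⟨s, hz h1, h2.mono_right ha⟩

/-- the ideal generated by the families given by `𝒵` with parameters in `𝒜` -/
def Id (𝒵 : Set Zs) (𝒜 : Set (Set ℕ)) (E : Set ℕ) : Prop :=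
  ∃ L : List Zs, (∀ z ∈ L, z ∈ 𝒵) ∧ ∃ a ∈ 𝒜, ∃ l, Sm (L.map (vs a)) (E \ Iio l)

/-- nonempty directed families -/
structure Drd (𝒜 : Set (Set ℕ)) : Prop where
  ne : 𝒜.Nonempty
  dir : ∀ a ∈ 𝒜, ∀ a' ∈ 𝒜, ∃ c ∈ 𝒜, a ⊆ c ∧ a' ⊆ c

variable {𝒵 𝒵' : Set Zs} {𝒜 : Set (Set ℕ)} {E : Set ℕ}

theorem isId_id (h : Drd 𝒜) : IsId (Id 𝒵 𝒜) where
  mono := fun ⟨L, h1, a, h2, l, h3⟩ hE => ⟨L, h1, a, h2, l, h3.mono (sdiff_subset_sdiff_left hE)⟩
  union := by
    rintro E E' ⟨L, h1, a, h2, l, h3⟩ ⟨L', h1', a', h2', l', h3'⟩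
    obtain ⟨c, c1, c2, c3⟩ := h.dir a h2 a' h2'
    refine ⟨L ++ L', fun z hz => (List.mem_append.1 hz).elim (h1 z) (h1' z), c, c1, max l l', ?_⟩
    rw [List.map_append]
    refine ((h3.map_mono fun z _ => vs_mono c2 Subset.rfl).append
      (h3'.map_mono fun z _ => vs_mono c3 Subset.rfl)).mono fun k hk => ?_
    have h4 : ¬ k < max l l' := hk.2
    rcases hk.1 with h5 | h5
    · exact Or.inl ⟨h5, fun h6 => h4 (lt_max_of_lt_left h6)⟩
    · exact Or.inr ⟨h5, fun h6 => h4 (lt_max_of_lt_right h6)⟩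
  fin l := let ⟨a, ha⟩ := h.ne; ⟨[], by simp, a, ha, l, by simp [Sm]⟩

theorem Id.mono (h : Id 𝒵 𝒜 E) (hZ : 𝒵 ⊆ 𝒵') : Id 𝒵' 𝒜 E :=
  let ⟨L, h1, h2⟩ := h; ⟨L, fun z hz => hZ (h1 z hz), h2⟩

theorem id_of_not_hit {z : Zs} {a : Set ℕ} (hz : z ∈ 𝒵) (ha : a ∈ 𝒜) (h : ¬ Hit (vs a z) E) :
    Id 𝒵 𝒜 E :=
  ⟨[z], by simpa using hz, a, ha, 0, E, h, fun _ hk => hk.2 hk.1.1⟩

theorem Id.ind {J : Set ℕ → Prop} (hJ : IsId J)
    (hZ : ∀ z ∈ 𝒵, ∀ a ∈ 𝒜, ∀ f, ¬ Hit (vs a z) f → J f) (h : Id 𝒵 𝒜 E) : J E := by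
  obtain ⟨L, h1, a, h2, l, h3⟩ := h
  refine hJ.of_diff (hJ.fin l) (h3.ind hJ fun V hV => ?_)
  obtain ⟨z, h4, rfl⟩ := List.mem_map.1 hV
  exact hZ z (h1 z h4) a h2

theorem id_range {ι : Type*} {Z : ι → Zs} : Id (range Z) 𝒜 E ↔
    ∃ L : List ι, ∃ a ∈ 𝒜, ∃ l, Sm (L.map fun i => vs a (Z i)) (E \ Iio l) := by
  constructor
  · rintro ⟨L, h1, a, h2, l, h3⟩
    obtain ⟨M, rfl⟩ : ∃ M : List ι, M.map Z = L := by
      clear h3
      induction L with
      | nil => exact ⟨[], rfl⟩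
      | cons z L ih =>
        obtain ⟨i, rfl⟩ := h1 z List.mem_cons_self
        obtain ⟨M, rfl⟩ := ih fun z hz => h1 z (List.mem_cons_of_mem _ hz)
        exact ⟨i :: M, rfl⟩
    rw [List.map_map] at h3
    exact ⟨M, a, h2, l, h3⟩
  · rintro ⟨L, a, h2, l, h3⟩
    refine ⟨L.map Z, fun z hz => ?_, a, h2, l, by rwa [List.map_map]⟩
    obtain ⟨i, -, rfl⟩ := List.mem_map.1 hz
    exact mem_range_self i

theorem eq_empty_of_not_hit_univ {a f : Set ℕ} (h : ¬ Hit (vs a univ) f) : f = ∅ := by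
  by_contra hf
  exact h ⟨nonempty_iff_ne_empty.2 hf, ∅, ⟨∅, mem_univ _, by simp⟩, by simp⟩

theorem Id.finite_of_empty (h : Id ∅ 𝒜 E) : E.Finite := by
  obtain ⟨L, h1, a, -, l, h3⟩ := h
  obtain rfl : L = [] := List.eq_nil_iff_forall_not_mem.2 fun z hz => h1 z hz
  exact (finite_Iio l).subset fun k hk => by
    by_contra h
    exact h3 ⟨hk, h⟩

/-- membership in the ideal only depends on finitely many generators -/
theorem Id.of_iUnion {ι : Type*} [LinearOrder ι] {S : Set ι} {Z : ι → Set Zs} (hZ : Monotone Z)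
    (h : Id (⋃ i ∈ S, Z i) 𝒜 E) : Id ∅ 𝒜 E ∨ ∃ i ∈ S, Id (Z i) 𝒜 E := by
  obtain ⟨L, h1, h2⟩ := h
  have : (∀ z ∈ L, z ∈ (∅ : Set Zs)) ∨ ∃ i ∈ S, ∀ z ∈ L, z ∈ Z i := by
    clear h2
    induction L with
    | nil => exact Or.inl (by simp)
    | cons z L ih =>
      obtain ⟨i, a1, a2⟩ := mem_iUnion₂.1 (h1 z List.mem_cons_self)
      rcases ih fun z hz => h1 z (List.mem_cons_of_mem _ hz) with h3 | ⟨j, b1, b2⟩
      · refine Or.inr ⟨i, a1, fun y hy => ?_⟩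
        rcases List.mem_cons.1 hy with rfl | hy
        exacts [a2, (h3 y hy).elim]
      · refine Or.inr ⟨max i j, max_rec' (· ∈ S) a1 b1, fun y hy => ?_⟩
        rcases List.mem_cons.1 hy with rfl | hy
        exacts [hZ (le_max_left _ _) a2, hZ (le_max_right _ _) (b2 y hy)]
  rcases this with h3 | ⟨i, h3, h4⟩
  exacts [Or.inl ⟨L, h3, h2⟩, Or.inr ⟨i, h3, L, h4, h2⟩]

end Pool.Agent.P.MP_92f5e0_lc
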