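import Pool.Agent.Lib.Helper87.Codes
import Pool.Agent.P.MP_92f5e0_lc.Small

/-!
Named sets, selection of witnesses and of branches.
-/

open Set Filter Pool.Agent.Lib.Helper87

namespace Pool.Agent.P.MP_92f5e0_lc

variable {P : Type} [Preorder P]

/-- sets whose membership relation obeys the truth lemma -/
def MS {T : Type*} (E : World P → Set T) : Prop := ∀ k, Measurable fun w => k ∈ E w

section
variable {T : Type*} {E E' : World P → Set T}

theorem ms_const (E : Set T) : MS fun _ : World P => E := fun _ => measurable_const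

theorem MS.inter (h : MS E) (h' : MS E') : MS fun w => E w ∩ E' w := fun k => (h k).and (h' k)

theorem MS.union (h : MS E) (h' : MS E') : MS fun w => E w ∪ E' w := fun k => (h k).or (h' k)

theorem MS.compl (h : MS E) : MS fun w => (E w)ᶜ := fun k => (h k).not

theorem MS.diff (h : MS E) (h' : MS E') : MS fun w => E w \ E' w := fun k => (h k).and (h' k).not

theorem ms_biUnion {ι : Type*} (F : Finset ι) {E : ι → World P → Set T} (h : ∀ i, MS (E i)) :
    MS fun w => ⋃ i ∈ F, E i w := fun k => by
  have : Measurable fun w => ∃ i : F, k ∈ E i w := Measurable.exists fun i => h i k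
  simpa using this

theorem MS.subset [Countable T] (h : MS E) (h' : MS E') : Measurable fun w => E w ⊆ E' w :=
  Measurable.forall fun k => (h k).imp (h' k)

theorem MS.eq [Countable T] (h : MS E) (h' : MS E') : Measurable fun w => E w = E' w := by
  simpa only [Set.Subset.antisymm_iff] using (h.subset h').and (h'.subset h)

theorem MS.disjoint [Countable T] (h : MS E) (h' : MS E') :
    Measurable fun w => Disjoint (E w) (E' w) := by
  simp only [Set.disjoint_left]
  exact Measurable.forall fun k => (h k).imp (h' k).not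

theorem MS.nonempty [Countable T] (h : MS E) : Measurable fun w => (E w).Nonempty :=
  Measurable.exists h

end

theorem MS.finite {E : World P → Set ℕ} (h : MS E) : Measurable fun w => (E w).Finite := by
  have : ∀ S : Set ℕ, S.Finite ↔ ∃ l, S ⊆ Iio l := fun S =>
    ⟨fun h => let ⟨l, hl⟩ := h.bddAbove; ⟨l + 1, fun k hk => Nat.lt_succ_of_le (hl hk)⟩,
      fun ⟨l, hl⟩ => (finite_Iio l).subset hl⟩
  simp only [this]
  exact Measurable.exists fun l => h.subset (ms_const _)

theorem MS.vs {a : World P → Set ℕ} {z : World P → Zs} (ha : MS a) (hz : MS z) :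
    MS fun w => vs (a w) (z w) := fun _ =>
  Measurable.exists fun _ => (hz _).and ((ms_const _).disjoint ha)

theorem MS.hit {V : World P → Set (Finset ℕ)} {E : World P → Set ℕ} (hV : MS V) (hE : MS E) :
    Measurable fun w => Hit (V w) (E w) :=
  hE.nonempty.and (Measurable.exists fun v => (hV v).and ((ms_const _).subset hE))

theorem meas_sm {ι : Type*} (L : List ι) {V : ι → World P → Set (Finset ℕ)} (hV : ∀ i, MS (V i))
    {E : World P → Set ℕ} (hE : MS E) : Measurable fun w => Sm (L.map fun i => V i w) (E w) := by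
  induction L generalizing E with
  | nil => exact hE.subset (ms_const ∅)
  | cons i L ih =>
    simp only [List.map_cons, sm_cons_iff]
    exact Measurable.forall fun m => Measurable.exists fun f =>
      ((hV i).hit (ms_const _)).not.and (ih ((hE.inter (ms_const _)).diff (ms_const _)))

/-- the values of a family of names with index in the model -/
def vals {J T : Type} (a : J → World P → T) (w : World P) : Set T := {x | ∃ j, w.In j ∧ a j w = x}

omit [Preorder P] in
theorem mem_vals {J T : Type} {a : J → World P → T} {w : World P} {j : J} (h : w.In j) :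
    a j w ∈ vals a w := ⟨j, h, rfl⟩

theorem meas_id {ι J : Type} [Countable ι] {Z : ι → World P → Zs} (hZ : ∀ i, MS (Z i))
    {a : J → World P → Set ℕ} (ha : ∀ j, MS (a j)) {E : World P → Set ℕ} (hE : MS E) :
    Measurable fun w => Id (range fun i => Z i w) (vals a w) (E w) := by
  have : Measurable fun w : World P => ∃ L : List ι, ∃ j, w.In j ∧ ∃ l,
      Sm (L.map fun i => vs (a j w) (Z i w)) (E w \ Iio l) :=
    Measurable.exists fun L => measurable_ex_in fun j => Measurable.exists fun l =>
      meas_sm L (fun i => (ha j).vs (hZ i)) (hE.diff (ms_const _))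
  refine this.congr_ev (Eventually.of_forall fun w => ?_)
  rw [id_range]
  refine exists_congr fun L => ⟨?_, ?_⟩
  · rintro ⟨_, ⟨j, h1, rfl⟩, h2⟩
    exact ⟨j, h1, h2⟩
  · rintro ⟨j, h1, h2⟩
    exact ⟨_, ⟨j, h1, rfl⟩, h2⟩

/-- selection of a witness from the ground model -/
theorem exists_sel {T : Type} (t0 : T) {Φ : T → World P → Prop} (hΦ : ∀ t, Measurable (Φ t)) :
    ∃ σ : World P → T, (∀ w, (∃ t, w.In t ∧ Φ t w) → w.In (σ w) ∧ Φ (σ w) w) ∧
      ∀ Ψ : T → World P → Prop, (∀ t, Measurable (Ψ t)) → Measurable fun w => Ψ (σ w) w := by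
  classical
  let R : T → World P → Prop := fun t w =>
    Φ t w ∧ ∀ t', w.In t' → WellOrderingRel t' t → ¬ Φ t' w
  have hR : ∀ t, Measurable (R t) := fun t =>
    (hΦ t).and (measurable_all_in fun t' => measurable_const.imp (hΦ t').not)
  have h1 : ∀ w : World P, (∃ t, w.In t ∧ Φ t w) → ∃ t, w.In t ∧ R t w := fun w h => by
    obtain ⟨t, a1, a2⟩ := (IsWellFounded.wf (r := WellOrderingRel)).has_min
      {t | w.In t ∧ Φ t w} h
    exact ⟨t, a1.1, a1.2, fun t' b1 b2 b3 => a2 t' ⟨b1, b3⟩ b2⟩
  have h2 : ∀ (w : World P) t t', w.In t → R t w → w.In t' → R t' w → t = t' :=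
    fun w t t' a1 a2 b1 b2 => by
      rcases trichotomous_of WellOrderingRel t t' with h | h | h
      exacts [absurd a2.1 (b2.2 t a1 h), h, absurd b2.1 (a2.2 t' b1 h)]
  refine ⟨fun w => if h : ∃ t, w.In t ∧ R t w then h.choose else t0, fun w h => ?_,
    fun Ψ hΨ => ?_⟩
  · have := h1 w h
    simp only [this, dif_pos]
    exact ⟨this.choose_spec.1, this.choose_spec.2.1⟩
  · refine ((measurable_ex_in fun t => (hR t).and (hΨ t)).or
      ((measurable_ex_in hR).not.and (hΨ t0))).congr_ev (Eventually.of_forall fun w => ?_)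
    by_cases h : ∃ t, w.In t ∧ R t w
    · simp only [h, dif_pos, not_true, false_and, or_false]
      refine ⟨fun a => ⟨_, h.choose_spec.1, h.choose_spec.2, a⟩, fun ⟨t, a1, a2, a3⟩ => ?_⟩
      rwa [h2 w _ t h.choose_spec.1 h.choose_spec.2 a1 a2]
    · simp only [h, dif_neg, not_false_iff, true_and]
      exact ⟨Or.inr, fun a => a.resolve_left fun ⟨t, a1, a2, _⟩ => h ⟨t, a1, a2⟩⟩

/-- selection of an element of a closed family of sets -/
theorem exists_branch {C : World P → Set ℕ → Prop}
    (h1 : ∀ w f, (∀ n, ∃ g, C w g ∧ ∀ k < n, (k ∈ g ↔ k ∈ f)) → C w f)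
    (h2 : ∀ n (s : Finset ℕ), Measurable fun w => ∃ g, C w g ∧ ∀ k < n, (k ∈ g ↔ k ∈ s)) :
    ∃ f : World P → Set ℕ, MS f ∧ ∀ w, (∃ g, C w g) → C w (f w) := by
  classical
  obtain ⟨X, hX⟩ : ∃ X : ℕ → Finset ℕ → World P → Prop,
      ∀ n s w, X n s w ↔ ∃ g, C w g ∧ ∀ k < n, (k ∈ g ↔ k ∈ s) := ⟨_, fun _ _ _ => Iff.rfl⟩
  simp only [← hX] at h2
  obtain ⟨σ, e0, e1⟩ : ∃ σ : World P → ℕ → Finset ℕ, (∀ w, σ w 0 = ∅) ∧ ∀ w n,
      σ w (n + 1) = if X (n + 1) (σ w n) w then σ w n else insert n (σ w n) :=
    ⟨fun w n => Nat.rec ∅ (fun n s => if X (n + 1) s w then s else insert n s) n,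
      fun _ => rfl, fun _ _ => rfl⟩
  have m1 : ∀ n s, Measurable fun w => σ w n = s := by
    intro n
    induction n with
    | zero =>
      simp only [e0]
      exact fun s => measurable_const
    | succ n ih =>
      intro s
      refine (Measurable.exists fun t => (ih t).and (((h2 (n + 1) t).and (measurable_const
        (a := t = s))).or ((h2 (n + 1) t).not.and (measurable_const (a := insert n t = s))))).congr_ev
        (Eventually.of_forall fun w => ?_)
      rw [e1]
      by_cases h : X (n + 1) (σ w n) w <;> simp [h]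
  have e2 : ∀ w n k, k ∈ σ w n → k < n := by
    intro w n
    induction n with
    | zero => simp [e0]
    | succ n ih =>
      intro k hk
      rw [e1] at hk
      split_ifs at hk
      · exact (ih k hk).trans n.lt_succ_self
      · rcases Finset.mem_insert.1 hk with rfl | hk
        exacts [k.lt_succ_self, (ih k hk).trans n.lt_succ_self]
  have e3 : ∀ w n k, k < n → (k ∈ σ w n ↔ k ∈ σ w (k + 1)) := by
    intro w n
    induction n with
    | zero => simp
    | succ n ih =>
      intro k hk
      rcases Nat.lt_succ_iff_lt_or_eq.1 hk with h | rfl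
      · rw [← ih k h, e1]
        split_ifs
        · rfl
        · simp [h.ne]
      · rfl
  refine ⟨fun w => {k | k ∈ σ w (k + 1)}, fun k => ?_, fun w ⟨g, hg⟩ => h1 _ _ fun n => ?_⟩
  · refine (Measurable.exists fun t => (m1 (k + 1) t).and
      (measurable_const (a := k ∈ t))).congr_ev (Eventually.of_forall fun w => ?_)
    simp
  · have : X n (σ w n) w := by
      induction n with
      | zero => exact (hX _ _ _).2 ⟨g, hg, by simp⟩
      | succ n ih =>
        rw [e1]
        split_ifs with h
        · exact h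
        · obtain ⟨g', a1, a2⟩ := (hX _ _ _).1 ih
          refine (hX _ _ _).2 ⟨g', a1, fun k hk => ?_⟩
          rcases Nat.lt_succ_iff_lt_or_eq.1 hk with h' | rfl
          · simp [h'.ne, a2 k h']
          · simp only [Finset.mem_insert, true_or, iff_true]
            by_contra h3
            refine h ((hX _ _ _).2 ⟨g', a1, fun j hj => ?_⟩)
            rcases Nat.lt_succ_iff_lt_or_eq.1 hj with h' | rfl
            · exact a2 j h'
            · exact ⟨fun a => absurd a h3, fun a => absurd (e2 _ _ _ a) (lt_irrefl _)⟩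
    obtain ⟨g', a1, a2⟩ := (hX _ _ _).1 this
    exact ⟨g', a1, fun k hk => (a2 k hk).trans (e3 w n k hk)⟩

theorem ulim_eq {f : Set ℕ} {g : ℕ → Set ℕ} (h : ∀ n, ∀ k < n, (k ∈ g n ↔ k ∈ f)) :
    ulim g = f := by
  ext k
  have : ∀ᶠ n in hyperfilter ℕ, (k ∈ g n ↔ k ∈ f) :=
    ev_hyper ((eventually_gt_atTop k).mono fun n hn => h n k hn)
  constructor
  · intro hk
    obtain ⟨n, a1, a2⟩ := (Eventually.and hk this).exists
    exact a2.1 a1
  · exact fun hk => this.mono fun n hn => hn.2 hk

/-- the first piece of a cover can be named -/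
theorem exists_piece {ι : Type*} (L : List ι) {V : ι → World P → Set (Finset ℕ)}
    (hV : ∀ i, MS (V i)) (i : ι) {E : World P → Set ℕ} (hE : MS E) :
    ∃ f : World P → Set ℕ, MS f ∧ ∀ w, Sm ((i :: L).map fun i => V i w) (E w) →
      ¬ Hit (V i w) (f w) ∧ Sm (L.map fun i => V i w) (E w \ f w) := by
  classical
  refine exists_branch (C := fun w f => ¬ Hit (V i w) f ∧ Sm (L.map fun i => V i w) (E w \ f))
    (fun w f h => ?_) fun n s => ?_
  · choose g h1 h2 using h
    rw [← ulim_eq h2]
    exact ⟨not_hit_ulim (fun _ h => Eventually.of_forall fun _ => h) fun m => (h1 m).1,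
      (Sm.lim' fun m => (h1 m).2).mono fun k hk =>
        (Ultrafilter.eventually_not.2 hk.2).mono fun m hm => ⟨hk.1, hm⟩⟩
  · refine (Measurable.forall fun m => Measurable.exists fun f : Finset ℕ =>
      ((((hV i).hit (ms_const f)).not.and (meas_sm L hV ((hE.inter (ms_const (Iio m))).diff
        (ms_const f)))).and (measurable_const (a := ∀ k < n, (k ∈ f ↔ k ∈ s))))).congr_ev
      (Eventually.of_forall fun w => ⟨?_, fun h => ?_⟩)
    · rintro ⟨g, ⟨h1, h2⟩, h3⟩ m
      refine ⟨(Finset.range (max m n)).filter (· ∈ g), ⟨fun h => h1 (h.mono Subset.rfl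
        fun k hk => (Finset.mem_filter.1 hk).2), h2.mono fun k hk => ⟨hk.1.1, fun h => hk.2 ?_⟩⟩,
        fun k hk => ?_⟩
      · exact Finset.mem_filter.2 ⟨Finset.mem_range.2 (lt_max_of_lt_left hk.1.2), h⟩
      · simp [hk, h3 k hk]
    · choose f h1 h2 using h
      refine ⟨ulim fun m => f m, ⟨not_hit_ulim (fun _ h => Eventually.of_forall fun _ => h)
        fun m => (h1 m).1, (Sm.lim' fun m => (h1 m).2).mono fun k hk => ?_⟩, fun k hk => ?_⟩
      · filter_upwards [Ultrafilter.eventually_not.2 hk.2, ev_hyper (eventually_gt_atTop k)]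
          with m a1 a2 using ⟨⟨hk.1, a2⟩, a1⟩
      · simp [ulim, h2 _ k hk]

/-- induction over a cover only needs named pieces -/
theorem ev_sm_ind {ι : Type*} (L : List ι) {V : ι → World P → Set (Finset ℕ)}
    (hV : ∀ i, MS (V i)) {J : World P → Set ℕ → Prop} {R : World P → Prop}
    (hJ : ∀ᶠ w in gen P, IsId (J w))
    (hL : ∀ i, ∀ f, MS f → ∀ᶠ w in gen P, R w → ¬ Hit (V i w) (f w) → J w (f w))
    {E : World P → Set ℕ} (hE : MS E) :
    ∀ᶠ w in gen P, R w → Sm (L.map fun i => V i w) (E w) → J w (E w) := by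
  induction L generalizing E with
  | nil =>
    filter_upwards [hJ] with w h1 _ h2 using h1.mono h1.empty h2
  | cons i L ih =>
    obtain ⟨f, h1, h2⟩ := exists_piece L hV i hE
    filter_upwards [hJ, hL i f h1, ih (hE.diff h1)] with w a1 a2 a3 a4 a5
    exact a1.of_diff (a2 a4 (h2 w a5).1) (a3 a4 (h2 w a5).2)

theorem ev_in_finset (T : Type) :
    ∀ᶠ w in gen P, ∀ F : Finset T, w.In F ↔ ∀ x ∈ F, w.In x := by
  filter_upwards [ev_all_finset fun F : Finset T => ev_const (P := P) F,
    ev_all fun F : Finset T => ev_countable_set (P := P) F.countable_toSet] with w h1 h2 F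
  exact ⟨h2 F, h1 F⟩

end Pool.Agent.P.MP_92f5e0_lc
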