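import Pool.Agent.P.MP_92f5e0_lc.Card

/-!
The initial segments of the iteration, the invariant, and the choice of the next iterand.
-/

open Set Filter Cardinal Pool.Agent.Lib.Helper87

namespace Pool.Agent.P.MP_92f5e0_lc

open Cond

/-- the names of the sets of all ultrafilters of the iteration -/
abbrev Data : Type := OO → Om → NN

/-- conditions below `ξ` -/
def Q0 (ξ : OO) : Type := {x : CC × Cd // x.2.Bd ξ}

/-- the order on the conditions below `ξ` -/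
@[reducible] def pre (D : Data) (ξ : OO) : Preorder (Q0 ξ) where
  le x y := x.1.1 ≤ y.1.1 ∧ Le D x.1.1 x.1.2 y.1.2
  le_refl x := ⟨le_rfl, Le.refl _⟩
  le_trans _ _ _ h h' := ⟨h.1.trans h'.1, h.2.trans (h'.2.mono_c h.1)⟩

/-- the iteration below `ξ` -/
def Q (_D : Data) (ξ : OO) : Type := Q0 ξ

instance (D : Data) (ξ : OO) : Preorder (Q D ξ) := pre D ξ

/-- `r` decides that `s` lies above `q` and avoids the sets mentioned in `q` -/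
def Av (q r : Cd) (s : Finset ℕ) : Prop :=
  ∀ k ∈ s, q.len ≤ k ∧ k < r.len ∧ ∀ ζ ∈ q.dom, (ζ, k) ∉ r.A

theorem Av.mono {q q' r r' : Cd} {s : Finset ℕ} (h : Av q' r s) (h1 : Base q' q) (h2 : Base r q')
    (h3 : Base r' r) : Av q r' s := fun k hk =>
  ⟨h1.len.trans (h k hk).1, (h k hk).2.1.trans_le h3.len, fun ζ hζ a => (h k hk).2.2 ζ (h1.dom hζ)
    ((h3.A _ (h2.dom (h1.dom hζ)) (h k hk).2.1).1 a)⟩

theorem base_refl (q : Cd) : Base q q := (Le.refl (D := fun _ _ _ => ∅) (c := ()) q).base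

section generic
variable {P : Type} [Preorder P]

/-- the value of a name -/
def val (fc : P → NN → ℕ → Prop) (ν : NN) (w : World P) : Set ℕ := {k | w.Frc fun q => fc q ν k}

/-- the members of the family coded by `B` -/
def bv (fc : P → NN → ℕ → Prop) (B : Set NN) (ν : NN) (w : World P) : Set ℕ :=
  {k | ν ∈ B ∧ k ∈ val fc ν w}

/-- witnesses for the covering property of the sum of the ultrafilter and the ideal -/
def WU (v : P → CC × Cd) (fc : P → NN → ℕ → Prop) (d : Om → NN)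
    (X : ℕ × ℕ × Finset ℕ × Finset ℕ → P → Prop) (q : P) (E : Finset Om) (n m : ℕ) (r : P) : Prop :=
  ∃ u s, X (n, m, u, s) r ∧ (∀ k ∈ u, (v q).2.len ≤ k ∧ ∀ i ∈ E, fc r (d i) k) ∧
    Av (v q).2 (v r).2 s

/-- the properties of the names `d` of the next ultrafilter -/
structure Stage' (v : P → CC × Cd) (fc : P → NN → ℕ → Prop) (B : Set NN) (d : Om → NN) :
    Prop where
  s1 : ∀ q (E : Finset Om) l, ∃ r ≤ q, ∃ k, l ≤ k ∧ ∀ i ∈ E, fc r (d i) k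
  s2 : ∀ X : ℕ × ℕ × Finset ℕ × Finset ℕ → P → Prop, (∀ y p q, q ≤ p → X y p → X y q) → ∀ c,
    (∀ q, (v q).1 ≤ c → ∀ E n, ∃ r ≤ q, ∃ m, WU v fc d X q E n m r) →
    ∃ c' ≤ c, ∃ h : ℕ → ℕ, ∀ q, (v q).1 ≤ c' → ∀ E n0, ∃ r ≤ q, ∃ n, n0 ≤ n ∧ ∃ m, m ≤ h n ∧
      WU v fc d X q E n m r
  s3 : ∀ᶠ w in gen P, ∀ ν, w.In ν → ∃ i, w.In i ∧ (Disjoint (val fc (d i) w) (bv fc B ν w) ∨
    (¬ OK (bv fc B) w ∧ val fc (d i) w ⊆ bv fc B ν w))

theorem exists_name {S Ty : Type} [Preorder S] [Countable Ty] (F : Frame P S OO Ty) (cp : S → CC)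
    (hcp : Monotone cp) (fin : P → Cd) (R : P → Cd → Prop)
    (hle : ∀ q a, q ≤ a ↔ F.pure q ≤ F.pure a ∧ R q (fin a))
    (hR : ∀ q q' p, q' ≤ q → R q p → R q' p) {Y : World P → Set ℕ} (hY : MS Y) (s : S) :
    ∃ s' ≤ s, ∃ ν : NN, (∀ k, (ν k).Countable) ∧
      (∀ k, ∀ y ∈ ν k, y.1 = cp s' ∧ ∃ a, s' ≤ F.pure a ∧ fin a = y.2) ∧
      ∀ᶠ w in gen P, F.Has w s' →
        val (fun q ν k => ∃ y ∈ ν k, cp (F.pure q) ≤ y.1 ∧ R q y.2) ν w = Y w := by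
  obtain ⟨s', h1, A, h2, h3, h4⟩ := F.fusion_ev
    (fun k q => Sem q (fun w => k ∈ Y w) ∨ Sem q fun w => ¬ k ∈ Y w) s fun k r _ => (hY k).decides r
  refine ⟨s', h1, fun k => (fun a => (cp s', fin a)) '' {a ∈ A | Sem a fun w => k ∈ Y w},
    fun k => (h2.mono (sep_subset _ _)).image _, ?_, ?_⟩
  · rintro k _ ⟨a, ha, rfl⟩
    exact ⟨rfl, a, h3 a ha.1, rfl⟩
  filter_upwards [h4, ev_generic, ev_call fun k => ev_sem fun w => k ∈ Y w,
    ev_call fun k => ev_sem fun w => ¬ k ∈ Y w] with w a1 a2 a3 a4 a5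
  obtain ⟨q0, a6, a7⟩ := id a5
  ext k
  constructor
  · rintro ⟨q, b1, _, ⟨a, b2, rfl⟩, -, b3⟩
    obtain ⟨r, c1, c2, c3⟩ := a2.dir q b1 q0 a6
    exact a3 k a ⟨r, c1, (hle _ _).2 ⟨(F.mono c3).trans (a7.trans (h3 a b2.1)), hR _ _ _ c2 b3⟩⟩
      b2.2
  · intro hk
    obtain ⟨a, b1, b2, q, b3, b4⟩ := a1 a5 k
    obtain ⟨r, c1, c2, c3⟩ := a2.dir q b3 q0 a6
    exact ⟨r, c1, _, ⟨a, ⟨b1, b2.resolve_right fun h => a4 k a ⟨q, b3, b4⟩ h hk⟩, rfl⟩,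
      hcp ((F.mono c3).trans a7), ((hle _ _).1 (c2.trans b4)).2⟩

end generic

/-- forcing membership in the iteration below `ξ` -/
def fcQ (D : Data) (ξ : OO) (q : Q D ξ) (ν : NN) (k : ℕ) : Prop := Fc D q.1.1 q.1.2 ν k

/-- the properties of the names `d` of the ultrafilter used at `ξ` -/
def Stage (D : Data) (ξ : OO) (B : Set NN) (d : Om → NN) : Prop :=
  Stage' (P := Q D ξ) (fun q => q.1) (fcQ D ξ) B d

theorem stage_congr {D D' : Data} {ξ : OO} (h : ∀ ζ < ξ, D ζ = D' ζ) : Stage D ξ = Stage D' ξ := by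
  have h' : ∀ ζ < ξ, D' ζ = D ζ := fun ζ hζ => (h ζ hζ).symm
  have e1 : pre D ξ = pre D' ξ := Preorder.ext fun x y =>
    and_congr_right fun _ => ⟨fun a => a.congr h x.2, fun a => a.congr h' x.2⟩
  have e2 : (fun (q : Q0 ξ) ν k => Fc D q.1.1 q.1.2 ν k) = fun q ν k => Fc D' q.1.1 q.1.2 ν k := by
    funext q ν k
    exact propext ⟨fun a => a.congr h q.2, fun a => a.congr h' q.2⟩
  change @Stage' (Q0 ξ) (pre D ξ) (fun q => q.1) (fun q ν k => Fc D q.1.1 q.1.2 ν k) =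
    @Stage' (Q0 ξ) (pre D' ξ) (fun q => q.1) (fun q ν k => Fc D' q.1.1 q.1.2 ν k)
  rw [e1, e2]

/-- the invariant: the ideal of the generic family has the covering property -/
def Inv (D : Data) (ξ : OO) : Prop :=
  ∀ X : ℕ × ℕ × Finset ℕ → Q D ξ → Prop, (∀ y p q, q ≤ p → X y p → X y q) → ∀ c,
    (∀ q : Q D ξ, q.1.1 ≤ c → ∀ n, ∃ r ≤ q, ∃ m s, X (n, m, s) r ∧ Av q.1.2 r.1.2 s) →
    ∃ c' ≤ c, ∃ h : ℕ → ℕ, ∀ q : Q D ξ, q.1.1 ≤ c' → ∀ n0, ∃ r ≤ q, ∃ n, n0 ≤ n ∧ ∃ m, m ≤ h n ∧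
      ∃ s, X (n, m, s) r ∧ Av q.1.2 r.1.2 s

/-- the stem at a coordinate -/
noncomputable def stem (S : Finset (OO × ℕ)) (ζ : OO) : Finset ℕ := (S.filter (·.1 = ζ)).image Prod.snd

@[simp] theorem mem_stem {S : Finset (OO × ℕ)} {ζ : OO} {k : ℕ} : k ∈ stem S ζ ↔ (ζ, k) ∈ S := by
  simp [stem]

theorem join_le_of_stem {D : Data} {c : CC} {q r : Cd}
    (h : ∀ ζ ∈ q.dom, ζ ∈ r.dom → (stem q.U ζ, stem q.A ζ) = (stem r.U ζ, stem r.A ζ)) :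
    Le D c (q.join r) q ∧ Le D c (q.join r) r := by
  simp only [Prod.mk.injEq, Finset.ext_iff, mem_stem] at h
  refine ⟨join_le (fun x h1 h2 => ((h _ h2 (r.hU x h1).1).1 _).2 h1)
    fun x h1 h2 => ((h _ h2 (r.hA x h1).1).2 _).2 h1, ?_⟩
  rw [join_comm]
  exact join_le (fun x h1 h2 => ((h _ (q.hU x h1).1 h2).1 _).1 h1)
    fun x h1 h2 => ((h _ (q.hA x h1).1 h2).2 _).1 h1

variable {D : Data} {ξ : OO}

variable (D ξ) in
/-- the iteration below `ξ` has a closed part and a finite part -/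
noncomputable def frQ : Frame (Q D ξ) CC OO (Finset ℕ × Finset ℕ) where
  pure q := q.1.1
  supp q := q.1.2.dom
  ty q ζ := (stem q.1.2.U ζ, stem q.1.2.A ζ)
  mono h := h.1
  compat q r s h1 h2 h3 := ⟨⟨(s, q.1.2.join r.1.2), q.2.join r.2⟩, ⟨h1, (join_le_of_stem h3).1⟩,
    ⟨h2, (join_le_of_stem h3).2⟩, le_rfl⟩
  closed := closed_CC

theorem fcQ_mono {ν : NN} {k : ℕ} (p q : Q D ξ) (h : q ≤ p) (h' : fcQ D ξ p ν k) : fcQ D ξ q ν k :=
  Fc.mono h' h.1 h.2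

theorem ms_val (ν : NN) : MS (val (fcQ D ξ) ν) := fun _ => measurable_frc fcQ_mono

/-- the finite unions of members of the generic family -/
def aa (D : Data) (ξ : OO) (j : Finset OO × ℕ) (w : World (Q D ξ)) : Set ℕ :=
  {k | k < j.2 ∨ ∃ ζ ∈ j.1, w.Frc fun q => (ζ, k) ∈ q.1.2.A}

theorem ms_aa (j : Finset OO × ℕ) : MS (aa D ξ j) := fun k => by
  have : Measurable fun w : World (Q D ξ) => ∃ ζ : j.1, w.Frc fun q => (ζ.1, k) ∈ q.1.2.A :=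
    Measurable.exists fun ζ => measurable_frc fun p q h h' => h.2.base.A_sub h'
  exact measurable_const.or (by simpa using this)

theorem drd_aa : ∀ᶠ w in gen (Q D ξ), Drd (vals (aa D ξ) w) := by
  filter_upwards [ev_const ((∅, 0) : Finset OO × ℕ),
    ev_fun₂ fun j j' : Finset OO × ℕ => (j.1 ∪ j'.1, max j.2 j'.2)] with w h1 h2
  refine ⟨⟨_, mem_vals h1⟩, ?_⟩
  rintro _ ⟨j, a1, rfl⟩ _ ⟨j', a2, rfl⟩
  exact ⟨_, mem_vals (h2 j a1 j' a2), fun k hk => hk.imp lt_max_of_lt_left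
    fun ⟨ζ, b1, b2⟩ => ⟨ζ, Finset.mem_union_left _ b1, b2⟩, fun k hk => hk.imp lt_max_of_lt_right
    fun ⟨ζ, b1, b2⟩ => ⟨ζ, Finset.mem_union_right _ b1, b2⟩⟩

theorem exists_big (q : Q D ξ) (F : Finset OO) (l : ℕ) :
    ∃ r ≤ q, (∀ ζ ∈ F, ζ < ξ → ζ ∈ r.1.2.dom) ∧ l ≤ r.1.2.len :=
  ⟨⟨(q.1.1, q.1.2.join (zero (F.filter (· < ξ)) l)), q.2.join fun _ h => (Finset.mem_filter.1 h).2⟩,
    ⟨le_rfl, join_zero_le _ _⟩, fun _ h1 h2 => join_dom.2 (Or.inr (Finset.mem_filter.2 ⟨h1, h2⟩)),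
    le_max_right _ _⟩

theorem ev_big : ∀ᶠ w in gen (Q D ξ), ∀ j : Finset OO × ℕ, w.In j → ∀ q ∈ w.G, ∃ r ∈ w.G, r ≤ q ∧
    (∀ ζ ∈ j.1, ζ < ξ → ζ ∈ r.1.2.dom) ∧ j.2 ≤ r.1.2.len :=
  ev_all fun j => (ev_dense _).mono fun _ h q hq => h q hq fun r _ => exists_big r j.1 j.2

theorem ev_av : ∀ᶠ w in gen (Q D ξ), ∀ q ∈ w.G, w.In (q.1.2.dom, q.1.2.len) ∧ ∀ s : Finset ℕ,
    Disjoint (s : Set ℕ) (aa D ξ (q.1.2.dom, q.1.2.len) w) →
      ∃ r ∈ w.G, r ≤ q ∧ Av q.1.2 r.1.2 s := by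
  filter_upwards [ev_big, ev_call fun l : ℕ => ev_const ((∅, l) : Finset OO × ℕ), ev_generic,
    ev_fun fun q : Q D ξ => (q.1.2.dom, q.1.2.len)] with w h1 h2 h3 h4 q hq
  refine ⟨h4 q (h3.mem q hq), fun s hs => ?_⟩
  obtain ⟨r, a1, a2, -, a3⟩ := h1 _ (h2 (s.sup id + 1)) q hq
  refine ⟨r, a1, a2, fun k hk => ?_⟩
  have a4 := Set.disjoint_left.1 hs hk
  simp only [aa, mem_ofPred_eq, not_or, not_lt, not_exists, not_and] at a4
  exact ⟨a4.1, (Nat.lt_succ_of_le (Finset.le_sup (f := id) hk)).trans_le a3,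
    fun ζ b1 b2 => a4.2 ζ b1 ⟨r, a1, b2⟩⟩

theorem disjoint_aa {w : World (Q D ξ)} (hw : w.Generic) {q r : Q D ξ} (hr : r ∈ w.G) (h : r ≤ q)
    {s : Finset ℕ} (hs : Av q.1.2 r.1.2 s) {j : Finset OO × ℕ}
    (h1 : ∀ ζ ∈ j.1, ζ < ξ → ζ ∈ q.1.2.dom) (h2 : j.2 ≤ q.1.2.len) :
    Disjoint (s : Set ℕ) (aa D ξ j w) := by
  refine Set.disjoint_left.2 fun k hk => ?_
  rintro (a | ⟨ζ, a1, t, a2, a3⟩)
  · exact (a.trans_le h2).not_ge (hs k hk).1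
  · obtain ⟨t', -, b1, b2⟩ := hw.dir r hr t a2
    have b3 := h1 ζ a1 (t.2 ζ (t.1.2.hA _ a3).1)
    exact (hs k hk).2.2 ζ b3 ((b1.2.base.A _ (h.2.base.dom b3) (hs k hk).2.1).1 (b2.2.base.A_sub a3))

theorem Inv.men (H : Inv D ξ) : Men (aa D ξ) := fun Y hY hL => (frQ D ξ).ev_of_pure fun c => by
  obtain ⟨c', h1, h, h2⟩ := H (fun y q => Sem q fun w => y ∈ Y w) (fun _ _ _ h h' => h'.mono h) c
    fun q _ n => by
      obtain ⟨w, a1, a2, a3, a4, a5⟩ := exists_world q (hL.and (ev_av.and (ev_generic.and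
        (ev_call fun y => ev_forced (hY y)))))
      obtain ⟨m, s, b1, b2⟩ := a2 n _ (mem_vals (a3 q a1).1)
      obtain ⟨r, b3, b4, b5⟩ := (a3 q a1).2 s b2
      obtain ⟨r', b6, b7⟩ := a5 _ b1
      obtain ⟨t, -, c1, c2⟩ := a4.dir r b3 r' b6
      exact ⟨t, c1.trans b4, m, s, b7.mono c2, b5.mono (base_refl _) b4.2.base c1.2.base⟩
  refine ⟨c', h1, ?_⟩
  filter_upwards [ev_const h, ev_big, ev_generic, ev_call fun y => ev_sem fun w => y ∈ Y w,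
    ev_all fun q : Q D ξ => ev_call fun n0 => ev_dense fun r : Q D ξ => ∃ n, n0 ≤ n ∧ ∃ m,
      m ≤ h n ∧ ∃ s, (Sem r fun w => (n, m, s) ∈ Y w) ∧ Av q.1.2 r.1.2 s]
    with w a1 a2 a3 a4 a5 ⟨q0, a6, a7⟩
  refine ⟨h, a1, forall_vals.2 fun j hj n0 => ?_⟩
  obtain ⟨q, b1, b2, b3, b4⟩ := a2 j hj q0 a6
  obtain ⟨r, c1, c2, n, c3, m, c4, s, c5, c6⟩ := a5 q (a3.mem q b1) n0 q b1 fun q' hq' => by
    obtain ⟨r, c1, n, c2, m, c3, s, c4, c5⟩ := h2 q' (hq'.1.trans (b2.1.trans a7)) n0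
    exact ⟨r, c1, n, c2, m, c3, s, c4, c5.mono hq'.2.base c1.2.base (base_refl _)⟩
  exact ⟨n, c3, m, c4, s, a4 _ r (w.has_of_mem c1) c5, disjoint_aa a3 c1 c2 c6 b3 b4⟩

/-- the generic enumeration of the sets of natural numbers -/
def XX (D : Data) (ξ : OO) (η : Om) (w : World (Q D ξ)) : Set ℕ :=
  {k | w.Frc fun q => η < q.1.1.δ ∧ fcQ D ξ q (en ξ (q.1.1.fn η)) k}

theorem ms_XX (η : Om) : MS (XX D ξ η) := fun _ => measurable_frc fun p q h h' =>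
  ⟨h'.1.trans_le h.1.1, by rw [h.1.2 η h'.1]; exact fcQ_mono p q h h'.2⟩

theorem enum_XX (Y : World (Q D ξ) → Set ℕ) (hY : MS Y) :
    ∀ᶠ w in gen (Q D ξ), ∃ η, w.In η ∧ XX D ξ η w = Y w := (frQ D ξ).ev_of_pure fun c => by
  obtain ⟨c', h1, ν, h2, h3, h4⟩ := exists_name (frQ D ξ) id monotone_id (fun q => q.1.2)
    (fun q p => Le D q.1.1 q.1.2 p) (fun _ _ => Iff.rfl)
    (fun _ _ _ h h' => h.2.trans (h'.mono_c h.1)) hY c
  obtain ⟨x, rfl⟩ := en_surj (ξ := ξ) h2 fun k y hy => by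
    obtain ⟨-, a, -, h⟩ := h3 k y hy
    exact h ▸ a.2
  obtain ⟨c'', a1, a2, a3⟩ := c'.exists_ext x
  refine ⟨c'', a1.trans h1, ?_⟩
  filter_upwards [h4, ev_const c'.δ, ev_generic] with w b1 b2 b3 b4
  refine ⟨_, b2, Eq.trans ?_ (b1 (b4.mono _ a1))⟩
  obtain ⟨q0, b5, b6⟩ := b4
  ext k
  constructor
  · rintro ⟨q, c1, c2, c3⟩
    obtain ⟨r, -, d1, d2⟩ := b3.dir q c1 q0 b5
    rw [← d1.1.2 _ c2, (d2.1.trans b6).2 _ a2, a3] at c3
    exact ⟨q, c1, c3⟩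
  · rintro ⟨q, c1, c2⟩
    obtain ⟨r, d0, d1, d2⟩ := b3.dir q c1 q0 b5
    refine ⟨r, d0, a2.trans_le (d2.1.trans b6).1, ?_⟩
    rw [(d2.1.trans b6).2 _ a2, a3]
    exact fcQ_mono _ _ d1 c2

theorem ev_wu {d : Om → NN} : ∀ᶠ w in gen (Q D ξ), ∀ X : ℕ × ℕ × Finset ℕ × Finset ℕ → Q D ξ → Prop,
    (∀ y p q, q ≤ p → X y p → X y q) → ∀ q ∈ w.G, ∀ E n m (u s : Finset ℕ), w.Frc (X (n, m, u, s)) →
      (u : Set ℕ) ⊆ uu (fun i => val (fcQ D ξ) (d i)) E q.1.2.len w →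
      Disjoint (s : Set ℕ) (aa D ξ (q.1.2.dom, q.1.2.len) w) →
      ∃ r ≤ q, WU (fun q => q.1) (fcQ D ξ) d X q E n m r := by
  filter_upwards [ev_av, ev_generic] with w a1 a2 X hX q hq E n m u s ⟨r1, b1, b2⟩ b3 b4
  obtain ⟨r2, c1, c2, c3⟩ := (a1 q hq).2 s b4
  obtain ⟨r3, d1, d2, d3⟩ := a2.dir r1 b1 r2 c1
  obtain ⟨r, -, e1, e2⟩ := a2.dir_finset d1 (u ×ˢ E) (fun x r => fcQ D ξ r (d x.2) x.1)
    (fun _ => fcQ_mono) fun x hx =>
      (b3 (Finset.mem_product.1 hx).1).2 _ (Finset.mem_product.1 hx).2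
  exact ⟨r, e1.trans (d3.trans c2), u, s, hX _ _ _ (e1.trans d2) b2, fun k hk =>
    ⟨(b3 hk).1, fun i hi => e2 (k, i) (Finset.mem_product.2 ⟨hk, hi⟩)⟩,
    c3.mono (base_refl _) c2.2.base (e1.trans d3).2.base⟩

theorem Inv.exists_stage (H : Inv D ξ) (B : Set NN) : ∃ d, Stage D ξ B d := by
  have hb : ∀ ν, MS (bv (fcQ D ξ) B ν) := fun ν k => measurable_const.and (ms_val ν k)
  obtain ⟨u, h1, h2, h3, h4⟩ := exists_ultra countable_Iic_Om (frQ D ξ).dir ms_aa H.men drd_aa hb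
    ms_XX enum_XX
  obtain ⟨d, hd⟩ : ∃ d : Om → NN, ∀ (q : Q D ξ) i k, fcQ D ξ q (d i) k ↔ Sem q fun w => k ∈ u i w :=
    ⟨fun i k => {y | ∃ h : y.2.Bd ξ, Sem (P := Q D ξ) ⟨y, h⟩ fun w => k ∈ u i w}, fun q i k =>
      ⟨fun ⟨_, ⟨_, a1⟩, a2⟩ => a1.mono a2, fun a => ⟨q.1, ⟨q.2, a⟩, le_rfl, Le.refl _⟩⟩⟩
  have e : ∀ᶠ w in gen (Q D ξ), ∀ i, w.In i → val (fcQ D ξ) (d i) w = u i w := ev_all fun i => by
    filter_upwards [ev_call fun k => ev_forced (h1 i k), ev_call fun k => ev_sem fun w => k ∈ u i w]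
      with w a1 a2
    ext k
    simp only [val, hd]
    exact ⟨fun ⟨q, b1, b2⟩ => a2 k q (w.has_of_mem b1) b2, a1 k⟩
  have e' : ∀ᶠ w in gen (Q D ξ), ∀ E, w.In E → ∀ l,
      uu (fun i => val (fcQ D ξ) (d i)) E l w = uu u E l w := by
    filter_upwards [e, ev_in_finset Om] with w a1 a2 E a3 l
    ext k
    exact and_congr_right fun _ => forall₂_congr fun i hi => by
      simp only [a1 i ((a2 E).1 a3 i hi)]
  refine ⟨d, fun q E l => ?_, fun X hX c hL => ?_, ?_⟩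
  · obtain ⟨w, a1, a2, a3, a4, a5⟩ := exists_world q (h2.and (e'.and ((ev_const E).and ev_generic)))
    obtain ⟨k, b1, b2⟩ := a3 E a4 l ▸ a2 E a4 l
    obtain ⟨r, -, b3, b4⟩ := a5.dir_finset a1 E (fun i r => fcQ D ξ r (d i) k) (fun _ => fcQ_mono) b2
    exact ⟨r, b3, k, b1, b4⟩
  · have m1 : MS fun w : World (Q D ξ) => {y | w.Frc (X y)} := fun y => measurable_frc (hX y)
    have m2 : ∀ E l, MS (uu u E l) := fun E l k => by
      have : Measurable fun w => ∀ i : E, k ∈ u i w := Measurable.forall fun i => h1 i k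
      exact measurable_const.and (by simpa using this)
    obtain ⟨c', a1, h, a2⟩ := (frQ D ξ).dir_pure (ι := Unit)
      (Φ := fun _ h w => WorksU u (aa D ξ) {y | w.Frc (X y)} h w) (fun _ h =>
        measurable_all_in fun E => Measurable.forall fun l => measurable_all_in fun j =>
          Measurable.forall fun n0 => Measurable.exists fun n => measurable_const.and
            (Measurable.exists fun m => measurable_const.and (Measurable.exists fun v =>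
              Measurable.exists fun s => (m1 _).and (((ms_const _).subset (m2 E l)).and
                ((ms_const _).disjoint (ms_aa j))))))
      (fun _ h h' w hh H E a1 l j a2 n0 => by
        obtain ⟨N, hN⟩ := eventually_atTop.1 hh
        obtain ⟨n, b1, m, b2, b3⟩ := H E a1 l j a2 (max n0 N)
        exact ⟨n, le_of_max_le_left b1, m, b2.trans (hN n (le_of_max_le_right b1)), b3⟩)
      (s := c) fun _ => by
        filter_upwards [h4 _ m1, e', ev_big, ev_generic, ev_fun₂ fun (j : Finset OO × ℕ) (l : ℕ) =>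
          (j.1, max j.2 l), ev_ctype ℕ, ev_all fun q : Q D ξ => ev_all fun E =>
            ev_call fun n => ev_dense fun r => ∃ m, WU (fun q => q.1) (fcQ D ξ) d X q E n m r]
          with w a1 a2 a3 a4 a5 a6 a7 ⟨q0, a8, a9⟩
        refine a1 fun n E b1 l j b2 => ?_
        obtain ⟨q, b3, b4, b5, b6⟩ := a3 _ (a5 j b2 l (a6 l)) q0 a8
        obtain ⟨r, c1, c2, m, v, s, c3, c4, c5⟩ := a7 q (a4.mem q b3) E b1 n q b3 fun q' hq' => by
          obtain ⟨r, c1, m, v, s, c2, c3, c4⟩ := hL q' (hq'.1.trans (b4.1.trans a9)) E n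
          exact ⟨r, c1, m, v, s, c2, fun k hk => ⟨hq'.2.base.len.trans (c3 k hk).1, (c3 k hk).2⟩,
            c4.mono hq'.2.base c1.2.base (base_refl _)⟩
        refine ⟨m, v, s, ⟨r, c1, c3⟩, ?_, disjoint_aa a4 c1 c2 c5 b5 (le_of_max_le_left b6)⟩
        rw [← a2 E b1]
        exact fun k hk => ⟨(le_of_max_le_right b6).trans (c4 k hk).1,
          fun i hi => ⟨r, c1, (c4 k hk).2 i hi⟩⟩
    refine ⟨c', a1, h, fun q hq E n0 => ?_⟩
    obtain ⟨w, b1, b2, b3, b4, b5, b6⟩ := exists_world q (a2.and (e'.and ((ev_const E).and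
      (ev_av.and (ev_wu (d := d))))))
    obtain ⟨n, c1, m, c2, v, s, c3, c4, c5⟩ := b2 ⟨q, b1, hq⟩ () E b4 q.1.2.len _ (b5 q b1).1 n0
    obtain ⟨r, c6, c7⟩ := b6 X hX q b1 E n m v s c3 (b3 E b4 _ ▸ c4) c5
    exact ⟨r, c6, n, c1, m, c2, c7⟩
  · filter_upwards [h3, e] with w a1 a2 ν a3
    obtain ⟨i, a4, a5⟩ := a1 ν a3
    exact ⟨i, a4, a2 i a4 ▸ a5⟩

end Pool.Agent.P.MP_92f5e0_lc
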