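import Pool.Agent.P.MP_92f5e0_lc.Sel

/-!
One step in the construction of the ultrafilter.
-/

open Set Filter Pool.Agent.Lib.Helper87

namespace Pool.Agent.P.MP_92f5e0_lc

variable {P : Type} [Preorder P] {J J' : Type}

variable (P) in
/-- countably many functions of the ground model are bounded by one -/
def Dir : Prop := ∀ (ι : Type) [Countable ι] (Φ : ι → (ℕ → ℕ) → World P → Prop),
  (∀ k h, Measurable (Φ k h)) →
  (∀ k h h' w, (∀ᶠ n in atTop, h n ≤ h' n) → Φ k h w → Φ k h' w) →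
  (∀ k, ∀ᶠ w in gen P, ∃ h, w.In h ∧ Φ k h w) → ∀ᶠ w in gen P, ∃ H, w.In H ∧ ∀ k, Φ k H w

/-- each level of `Y` has a member avoiding any given parameter -/
def LargeA (𝒜 : Set (Set ℕ)) (Y : Set (ℕ × ℕ × Finset ℕ)) : Prop :=
  ∀ n, ∀ a ∈ 𝒜, ∃ m s, (n, m, s) ∈ Y ∧ Disjoint (s : Set ℕ) a

/-- infinitely many levels have such a member below `h` -/
def WorksA (𝒜 : Set (Set ℕ)) (Y : Set (ℕ × ℕ × Finset ℕ)) (h : ℕ → ℕ) : Prop :=
  ∀ a ∈ 𝒜, ∀ n0, ∃ n, n0 ≤ n ∧ ∃ m, m ≤ h n ∧ ∃ s, (n, m, s) ∈ Y ∧ Disjoint (s : Set ℕ) a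

theorem WorksA.mono {𝒜 : Set (Set ℕ)} {Y : Set (ℕ × ℕ × Finset ℕ)} {h h' : ℕ → ℕ}
    (H : WorksA 𝒜 Y h) (hh : ∀ᶠ n in atTop, h n ≤ h' n) : WorksA 𝒜 Y h' := by
  obtain ⟨N, hN⟩ := eventually_atTop.1 hh
  intro a ha n0
  obtain ⟨n, h1, m, h2, h3⟩ := H a ha (max n0 N)
  exact ⟨n, le_of_max_le_left h1, m, h2.trans (hN n (le_of_max_le_right h1)), h3⟩

omit [Preorder P] in
theorem forall_vals {T : Type} {a : J → World P → T} {w : World P} {Φ : T → Prop} :
    (∀ x ∈ vals a w, Φ x) ↔ ∀ j, w.In j → Φ (a j w) :=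
  ⟨fun h _ hj => h _ (mem_vals hj), fun h _ ⟨j, h1, h2⟩ => h2 ▸ h j h1⟩

theorem meas_largeA {a : J → World P → Set ℕ} (ha : ∀ j, MS (a j))
    {Y : World P → Set (ℕ × ℕ × Finset ℕ)} (hY : MS Y) :
    Measurable fun w => LargeA (vals a w) (Y w) := by
  simp only [LargeA, forall_vals]
  exact Measurable.forall fun n => measurable_all_in fun j => Measurable.exists fun m =>
    Measurable.exists fun s => (hY _).and ((ms_const _).disjoint (ha j))

theorem meas_worksA {a : J → World P → Set ℕ} (ha : ∀ j, MS (a j))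
    {Y : World P → Set (ℕ × ℕ × Finset ℕ)} (hY : MS Y) (h : ℕ → ℕ) :
    Measurable fun w => WorksA (vals a w) (Y w) h := by
  simp only [WorksA, forall_vals]
  exact measurable_all_in fun j => Measurable.forall fun n0 => Measurable.exists fun n =>
    measurable_const.and (Measurable.exists fun m => measurable_const.and
      (Measurable.exists fun s => (hY _).and ((ms_const _).disjoint (ha j))))

/-- the covering property of the family of parameters with respect to the ground model -/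
def Men (a : J → World P → Set ℕ) : Prop :=
  ∀ Y : World P → Set (ℕ × ℕ × Finset ℕ), MS Y → (∀ᶠ w in gen P, LargeA (vals a w) (Y w)) →
    ∀ᶠ w in gen P, ∃ h, w.In h ∧ WorksA (vals a w) (Y w) h

theorem Men.cond {a : J → World P → Set ℕ} (H : Men a) (ha : ∀ j, MS (a j))
    {Y : World P → Set (ℕ × ℕ × Finset ℕ)} (hY : MS Y) : ∀ᶠ w in gen P, ∃ h, w.In h ∧
      (LargeA (vals a w) (Y w) → WorksA (vals a w) (Y w) h) := by
  filter_upwards [H (fun w => {x | LargeA (vals a w) (Y w) → x ∈ Y w})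
    (fun x => (meas_largeA ha hY).imp (hY x)) (Eventually.of_forall fun w n c hc => by
      by_cases h : LargeA (vals a w) (Y w)
      · obtain ⟨m, s, h1, h2⟩ := h n c hc
        exact ⟨m, s, fun _ => h1, h2⟩
      · exact ⟨0, ∅, fun h' => absurd h' h, by simp⟩)] with w ⟨h, h1, h2⟩
  refine ⟨h, h1, fun h3 c hc n0 => ?_⟩
  obtain ⟨n, a1, m, a2, s, a3, a4⟩ := h2 c hc n0
  exact ⟨n, a1, m, a2, s, a3 h3, a4⟩

/-- tasks -/
abbrev Tk : Type := Set (ℕ × ℕ × Finset ℕ × Finset ℕ)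

/-- a level of a task -/
def lev (x : Tk) (n : ℕ) : Zs := {y | ∃ m, (n, m, y) ∈ x}

/-- the part of a task below `h` and above level `n0` -/
def cut (x : Tk) (h : ℕ → ℕ) (n0 : ℕ) : Zs := {y | ∃ n, n0 ≤ n ∧ ∃ m, m ≤ h n ∧ (n, m, y) ∈ x}

theorem MS.lev {x : World P → Tk} (hx : MS x) (n : ℕ) : MS fun w => lev (x w) n :=
  fun _ => Measurable.exists fun _ => hx _

theorem MS.cut {x : World P → Tk} (hx : MS x) (h : ℕ → ℕ) (n : ℕ) : MS fun w => cut (x w) h n :=
  fun _ => Measurable.exists fun _ => measurable_const.and (Measurable.exists fun _ =>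
    measurable_const.and (hx _))

/-- the auxiliary family used to keep a set positive -/
def aux {ι : Type} (Z : ι → Zs) (x : Tk) (L : List (ι ⊕ ℕ)) (E : Set ℕ) :
    Set (ℕ × ℕ × Finset ℕ) :=
  {y | ¬ Sm (L.map fun i => vs (y.2.2 : Set ℕ)ᶜ
    (Sum.elim Z (fun _ => {z | ∃ m, m ≤ y.2.1 ∧ (y.1, m, z) ∈ x}) i)) E}

theorem largeA_aux {ι : Type} {Z : ι → Zs} {x : Tk} (hx : ∀ n, lev x n ∈ range Z)
    {𝒜 : Set (Set ℕ)} {E : Set ℕ} (hE : ¬ Id (range Z) 𝒜 E) (L : List (ι ⊕ ℕ)) (l : ℕ) :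
    LargeA 𝒜 (aux Z x L (E \ Iio l)) := by
  classical
  intro n a ha
  by_contra hc
  push Not at hc
  have h1 : ∀ m, Sm (L.map fun i => vs (((Finset.range m).filter (· ∉ a) : Finset ℕ) : Set ℕ)ᶜ
      (Sum.elim Z (fun _ => {z | ∃ m', m' ≤ m ∧ (n, m', z) ∈ x}) i)) (E \ Iio l) := fun m => by
    by_contra h
    exact hc m _ h (Set.disjoint_left.2 fun k hk => (Finset.mem_filter.1 hk).2)
  have h2 := Sm.lim (V := fun i => vs a (Sum.elim Z (fun _ => lev x n) i)) (fun i _ v hv => by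
    obtain ⟨s, a1, a2⟩ := hv
    have a3 : ∀ᶠ m in atTop, Disjoint (s : Set ℕ)
        (((Finset.range m).filter (· ∉ a) : Finset ℕ) : Set ℕ)ᶜ := by
      filter_upwards [(eventually_all_finset s).2 fun k _ => eventually_gt_atTop k] with m hm
      refine Set.disjoint_left.2 fun k hk h => h ?_
      exact Finset.mem_filter.2 ⟨Finset.mem_range.2 (hm k hk), Set.disjoint_left.1 a2 hk⟩
    rcases i with i | i
    · exact a3.mono fun m hm => ⟨s, a1, hm⟩
    · obtain ⟨m0, a4⟩ := a1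
      filter_upwards [a3, eventually_ge_atTop m0] with m a5 a6 using ⟨s, ⟨m0, a6, a4⟩, a5⟩) h1
  refine hE (Id.mono (𝒵 := range (Sum.elim Z fun _ => lev x n)) (id_range.2 ⟨L, a, ha, l,
    h2.mono fun k hk => Eventually.of_forall fun _ => hk⟩) ?_)
  rintro _ ⟨i | i, rfl⟩
  exacts [mem_range_self i, hx n]

theorem not_id_of_works {ι : Type} {Z : ι → Zs} {x : Tk} {𝒜 : Set (Set ℕ)} {E : Set ℕ}
    {h : ℕ → ℕ} (H : ∀ L l, WorksA 𝒜 (aux Z x L (E \ Iio l)) h) :
    ¬ Id (range Z ∪ range (cut x h)) 𝒜 E := by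
  rw [← Sum.elim_range, id_range]
  rintro ⟨L, a, ha, l, h1⟩
  obtain ⟨n, a1, m, a2, s, a3, a4⟩ := H L l a ha (L.map (Sum.elim (fun _ => 0) id)).sum
  refine a3 (h1.map_mono fun i hi v ⟨t, b1, b2⟩ => ⟨t, ?_, ?_⟩)
  · rcases i with i | i
    · exact b1
    · obtain ⟨m', b3, b4⟩ := b1
      exact ⟨n, (List.single_le_sum (fun _ _ => Nat.zero_le _) _
        (List.mem_map.2 ⟨_, hi, rfl⟩)).trans a1, m', b3.trans a2, b4⟩
  · exact a4.mono_left (disjoint_compl_right_iff_subset.1 b2)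

/-- countably many positive sets can be kept positive -/
theorem exists_keep (hD : Dir P) {a : J → World P → Set ℕ} (ha : ∀ j, MS (a j)) (hM : Men a)
    {ι κ : Type} [Countable ι] [Countable κ] {Z : ι → World P → Zs} (hZ : ∀ i, MS (Z i))
    {x : World P → Tk} (hx : MS x) (hxZ : ∀ w n, lev (x w) n ∈ range fun i => Z i w)
    {E : κ → World P → Set ℕ} (hE : ∀ e, MS (E e)) :
    ∃ H : World P → ℕ → ℕ, (∀ n, MS fun w => cut (x w) (H w) n) ∧ ∀ᶠ w in gen P, w.In (H w) ∧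
      ∀ e, ¬ Id (range fun i => Z i w) (vals a w) (E e w) →
        ¬ Id ((range fun i => Z i w) ∪ range (cut (x w) (H w))) (vals a w) (E e w) := by
  let Y : κ × List (ι ⊕ ℕ) × ℕ → World P → Set (ℕ × ℕ × Finset ℕ) := fun k w =>
    aux (fun i => Z i w) (x w) k.2.1 (E k.1 w \ Iio k.2.2)
  have hY : ∀ k, MS (Y k) := fun k y => by
    refine (meas_sm k.2.1 (V := fun i w => vs (y.2.2 : Set ℕ)ᶜ (Sum.elim (fun i => Z i w)
      (fun _ => {z | ∃ m, m ≤ y.2.1 ∧ (y.1, m, z) ∈ x w}) i)) (fun i => (ms_const _).vs ?_)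
      ((hE k.1).diff (ms_const _))).not
    rcases i with i | i
    · exact hZ i
    · exact fun z => Measurable.exists fun m => measurable_const.and (hx _)
  let Φ : κ × List (ι ⊕ ℕ) × ℕ → (ℕ → ℕ) → World P → Prop := fun k h w =>
    LargeA (vals a w) (Y k w) → WorksA (vals a w) (Y k w) h
  have hΦ : ∀ k h, Measurable (Φ k h) := fun k h =>
    (meas_largeA ha (hY k)).imp (meas_worksA ha (hY k) h)
  obtain ⟨H, h1, h2⟩ := exists_sel (fun _ : ℕ => 0) (Φ := fun h w => ∀ k, Φ k h w)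
    fun h => Measurable.forall fun k => hΦ k h
  refine ⟨H, fun n y => h2 (fun h w => y ∈ cut (x w) h n) fun h => hx.cut h n y, ?_⟩
  filter_upwards [hD _ Φ hΦ (fun k h h' w hh h3 h4 => (h3 h4).mono hh)
    fun k => hM.cond ha (hY k)] with w hw
  exact ⟨(h1 w hw).1, fun e he => not_id_of_works fun L l =>
    (h1 w hw).2 (e, L, l) (largeA_aux (hxZ w) he L l)⟩

/-- complements of finite unions of members of the family `b` are positive -/
def Prp (a : J → World P → Set ℕ) (b : J' → World P → Set ℕ) (𝒵 : Set Zs) (w : World P) : Prop :=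
  ∀ F : Finset J', w.In F → ¬ Id 𝒵 (vals a w) (⋃ j ∈ F, b j w)ᶜ

theorem exists_step (hD : Dir P) {a : J → World P → Set ℕ} (ha : ∀ j, MS (a j)) (hM : Men a)
    (hd : ∀ᶠ w in gen P, Drd (vals a w)) [Inhabited J'] {b : J' → World P → Set ℕ}
    (hb : ∀ j, MS (b j)) (had : ∀ᶠ w in gen P, ∀ j, w.In j → ∀ j', w.In j' →
      b j w = b j' w ∨ (b j w ∩ b j' w).Finite)
    {ι : Type} [Countable ι] {Z : ι → World P → Zs} (hZ : ∀ i, MS (Z i))
    {x : World P → Tk} (hx : MS x) :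
    ∃ z : {z : ℕ ⊕ ℕ → World P → Zs // ∀ k, MS (z k)}, ∀ᶠ w in gen P,
      (Prp a b (range fun i => Z i w) w →
        Prp a b ((range fun i => Z i w) ∪ range fun k => z.1 k w) w) ∧
      (Prp a b ((range fun i => Z i w) ∪ range (lev (x w))) w →
        (∀ n, lev (x w) n ∈ range fun k => z.1 k w) ∧
          ∃ h, w.In h ∧ ∀ n, cut (x w) h n ∈ range fun k => z.1 k w) := by
  classical
  obtain ⟨Z', hZ', e⟩ : ∃ Z' : ι ⊕ ℕ → World P → Zs, (∀ i, MS (Z' i)) ∧
      ∀ w, (range fun i => Z' i w) = (range fun i => Z i w) ∪ range (lev (x w)) := by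
    refine ⟨Sum.elim Z fun n w => lev (x w) n, fun i => ?_, fun w => ?_⟩
    · rcases i with i | i
      exacts [hZ i, hx.lev i]
    · rw [← Sum.elim_range]
      congr 1
      ext1 i
      rcases i with i | i <;> rfl
  let Φ : ℕ → (ℕ → J') → World P → Prop := fun k τ w => ∀ i, i < k →
    ¬ Id (range fun i => Z' i w) (vals a w) (b (τ i) w) ∧ ∀ i', i' < i → b (τ i') w ≠ b (τ i) w
  choose σ h1 h2 using fun k => exists_sel (fun _ : ℕ => (default : J')) (Φ := Φ k) fun τ =>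
    Measurable.forall fun i => measurable_const.imp ((meas_id hZ' ha (hb _)).not.and
      (Measurable.forall fun i' => measurable_const.imp ((hb _).eq (hb _)).not))
  have h3 : ∀ k i, MS fun w => b (σ k w i) w := fun k i y =>
    h2 k (fun τ w => y ∈ b (τ i) w) fun τ => hb _ y
  obtain ⟨H, h4, h5⟩ := exists_keep hD ha hM hZ' hx (fun w n => by
    rw [e]; exact Or.inr (mem_range_self n)) (κ := ℕ × ℕ ⊕ ℕ)
    (E := Sum.elim (fun k w => b (σ k.1 w k.2) w)
      fun k w => (⋃ i ∈ Finset.range k, b (σ k w i) w)ᶜ) fun k => by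
        rcases k with k | k
        exacts [h3 _ _, (ms_biUnion _ (h3 k)).compl]
  have h6 : Measurable fun w => Prp a b (range fun i => Z' i w) w :=
    measurable_all_in fun F => (meas_id hZ' ha (ms_biUnion F hb).compl).not
  refine ⟨⟨fun k w => {y | Prp a b (range fun i => Z' i w) w →
    y ∈ Sum.elim (lev (x w)) (cut (x w) (H w)) k}, fun k y => h6.imp ?_⟩, ?_⟩
  · rcases k with k | k
    exacts [hx.lev k y, h4 k y]
  filter_upwards [hd, had, h5, ev_in_finset J', ev_const (fun _ : ℕ => (default : J')),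
    ev_all fun τ : ℕ → J' => ev_call fun i => ev_const (τ i),
    ev_call fun k => ev_fun₂ fun (τ : ℕ → J') j => Function.update τ k j]
    with w b1 b2 ⟨b3, b4⟩ b5 b6 b7 b8
  rw [← e]
  by_cases hg : Prp a b (range fun i => Z' i w) w
  swap
  · refine ⟨fun c1 F c2 c3 => c1 F c2 (c3.ind (isId_id b1) ?_), fun h => absurd h hg⟩
    rintro z (c4 | ⟨k, rfl⟩) c c5 f c6
    · exact id_of_not_hit c4 c5 c6
    · simp only [hg, false_imp_iff, ofPred_true] at c6
      rw [eq_empty_of_not_hit_univ c6]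
      exact (isId_id b1).empty
  simp only [hg, true_imp_iff, ofPred_mem_eq]
  refine ⟨fun _ F c1 c2 => ?_, fun n => ⟨.inl n, rfl⟩, H w, b3, fun n => ⟨.inr n, rfl⟩⟩
  have c3 : Id ((range fun i => Z' i w) ∪ range (cut (x w) (H w))) (vals a w)
      (⋃ j ∈ F, b j w)ᶜ := by
    refine c2.mono ?_
    rw [Sum.elim_range, e, union_assoc]
  have hI := isId_id (𝒵 := (range fun i => Z' i w) ∪ range (cut (x w) (H w))) b1
  have c4 : ∀ k, ∃ τ, w.In τ ∧ Φ k τ w := by
    intro k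
    induction k with
    | zero => exact ⟨_, b6, fun i hi => absurd hi (Nat.not_lt_zero _)⟩
    | succ k ih =>
      obtain ⟨d1, d2⟩ := h1 k w ih
      by_cases h : ∃ j ∈ F, ¬ Id (range fun i => Z' i w) (vals a w) (b j w) ∧
          ∀ i, i < k → b (σ k w i) w ≠ b j w
      · obtain ⟨j, d3, d4, d5⟩ := h
        refine ⟨_, b8 k _ d1 j ((b5 F).1 c1 j d3), fun i hi => ?_⟩
        rcases Nat.lt_succ_iff_lt_or_eq.1 hi with hi | rfl
        · rw [Function.update_of_ne hi.ne]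
          refine ⟨(d2 i hi).1, fun i' hi' => ?_⟩
          rw [Function.update_of_ne (hi'.trans hi).ne]
          exact (d2 i hi).2 i' hi'
        · rw [Function.update_self]
          refine ⟨d4, fun i' hi' => ?_⟩
          rw [Function.update_of_ne hi'.ne]
          exact d5 i' hi'
      · exfalso
        push Not at h
        refine b4 (.inr k) ?_ (hI.mono (hI.union c3 (hI.biUnion (F.filter fun j =>
          Id (range fun i => Z' i w) (vals a w) (b j w)) (E := fun j => b j w) fun j hj =>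
            (Finset.mem_filter.1 hj).2.mono subset_union_left)) fun y hy => ?_)
        · have := hg ((Finset.range k).image (σ k w)) ((b5 _).2 fun j hj => by
            obtain ⟨i, -, rfl⟩ := Finset.mem_image.1 hj
            exact b7 _ d1 i)
          rwa [Finset.set_biUnion_finset_image] at this
        · by_cases d3 : y ∈ ⋃ j ∈ F, b j w
          · obtain ⟨j, d4, d5⟩ := mem_iUnion₂.1 d3
            refine Or.inr (mem_iUnion₂.2 ⟨j, Finset.mem_filter.2 ⟨d4, ?_⟩, d5⟩)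
            by_contra d6
            obtain ⟨i, d7, d8⟩ := h j d4 d6
            exact hy (mem_iUnion₂.2 ⟨i, Finset.mem_range.2 d7, d8 ▸ d5⟩)
          · exact Or.inl d3
  obtain ⟨d1, d2⟩ := h1 (F.card + 1) w (c4 _)
  obtain ⟨i, d3, d4⟩ : ∃ i, i < F.card + 1 ∧ ∀ j ∈ F, b (σ (F.card + 1) w i) w ≠ b j w := by
    by_contra h
    push Not at h
    choose! g g1 g2 using h
    obtain ⟨i, i1, i', i2, i3, i4⟩ := Finset.exists_ne_map_eq_of_card_lt_of_maps_to
      (s := Finset.range (F.card + 1)) (t := F) (by simp) (f := g)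
      fun i hi => g1 i (Finset.mem_range.1 hi)
    rw [Finset.mem_range] at i1 i2
    have i5 := (g2 i i1).trans (i4 ▸ (g2 i' i2).symm)
    rcases lt_or_gt_of_ne i3 with h | h
    exacts [(d2 i' i2).2 i h i5, (d2 i i1).2 i' h i5.symm]
  refine b4 (.inl (F.card + 1, i)) (d2 i d3).1 (hI.mono (hI.union c3 (hI.biUnion F
    (E := fun j => b (σ (F.card + 1) w i) w ∩ b j w) fun j hj => hI.finite
      ((b2 _ (b7 _ d1 i) j ((b5 F).1 c1 j hj)).resolve_left (d4 j hj)))) fun y hy => ?_)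
  by_cases d5 : y ∈ ⋃ j ∈ F, b j w
  · obtain ⟨j, d6, d7⟩ := mem_iUnion₂.1 d5
    exact Or.inr (mem_iUnion₂.2 ⟨j, d6, hy, d7⟩)
  · exact Or.inl d5

end Pool.Agent.P.MP_92f5e0_lc
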