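import Pool.Agent.P.MP_92f5e0_lc.Iter

/-!
The whole forcing notion: generic bookkeeping, collapse of the continuum, and the iteration.
-/

open Set Filter Cardinal Pool.Agent.Lib.Helper87

namespace Pool.Agent.P.MP_92f5e0_lc

open Cond

/-- approximations of the bookkeeping function -/
abbrev AA : Type := End OO (Set NN)

theorem closed_AA : Closed 𝔠 AA := End.closed bdd_OO

theorem le_up {a a' : AA} (h : a' ≤ a) {c : CC} {q p : Cd} (hq : q.Bd a.δ) :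
    Le (DD a'.fn) c q p ↔ Le (DD a.fn) c q p :=
  ⟨fun H => H.congr (DD_congr h.2) hq,
    fun H => H.congr (fun ζ hζ => (DD_congr h.2 ζ hζ).symm) hq⟩

/-- the forcing notion -/
def TT : Type := {x : (AA × CC) × Cd // x.2.Bd x.1.1.δ}

instance : Preorder TT where
  le x y := x.1.1 ≤ y.1.1 ∧ Le (DD x.1.1.1.fn) x.1.1.2 x.1.2 y.1.2
  le_refl x := ⟨le_rfl, Le.refl _⟩
  le_trans _ y _ h h' := ⟨h.1.trans h'.1, h.2.trans (((le_up h.1.1 y.2).2 h'.2).mono_c h.1.2)⟩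

instance : Nonempty TT :=
  ⟨⟨((End.of (Classical.arbitrary _) fun _ => ∅, End.of (Classical.arbitrary _) fun _ _ => 0),
    zero ∅ 0), fun _ h => absurd h (Finset.notMem_empty _)⟩⟩

/-- the forcing notion has a closed part and a finite part -/
noncomputable def frT : Frame TT (AA × CC) OO (Finset ℕ × Finset ℕ) where
  pure q := q.1.1
  supp q := q.1.2.dom
  ty q ζ := (stem q.1.2.U ζ, stem q.1.2.A ζ)
  mono h := h.1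
  compat q r s h1 h2 h3 := ⟨⟨(s, q.1.2.join r.1.2), (q.2.mono h1.1.1).join (r.2.mono h2.1.1)⟩,
    ⟨h1, (join_le_of_stem h3).1⟩, ⟨h2, (join_le_of_stem h3).2⟩, le_rfl⟩
  closed := (closed_AA.mono aleph0_le_continuum).prod closed_CC

/-- forcing membership -/
def fcT (t : TT) (ν : NN) (k : ℕ) : Prop := Fc (DD t.1.1.1.fn) t.1.1.2 t.1.2 ν k

theorem fcT_mono {ν : NN} {k : ℕ} (p q : TT) (h : q ≤ p) (h' : fcT p ν k) : fcT q ν k :=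
  let ⟨y, h1, h2, h3⟩ := h'
  ⟨y, h1, h.1.2.trans h2, h.2.trans (((le_up h.1.1 p.2).2 h3).mono_c h.1.2)⟩

theorem ms_valT (ν : NN) : MS (val fcT ν) := fun _ => measurable_frc fcT_mono

/-- all conditions in the name are below `ξ` -/
def BdN (ξ : OO) (ν : NN) : Prop := ∀ k, ∀ y ∈ ν k, y.2.Bd ξ

theorem exists_nameT {Y : World TT → Set ℕ} (hY : MS Y) (s : AA × CC) :
    ∃ s' ≤ s, ∃ ν : NN, (∀ k, (ν k).Countable) ∧ BdN s'.1.δ ν ∧ (∀ k, ∀ y ∈ ν k, y.1 = s'.2) ∧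
      ∀ᶠ w in gen TT, frT.Has w s' → val fcT ν w = Y w := by
  obtain ⟨s', h1, ν, h2, h3, h4⟩ := exists_name frT Prod.snd monotone_snd (fun q => q.1.2)
    (fun q p => Le (DD q.1.1.1.fn) q.1.1.2 q.1.2 p) (fun _ _ => Iff.rfl)
    (fun q _ _ h h' => h.2.trans (((le_up h.1.1 q.2).2 h').mono_c h.1.2)) hY s
  refine ⟨s', h1, ν, h2, fun k y hy => ?_, fun k y hy => (h3 k y hy).1, h4⟩
  obtain ⟨-, a, a1, a2⟩ := h3 k y hy
  exact a2 ▸ a.2.mono a1.1.1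

theorem exists_bigT (q : TT) (F : Finset OO) (l : ℕ) :
    ∃ r ≤ q, F ⊆ r.1.2.dom ∧ l ≤ r.1.2.len := by
  obtain ⟨ξ, hξ⟩ := bdd_OO' F.countable_toSet
  obtain ⟨a, h1, h2⟩ := q.1.1.1.exists_long ξ
  exact ⟨⟨((a, q.1.1.2), q.1.2.join (zero F l)), (q.2.mono h1.1).join
    fun ζ h => (hξ ζ h).trans_le h2⟩, ⟨⟨h1, le_rfl⟩, join_zero_le _ _⟩, Finset.subset_union_right,
    le_max_right _ _⟩

theorem add_pt {D : Data} {c : CC} {r p : Cd} {ξ : OO} (hr : r.Bd ξ) (h : Le D c r (p.res ξ))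
    {k : ℕ} (hk : p.len ≤ k) {u s : Finset ℕ}
    (hu : ∀ j ∈ u, j = k ∧ ∀ i, (ξ, i) ∈ p.E → Fc D c r (D ξ i) k)
    (hs : ∀ j ∈ s, j = k ∧ ∀ ζ ∈ p.dom, (ζ, k) ∉ r.A) :
    Le D c ((r.join p).join (pt ξ (k + 1) u s ∅)) p ∧
      Le D c ((r.join p).join (pt ξ (k + 1) u s ∅)) r := by
  have h1 : ∀ x ∈ r.U, x.1 < ξ := fun x hx => hr _ (r.hU x hx).1
  have h2 : ∀ x ∈ r.A, x.1 < ξ := fun x hx => hr _ (r.hA x hx).1
  have h3 : Le D c ((r.join p).join (pt ξ (k + 1) u s ∅)) r := by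
    refine le_of_agree (fun _ h => by simp [h]) (by simp) (fun _ h => by simp [h])
      (fun x hx => ?_) fun x hx => ?_
    · simpa [(hr _ hx).ne] using fun a => h.base.U_sub (res_U.2 ⟨a, hr _ hx⟩)
    · simpa [(hr _ hx).ne] using fun a => h.base.A_sub (res_A.2 ⟨a, hr _ hx⟩)
  refine ⟨le_of_res ((h3.res_left hr).trans h) (fun _ h => by simp [h]) (fun _ h => by simp [h])
    (fun x a1 _ a2 => ?_) (fun x a1 _ a2 => ?_) (fun η _ ζ a1 a2 j a3 a4 a5 => ?_)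
    fun η i j a1 a2 a3 a4 => ?_, h3⟩
  · have a3 : x ∉ r.U := fun a => (h1 x a).not_ge a1
    have a4 : x.2 ∉ u := fun a => a2.not_ge ((hu _ a).1 ▸ hk)
    simp [a3, a4]
  · have a3 : x ∉ r.A := fun a => (h2 x a).not_ge a1
    have a4 : x.2 ∉ s := fun a => a2.not_ge ((hs _ a).1 ▸ hk)
    simp [a3, a4]
  · have b1 : (η, j) ∉ r.A := fun a => (h2 _ a).not_ge a2
    have b2 : ∀ ζ, (ζ, j) ∉ p.A := fun ζ a => (p.hA _ a).2.not_ge a3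
    simp only [join_A, b1, b2, pt_A, false_or, or_false] at a4 a5
    obtain rfl := (hs j a4.2.1).1
    exact a4.1.trans (a5.resolve_left ((hs j a4.2.1).2 ζ a1)).1.symm
  · have b1 : (η, j) ∉ r.U := fun a => (h1 _ a).not_ge a1
    have b2 : (η, j) ∉ p.U := fun a => (p.hU _ a).2.not_ge a3
    simp only [join_U, b1, b2, pt_U, false_or] at a4
    obtain ⟨rfl, b3, -⟩ := a4
    obtain rfl := (hu j b3).1
    exact ((hu j b3).2 i a2).mono le_rfl (h3.res_left hr)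

/-- the members of the generic almost disjoint family -/
def ga (ξ : OO) (w : World TT) : Set ℕ := {k | w.Frc fun t => (ξ, k) ∈ t.1.2.A}

/-- the generic pseudo-intersections of the ultrafilters -/
def gu (ξ : OO) (w : World TT) : Set ℕ := {k | w.Frc fun t => (ξ, k) ∈ t.1.2.U}

theorem ms_ga (ξ : OO) : MS (ga ξ) := fun _ => measurable_frc fun _ _ h h' => h.2.base.A_sub h'

theorem ms_gu (ξ : OO) : MS (gu ξ) := fun _ => measurable_frc fun _ _ h h' => h.2.base.U_sub h'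

theorem exists_addA {q t : TT} (h : t ≤ q) {ξ : OO} (hξ : ξ ∈ q.1.2.dom) {k : ℕ}
    (hk : q.1.2.len ≤ k) (h' : ∀ ζ ∈ q.1.2.dom, (ζ, k) ∉ t.1.2.A) :
    ∃ r ≤ q, (ξ, k) ∈ r.1.2.A ∧ r.1.1 = t.1.1 ∧
      Le (DD t.1.1.1.fn) t.1.1.2 r.1.2 (t.1.2.res ξ) := by
  obtain ⟨a1, a2⟩ := add_pt (bd_res ξ _) (h.2.res ξ) hk (u := ∅) (s := {k}) (by simp)
    fun j hj => ⟨Finset.mem_singleton.1 hj, fun ζ b1 b2 => h' ζ b1 (res_A.1 b2).1⟩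
  exact ⟨⟨(t.1.1, _), ((t.2.res ξ).join (q.2.mono h.1.1.1)).join fun ζ hζ =>
    pt_dom.1 hζ ▸ (q.2.mono h.1.1.1) ξ hξ⟩, ⟨h.1, a1⟩, by simp, rfl, a2⟩

theorem infinite_of_forall {S : Set ℕ} (h : ∀ l, ∃ k, l ≤ k ∧ k ∈ S) : S.Infinite :=
  infinite_of_forall_exists_gt fun l => let ⟨k, h1, h2⟩ := h (l + 1); ⟨k, h2, h1⟩

theorem ev_ga_inf (ξ : OO) : ∀ᶠ w in gen TT, (ga ξ w).Infinite := by
  filter_upwards [ev_call fun l => ev_dense0 (fun r : TT => ∃ k, l ≤ k ∧ (ξ, k) ∈ r.1.2.A)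
    fun q => by
      obtain ⟨q', a1, a2, a3⟩ := exists_bigT q {ξ} l
      obtain ⟨r, a4, a5, -⟩ := exists_addA le_rfl (a2 (Finset.mem_singleton_self ξ)) le_rfl
        fun ζ _ h => lt_irrefl _ (q'.1.2.hA _ h).2
      exact ⟨r, a4.trans a1, _, a3, a5⟩] with w h
  exact infinite_of_forall fun l => let ⟨r, h1, k, h2, h3⟩ := h l; ⟨k, h2, r, h1, h3⟩

theorem ev_ga_ad (ξ ζ : OO) : ∀ᶠ w in gen TT, ξ ≠ ζ → (ga ξ w ∩ ga ζ w).Finite := by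
  classical
  filter_upwards [ev_dense0 (fun r : TT => {ξ, ζ} ⊆ r.1.2.dom) fun q =>
    (exists_bigT q {ξ, ζ} 0).imp fun _ h => ⟨h.1, h.2.1⟩, ev_generic] with w ⟨r, h1, h2⟩ hw hne
  refine (finite_Iio r.1.2.len).subset fun k ⟨⟨p, a1, a2⟩, q, a3, a4⟩ => ?_
  by_contra hk
  obtain ⟨t, b1, b2, b3⟩ := hw.dir p a1 q a3
  obtain ⟨t', -, b4, b5⟩ := hw.dir t b1 r h1
  exact hne (b5.2.base.ad ξ (h2 (by simp)) ζ (h2 (by simp)) k (not_lt.1 hk)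
    ((b4.trans b2).2.base.A_sub a2) ((b4.trans b3).2.base.A_sub a4))

theorem ev_hit {ξ : OO} {ν : NN} (hν : BdN ξ ν) : ∀ᶠ w in gen TT,
    (ga ξ w ∩ val fcT ν w).Infinite ∨
      ∃ F : Finset OO, w.In F ∧ (val fcT ν w \ ⋃ ζ ∈ F, ga ζ w).Finite := by
  filter_upwards [ev_call fun l => ev_dense0 (fun r : TT => (∃ k, l ≤ k ∧ (ξ, k) ∈ r.1.2.A ∧
    fcT r ν k) ∨ ∀ t ≤ r, ∀ k, r.1.2.len ≤ k → fcT t ν k → ∃ ζ ∈ r.1.2.dom, (ζ, k) ∈ t.1.2.A)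
    fun q => by
      obtain ⟨q', a1, a2, a3⟩ := exists_bigT q {ξ} l
      by_cases h : ∀ t ≤ q', ∀ k, q'.1.2.len ≤ k → fcT t ν k → ∃ ζ ∈ q'.1.2.dom, (ζ, k) ∈ t.1.2.A
      · exact ⟨q', a1, Or.inr h⟩
      push Not at h
      obtain ⟨t, b1, k, b2, ⟨y, b3, b4, b5⟩, b6⟩ := h
      obtain ⟨r, a4, a5, a6, a7⟩ := exists_addA b1 (a2 (Finset.mem_singleton_self ξ)) b2 b6
      refine ⟨r, a4.trans a1, Or.inl ⟨k, a3.trans b2, a5, y, b3, a6 ▸ b4, ?_⟩⟩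
      rw [a6]
      exact a7.trans (b5.res_left (hν k y b3)), ev_generic, ev_fun fun r : TT => r.1.2.dom]
    with w h hw hd
  refine or_iff_not_imp_right.2 fun hc => infinite_of_forall fun l => ?_
  obtain ⟨r, a1, ⟨k, a2, a3, a4⟩ | a2⟩ := h l
  · exact ⟨k, a2, ⟨r, a1, a3⟩, r, a1, a4⟩
  refine absurd ⟨_, hd r (hw.mem r a1), (finite_Iio r.1.2.len).subset fun k ⟨⟨t, b1, b2⟩, b3⟩ => ?_⟩ hc
  by_contra hk
  obtain ⟨t', c1, c2, c3⟩ := hw.dir t b1 r a1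
  obtain ⟨ζ, c4, c5⟩ := a2 t' c3 k (not_lt.1 hk) (fcT_mono _ _ c2 b2)
  exact b3 (mem_iUnion₂.2 ⟨ζ, c4, t', c1, c5⟩)

theorem ev_tight {Y : ℕ → World TT → Set ℕ} (hY : ∀ n, MS (Y n)) : ∀ᶠ w in gen TT, ∃ ξ, w.In ξ ∧
    ∀ n, (ga ξ w ∩ Y n w).Infinite ∨
      ∃ F : Finset OO, w.In F ∧ (Y n w \ ⋃ ζ ∈ F, ga ζ w).Finite := frT.ev_of_pure fun s => by
  obtain ⟨s', h1, h2⟩ := frT.closed.exists_all (ι := ℕ) mk_le_aleph0 (R := fun n s => ∃ ν,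
    BdN s.1.δ ν ∧ ∀ᶠ w in gen TT, frT.Has w s → val fcT ν w = Y n w)
    (fun _ _ _ h ⟨ν, a1, a2⟩ => ⟨ν, fun k y hy => (a1 k y hy).mono h.1.1,
      a2.mono fun _ a3 a4 => a3 (a4.mono _ h)⟩) (s := s) fun n s1 _ =>
      let ⟨s2, a1, ν, _, a2, _, a3⟩ := exists_nameT (hY n) s1; ⟨s2, a1, ν, a2, a3⟩
  choose ν h3 h4 using h2
  refine ⟨s', h1, ?_⟩
  filter_upwards [ev_call h4, ev_call fun n => ev_hit (h3 n), ev_const s'.1.δ] with w a1 a2 a3 a4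
  exact ⟨_, a3, fun n => a1 n a4 ▸ a2 n⟩

/-- the projection to an initial segment of the iteration -/
noncomputable def pj (a : AA) (ξ : OO) (t : TT) : Q (DD a.fn) ξ :=
  ⟨(t.1.1.2, t.1.2.res ξ), bd_res _ _⟩

theorem pj_mono {a : AA} {ξ : OO} (hξ : ξ ≤ a.δ) {t t' : TT} (h : t ≤ t') (h' : t.1.1.1 ≤ a) :
    pj a ξ t ≤ pj a ξ t' := ⟨h.1.2, (le_up h' ((bd_res _ _).mono hξ)).1 (h.2.res ξ)⟩

theorem pj_lift {a : AA} {ξ : OO} (hξ : ξ ≤ a.δ) {t : TT} (h : t.1.1.1 ≤ a) {q : Q (DD a.fn) ξ}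
    (hq : q ≤ pj a ξ t) : ∃ t' ≤ t, t'.1.1 = (t.1.1.1, q.1.1) ∧ pj a ξ t' ≤ q := by
  have h1 := (le_up h (q.2.mono hξ)).2 hq.2
  exact ⟨⟨((t.1.1.1, q.1.1), q.1.2.join t.1.2), (q.2.mono (hξ.trans h.1)).join t.2⟩,
    ⟨⟨le_rfl, hq.1⟩, amal_right q.2 h1⟩, rfl, le_rfl,
    (le_up h ((bd_res _ _).mono hξ)).1 ((amal_left q.2 h1).res_left q.2)⟩

theorem le_of_pj {a : AA} {ξ : OO} (hξ : ξ ≤ a.δ) {t : TT} (h : t.1.1.1 ≤ a) {p : Cd}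
    (hp : p.Bd ξ) : Le (DD t.1.1.1.fn) t.1.1.2 t.1.2 p ↔
      Le (DD a.fn) t.1.1.2 (t.1.2.res ξ) p := by
  rw [← le_up h ((bd_res _ _).mono hξ)]
  exact ⟨fun H => H.res_left hp, fun H => (le_res _ _).trans H⟩

theorem ev_unb {Φ : ℕ → ℕ → World TT → Prop} (h1 : ∀ n m, Measurable (Φ n m))
    (h2 : ∀ w n, ∃ m, Φ n m w) : ∀ᶠ w in gen TT, ∃ h : ℕ → ℕ, w.In h ∧
      ∀ n0, ∃ n, n0 ≤ n ∧ ∃ m, m < h n ∧ Φ n m w := frT.ev_of_pure fun s => by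
  obtain ⟨s1, a1, A, -, a2, a3⟩ := frT.fusion (fun n q => ∃ m, Sem q (Φ n m)) s fun n r _ =>
    Sem.ex (h1 n) (sem_of_ev (Eventually.of_forall fun w => h2 w n) r)
  obtain ⟨c', a4, h, a5⟩ := inv_DD s1.1.fn s1.1.δ (fun y q => ∃ a ∈ A, Sem a (Φ y.1 y.2.1) ∧
    Le (DD s1.1.fn) q.1.1 q.1.2 a.1.2) (fun _ _ _ h ⟨a, b1, b2, b3⟩ =>
      ⟨a, b1, b2, h.2.trans (b3.mono_c h.1)⟩) s1.2 fun q hq n => by
    obtain ⟨a, b1, ⟨m, b2⟩, t, b3, b4⟩ := a3 n ⟨((s1.1, q.1.1), q.1.2), q.2⟩ ⟨le_rfl, hq⟩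
    exact ⟨pj s1.1 _ t, ⟨b3.1.2, (le_of_pj le_rfl b3.1.1 q.2).1 b3.2⟩, m, ∅,
      ⟨a, b1, b2, (le_of_pj le_rfl b3.1.1 (a.2.mono (a2 a b1).1.1)).1 b4.2⟩, by simp [Av]⟩
  have a6 : (s1.1, c') ≤ s1 := ⟨le_rfl, a4⟩
  refine ⟨(s1.1, c'), a6.trans a1, ?_⟩
  filter_upwards [ev_const fun n => h n + 1, ev_call fun n => ev_call fun m => ev_sem (Φ n m),
    ev_call fun n0 => frT.ev_dense (s := (s1.1, c'))
      (fun r => ∃ n, n0 ≤ n ∧ ∃ m, m ≤ h n ∧ Sem r (Φ n m)) fun t ht => by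
        obtain ⟨r, b1, n, b2, m, b3, _, ⟨a, b4, b5, b6⟩, -⟩ := a5 (pj s1.1 _ t) ht.2 n0
        obtain ⟨t', b7, b8, b9⟩ := pj_lift le_rfl ht.1 b1
        exact ⟨t', b7, n, b2, m, b3, b5.mono ⟨(b7.1.trans ht).trans (a6.trans (a2 a b4)),
          (le_of_pj le_rfl (b7.1.1.trans ht.1) (a.2.mono (a2 a b4).1.1)).2
            (b9.2.trans (b6.mono_c b9.1))⟩⟩] with w b1 b2 b3 b4
  refine ⟨_, b1, fun n0 => ?_⟩
  obtain ⟨r, c1, n, c2, m, c3, c4⟩ := b3 n0 b4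
  exact ⟨n, c2, m, Nat.lt_succ_of_le c3, b2 n m r (w.has_of_mem c1) c4⟩

end Pool.Agent.P.MP_92f5e0_lc
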