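import Pool.Agent.P.MP_92f5e0_lc.Step

/-!
The ultrafilter: it avoids a given almost disjoint family, and its sum with the family of
parameters has the covering property.
-/

open Set Filter Pool.Agent.Lib.Helper87

namespace Pool.Agent.P.MP_92f5e0_lc

variable {P : Type} [Preorder P] {J J' Ω : Type}

/-- a finite intersection, above `l` -/
def uu (u : Ω → World P → Set ℕ) (E : Finset Ω) (l : ℕ) (w : World P) : Set ℕ :=
  {k | l ≤ k ∧ ∀ i ∈ E, k ∈ u i w}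

/-- each level of `x` has a member inside any set of the filter and avoiding any parameter -/
def LargeU (u : Ω → World P → Set ℕ) (a : J → World P → Set ℕ) (x : Tk) (w : World P) : Prop :=
  ∀ n, ∀ E, w.In E → ∀ l, ∀ j, w.In j → ∃ m v s, (n, m, v, s) ∈ x ∧
    (v : Set ℕ) ⊆ uu u E l w ∧ Disjoint (s : Set ℕ) (a j w)

/-- infinitely many levels have such a member below `h` -/
def WorksU (u : Ω → World P → Set ℕ) (a : J → World P → Set ℕ) (x : Tk) (h : ℕ → ℕ)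
    (w : World P) : Prop :=
  ∀ E, w.In E → ∀ l, ∀ j, w.In j → ∀ n0, ∃ n, n0 ≤ n ∧ ∃ m, m ≤ h n ∧ ∃ v s, (n, m, v, s) ∈ x ∧
    (v : Set ℕ) ⊆ uu u E l w ∧ Disjoint (s : Set ℕ) (a j w)

theorem exists_ideal [LinearOrder Ω] [WellFoundedLT Ω] [Nonempty Ω]
    (hΩ : ∀ η : Ω, (Iic η).Countable) (hD : Dir P) {a : J → World P → Set ℕ} (ha : ∀ j, MS (a j))
    (hM : Men a) (hd : ∀ᶠ w in gen P, Drd (vals a w)) [Inhabited J'] {b : J' → World P → Set ℕ}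
    (hb : ∀ j, MS (b j)) (had : ∀ᶠ w in gen P, ∀ j, w.In j → ∀ j', w.In j' →
      b j w = b j' w ∨ (b j w ∩ b j' w).Finite)
    (hinf : ∀ᶠ w in gen P, ∀ F : Finset J', w.In F → (⋃ j ∈ F, b j w)ᶜ.Infinite)
    {x : Ω → World P → Tk} (hx : ∀ η, MS (x η))
    (henum : ∀ y : World P → Tk, MS y → ∀ᶠ w in gen P, ∃ η, w.In η ∧ x η w = y w) :
    ∃ 𝒥 : World P → Set ℕ → Prop, (∀ E, MS E → Measurable fun w => 𝒥 w (E w)) ∧
      (∀ᶠ w in gen P, IsId (𝒥 w) ∧ ¬ 𝒥 w univ ∧ ∀ j, w.In j → 𝒥 w (b j w)) ∧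
      (∀ E, MS E → ∀ᶠ w in gen P, 𝒥 w (E w) ∨ 𝒥 w (E w)ᶜ) ∧
      ∀ y : World P → Tk, MS y → ∀ R : World P → Prop,
        (∀ n j f, MS f → ∀ᶠ w in gen P, w.In j → R w → 𝒥 w (f w)ᶜ →
          ∃ m v s, (n, m, v, s) ∈ y w ∧ (v : Set ℕ) ⊆ f w ∧ Disjoint (s : Set ℕ) (a j w)) →
        ∀ᶠ w in gen P, R w → ∃ h : ℕ → ℕ, w.In h ∧ ∀ U, 𝒥 w Uᶜ → ∀ j, w.In j → ∀ n0, ∃ n, n0 ≤ n ∧
          ∃ m, m ≤ h n ∧ ∃ v s, (n, m, v, s) ∈ y w ∧ (v : Set ℕ) ⊆ U ∧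
            Disjoint (s : Set ℕ) (a j w) := by
  classical
  have c1 : ∀ η : Ω, Countable (Iic η) := fun η => (hΩ η).to_subtype
  have c2 : ∀ η : Ω, Countable (Iio η) := fun η => ((hΩ η).mono Iio_subset_Iic_self).to_subtype
  choose st hst using fun (η : Ω) (g : Iio η → {z : ℕ ⊕ ℕ → World P → Zs // ∀ k, MS (z k)}) =>
    exists_step hD ha hM hd hb had (Z := fun i : Iio η × (ℕ ⊕ ℕ) => (g i.1).1 i.2)
      (fun i => (g i.1).2 i.2) (hx η)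
  obtain ⟨f, hf⟩ : ∃ f : Ω → {z : ℕ ⊕ ℕ → World P → Zs // ∀ k, MS (z k)},
      ∀ η, f η = st η fun ζ => f ζ :=
    ⟨(wellFounded_lt (α := Ω)).fix fun η g => st η fun ζ => g ζ.1 ζ.2,
      fun η => WellFounded.fix_eq _ _ _⟩
  obtain ⟨Lt, eLt⟩ : ∃ Lt : Ω → World P → Set Zs,
    ∀ η w, (range fun i : Iio η × (ℕ ⊕ ℕ) => (f i.1).1 i.2 w) = Lt η w := ⟨_, fun _ _ => rfl⟩
  obtain ⟨Le, eLe⟩ : ∃ Le : Ω → World P → Set Zs,
    ∀ η w, (range fun i : Iic η × (ℕ ⊕ ℕ) => (f i.1).1 i.2 w) = Le η w := ⟨_, fun _ _ => rfl⟩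
  have e1 : ∀ η w, Le η w = Lt η w ∪ range fun k => (f η).1 k w := fun η w => by
    rw [← eLt, ← eLe]
    ext z
    constructor
    · rintro ⟨⟨⟨ζ, h⟩, k⟩, rfl⟩
      rcases (mem_Iic.1 h).lt_or_eq with h | rfl
      exacts [Or.inl ⟨(⟨ζ, h⟩, k), rfl⟩, Or.inr ⟨k, rfl⟩]
    · rintro (⟨⟨⟨ζ, h⟩, k⟩, rfl⟩ | ⟨k, rfl⟩)
      exacts [⟨(⟨ζ, le_of_lt h⟩, k), rfl⟩, ⟨(⟨η, le_rfl⟩, k), rfl⟩]
  have e2 : ∀ w, Monotone fun η => Le η w := fun w η η' h => by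
    simp only [← eLe]
    rintro _ ⟨⟨⟨ζ, h'⟩, k⟩, rfl⟩
    exact ⟨(⟨ζ, le_trans h' h⟩, k), rfl⟩
  have e3 : ∀ η w, Lt η w ⊆ ⋃ ζ ∈ Iio η, Le ζ w := fun η w => by
    simp only [← eLe, ← eLt]
    rintro _ ⟨⟨⟨ζ, h'⟩, k⟩, rfl⟩
    exact mem_iUnion₂.2 ⟨ζ, h', (⟨ζ, le_rfl⟩, k), rfl⟩
  have e4 : ∀ η w, Lt η w ⊆ Le η w := fun η w => by
    rw [e1]
    exact subset_union_left
  have s1 : ∀ η, ∀ᶠ w in gen P, (Prp a b (Lt η w) w → Prp a b (Le η w) w) ∧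
      (Prp a b (Lt η w ∪ range (lev (x η w))) w → (∀ n, lev (x η w) n ∈ Le η w) ∧
        ∃ h, w.In h ∧ ∀ n, cut (x η w) h n ∈ Le η w) := fun η => by
    filter_upwards [hst η fun ζ => f ζ] with w hw
    rw [← hf, eLt, ← e1] at hw
    refine ⟨hw.1, fun h => ?_⟩
    obtain ⟨h1, h, h2, h3⟩ := hw.2 h
    rw [e1]
    exact ⟨fun n => Or.inr (h1 n), h, h2, fun n => Or.inr (h3 n)⟩
  have s2 : ∀ η, ∀ᶠ w in gen P, Prp a b (Le η w) w := by
    intro η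
    induction η using WellFoundedLT.induction with
    | ind η ih =>
    filter_upwards [s1 η, ev_call fun ζ : Iio η => ih ζ.1 ζ.2, hinf] with w h1 h2 h3
    refine h1.1 fun F h4 h5 => ?_
    rcases (h5.mono (e3 η w)).of_iUnion (e2 w) with h6 | ⟨ζ, h6, h7⟩
    exacts [h3 F h4 h6.finite_of_empty, h2 ⟨ζ, h6⟩ F h4 h7]
  obtain ⟨𝒥, e𝒥⟩ : ∃ 𝒥 : World P → Set ℕ → Prop, ∀ w E, 𝒥 w E ↔ ∃ η, w.In η ∧
    ∃ F : Finset J', w.In F ∧ Id (Le η w) (vals a w) (E \ ⋃ j ∈ F, b j w) :=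
    ⟨_, fun _ _ => Iff.rfl⟩
  have p1 : ∀ᶠ w in gen P, IsId (𝒥 w) ∧ ¬ 𝒥 w univ ∧ (∀ j, w.In j → 𝒥 w (b j w)) ∧
      (∀ η, w.In η → ∀ z ∈ Le η w, ∀ c ∈ vals a w, ∀ g, ¬ Hit (vs c z) g → 𝒥 w g) ∧
      ∀ F : Finset J', w.In F → ∀ E l, 𝒥 w (E ∩ ((⋃ j ∈ F, b j w)ᶜ \ Iio l)) → 𝒥 w E := by
    filter_upwards [hd, ev_all s2, ev_const (Classical.arbitrary Ω), ev_in_finset J']
      with w h1 h2 h3 h4
    have h5 : w.In (∅ : Finset J') := (h4 _).2 (by simp)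
    have h6 : IsId (𝒥 w) := by
      refine ⟨fun h hE => ?_, fun h h' => ?_, fun l => ?_⟩
      · obtain ⟨η, a1, F, a2, a3⟩ := (e𝒥 _ _).1 h
        exact (e𝒥 _ _).2 ⟨η, a1, F, a2, (isId_id h1).mono a3 (sdiff_subset_sdiff_left hE)⟩
      · obtain ⟨η, a1, F, a2, a3⟩ := (e𝒥 _ _).1 h
        obtain ⟨η', b1, F', b2, b3⟩ := (e𝒥 _ _).1 h'
        refine (e𝒥 _ _).2 ⟨max η η', max_rec' w.In a1 b1, F ∪ F', (h4 _).2 fun j hj =>
          (Finset.mem_union.1 hj).elim ((h4 _).1 a2 j) ((h4 _).1 b2 j), (isId_id h1).mono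
          ((isId_id h1).union (a3.mono (e2 w (le_max_left _ _)))
            (b3.mono (e2 w (le_max_right _ _)))) fun k hk => ?_⟩
        rw [Finset.set_biUnion_union] at hk
        exact hk.1.imp (fun h => ⟨h, fun h' => hk.2 (Or.inl h')⟩)
          fun h => ⟨h, fun h' => hk.2 (Or.inr h')⟩
      · exact (e𝒥 _ _).2 ⟨_, h3, ∅, h5, (isId_id h1).mono ((isId_id h1).fin l) sdiff_subset⟩
    have h7 : ∀ j, w.In j → 𝒥 w (b j w) := fun j hj =>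
      (e𝒥 _ _).2 ⟨_, h3, {j}, (h4 _).2 (by simpa using hj), by simpa using (isId_id h1).empty⟩
    refine ⟨h6, fun h => ?_, h7, fun η a1 z a2 c a3 g a4 => (e𝒥 _ _).2 ⟨η, a1, ∅, h5,
      (isId_id h1).mono (id_of_not_hit a2 a3 a4) sdiff_subset⟩, fun F a1 E l a2 => ?_⟩
    · obtain ⟨η, a1, F, a2, a3⟩ := (e𝒥 _ _).1 h
      rw [← compl_eq_univ_sdiff] at a3
      exact h2 η a1 F a2 a3
    · refine h6.mono (h6.union a2 (h6.union (h6.fin l)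
        (h6.biUnion F fun j hj => h7 j ((h4 _).1 a1 j hj)))) fun k hk => ?_
      by_contra h
      simp only [mem_union, not_or] at h
      exact h.1 ⟨hk, h.2.2, h.2.1⟩
  have p2 : ∀ E, MS E → ∀ᶠ w in gen P, 𝒥 w (E w) ∨ 𝒥 w (E w)ᶜ := fun E hE => by
    filter_upwards [p1, ev_all s1, henum (fun w => {y | ∃ k, k ∈ E w ∧ y.2.2.1 = {k}})
      (fun y => Measurable.exists fun k => (hE k).and measurable_const), hd]
      with w ⟨h1, _, _, h2, h3⟩ h4 ⟨η, h5, h6⟩ h7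
    have h8 : ∀ n c g, ¬ Hit (vs c (lev (x η w) n)) g → g ∩ E w = ∅ := fun n c g h => by
      by_contra h9
      obtain ⟨k, a1, a2⟩ := nonempty_iff_ne_empty.2 h9
      exact h ⟨⟨k, a1⟩, {k}, ⟨∅, ⟨0, by rw [h6]; exact ⟨k, a2, rfl⟩⟩, by simp⟩, by simpa using a1⟩
    by_cases hg : Prp a b (Lt η w ∪ range (lev (x η w))) w
    · obtain ⟨c, hc⟩ := h7.ne
      refine Or.inr (h2 η h5 _ (((h4 η h5).2 hg).1 0) c hc _ ?_)
      rintro ⟨-, v, ⟨s, ⟨m, a1⟩, -⟩, a2⟩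
      rw [h6] at a1
      obtain ⟨k, a3, a4⟩ := a1
      exact a2 (show k ∈ v by rw [show v = {k} from a4]; simp) a3
    · simp only [Prp, not_forall, not_not] at hg
      obtain ⟨F, a1, a2⟩ := hg
      refine Or.inl (h3 F a1 _ 0 (h1.mono (a2.ind (J := fun g => 𝒥 w (g ∩ E w))
        ⟨fun h h' => h1.mono h (inter_subset_inter_left _ h'), fun h h' => by
          rw [union_inter_distrib_right]; exact h1.union h h',
          fun l => h1.mono (h1.fin l) inter_subset_left⟩ ?_) fun k hk => ⟨hk.2.1, hk.1⟩))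
      rintro z (a3 | ⟨n, rfl⟩) c a4 g a5
      · exact h1.mono (h2 η h5 z (e4 η w a3) c a4 g a5) inter_subset_left
      · rw [h8 n c g a5]
        exact h1.empty
  refine ⟨𝒥, fun E hE => ?_, p1.mono fun w h => ⟨h.1, h.2.1, h.2.2.1⟩, p2, fun y hy R hR => ?_⟩
  · simp only [e𝒥, ← eLe]
    exact measurable_ex_in fun η => measurable_ex_in fun F =>
      meas_id (fun i : Iic η × (ℕ ⊕ ℕ) => (f i.1).2 i.2) ha (hE.diff (ms_biUnion F hb))
  have p3 : ∀ η, ∀ F : Finset J', ∀ j, ∀ᶠ w in gen P, ∀ (L : List ((Iio η × (ℕ ⊕ ℕ)) ⊕ ℕ)) (l : ℕ),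
      w.In η ∧ w.In j ∧ R w → Sm (L.map fun i => vs (a j w)
        (Sum.elim (fun i : Iio η × (ℕ ⊕ ℕ) => (f i.1.1).1 i.2 w) (lev (y w)) i)) ((⋃ j ∈ F, b j w)ᶜ \ Iio l) →
        𝒥 w ((⋃ j ∈ F, b j w)ᶜ \ Iio l) := fun η F j => ev_call fun L => ev_call fun l => by
    refine ev_sm_ind L (V := fun i w => vs (a j w)
        (Sum.elim (fun i : Iio η × (ℕ ⊕ ℕ) => (f i.1.1).1 i.2 w) (lev (y w)) i)) (fun i => (ha j).vs ?_)
      (p1.mono fun w h => h.1) (fun i g hg => ?_) ((ms_biUnion F hb).compl.diff (ms_const _))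
    · rcases i with i | n
      exacts [(f i.1.1).2 i.2, hy.lev n]
    rcases i with i | n
    · filter_upwards [p1] with w ⟨_, _, _, h2, _⟩ ⟨h3, h4, _⟩ h5
      exact h2 η h3 _ (e4 η w (eLt η w ▸ mem_range_self i)) _ (mem_vals h4) _ h5
    · filter_upwards [p1, p2 g hg, hR n j g hg] with w ⟨_, h2, _⟩ h3 h4 ⟨_, h5, h6⟩ h7
      refine h3.resolve_right fun h8 => h7 ?_
      obtain ⟨m, v, s, a1, a2, a3⟩ := h4 h5 h6 h8
      refine ⟨nonempty_iff_ne_empty.2 fun h9 => h2 ?_, v, ⟨s, ⟨m, a1⟩, a3⟩, a2⟩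
      rwa [h9, compl_empty] at h8
  filter_upwards [p1, ev_all s1, henum y hy, ev_all fun η => ev_all fun F => ev_all (p3 η F)]
    with w ⟨h1, h2, _, h3, h4⟩ h5 ⟨η, h6, h7⟩ h8 h9
  have hg : Prp a b (Lt η w ∪ range (lev (x η w))) w := fun F a1 a2 => by
    rw [h7, ← eLt, ← Sum.elim_range, id_range] at a2
    obtain ⟨L, _, ⟨j, a3, rfl⟩, l, a4⟩ := a2
    exact h2 (h4 F a1 _ l (h1.mono (h8 η h6 F a1 j a3 L l ⟨h6, a3, h9⟩ a4) inter_subset_right))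
  obtain ⟨-, h, a1, a2⟩ := (h5 η h6).2 hg
  refine ⟨h, a1, fun U a3 j a4 n0 => ?_⟩
  by_contra a5
  refine h2 (h1.of_diff (h3 η h6 _ (a2 n0) _ (mem_vals a4) U ?_)
    (by rwa [← compl_eq_univ_sdiff]))
  rintro ⟨-, v, ⟨s, ⟨n, b1, m, b2, b3⟩, b4⟩, b5⟩
  exact a5 ⟨n, b1, m, b2, v, s, h7 ▸ b3, b5, b4⟩

/-- the family `b` is almost disjoint and no finite part of it covers a cofinite set -/
def OK (b : J' → World P → Set ℕ) (w : World P) : Prop :=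
  (∀ j, w.In j → ∀ j', w.In j' → b j w = b j' w ∨ (b j w ∩ b j' w).Finite) ∧
    ∀ F : Finset J', w.In F → (⋃ j ∈ F, b j w)ᶜ.Infinite

theorem exists_ultra [LinearOrder Ω] [WellFoundedLT Ω] [Nonempty Ω]
    (hΩ : ∀ η : Ω, (Iic η).Countable) (hD : Dir P) {a : J → World P → Set ℕ} (ha : ∀ j, MS (a j))
    (hM : Men a) (hd : ∀ᶠ w in gen P, Drd (vals a w)) [Inhabited J'] {b : J' → World P → Set ℕ}
    (hb : ∀ j, MS (b j)) {X : Ω → World P → Set ℕ} (hX : ∀ η, MS (X η))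
    (henum : ∀ Y, MS Y → ∀ᶠ w in gen P, ∃ η, w.In η ∧ X η w = Y w) :
    ∃ u : Ω → World P → Set ℕ, (∀ i, MS (u i)) ∧
      (∀ᶠ w in gen P, ∀ E, w.In E → ∀ l, (uu u E l w).Nonempty) ∧
      (∀ᶠ w in gen P, ∀ j, w.In j → ∃ i, w.In i ∧ (Disjoint (u i w) (b j w) ∨
        (¬ OK b w ∧ u i w ⊆ b j w))) ∧
      ∀ y : World P → Tk, MS y →
        ∀ᶠ w in gen P, LargeU u a (y w) w → ∃ h, w.In h ∧ WorksU u a (y w) h w := by
  have hok : Measurable (OK b) := (measurable_all_in fun j => measurable_all_in fun j' =>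
    ((hb j).eq (hb j')).or ((hb j).inter (hb j')).finite).and
      (measurable_all_in fun F => (ms_biUnion F hb).compl.finite.not)
  obtain ⟨𝒥, h1, h2, h3, h4⟩ := exists_ideal hΩ hD ha hM hd
    (b := fun j w => {k | OK b w ∧ k ∈ b j w}) (fun j k => hok.and (hb j k))
    (Eventually.of_forall fun w j hj j' hj' => by
      by_cases h : OK b w
      · simpa [h] using h.1 j hj j' hj'
      · simp [h])
    (Eventually.of_forall fun w F hF => by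
      by_cases h : OK b w
      · simpa [h] using h.2 F hF
      · simpa [h] using infinite_univ)
    (x := fun η w => Encodable.encode ⁻¹' X η w) (fun η y => hX η _) fun y hy => by
      filter_upwards [henum (fun w => Encodable.encode '' y w) fun k =>
        Measurable.exists fun t => (hy t).and measurable_const] with w ⟨η, a1, a2⟩
      exact ⟨η, a1, by rw [a2, preimage_image_eq _ Encodable.encode_injective]⟩
  obtain ⟨u, hu, e1, e2⟩ : ∃ u : Ω → World P → Set ℕ, (∀ i, MS (u i)) ∧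
      (∀ i w, 𝒥 w (X i w)ᶜ → u i w = X i w) ∧ ∀ i w, ¬ 𝒥 w (X i w)ᶜ → u i w = (X i w)ᶜ :=
    ⟨fun i w => {k | (𝒥 w (X i w)ᶜ ∧ k ∈ X i w) ∨ (¬ 𝒥 w (X i w)ᶜ ∧ k ∉ X i w)},
      fun i k => ((h1 _ (hX i).compl).and (hX i k)).or ((h1 _ (hX i).compl).not.and (hX i k).not),
      fun i w h => by simp [h], fun i w h => by ext k; simp [h]⟩
  have p1 : ∀ᶠ w in gen P, ∀ E, w.In E → ∀ l, 𝒥 w (uu u E l w)ᶜ := by
    filter_upwards [h2, ev_all fun i => h3 _ (hX i), ev_in_finset Ω] with w ⟨a1, _⟩ a2 a3 E a4 l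
    refine a1.mono (a1.union (a1.fin l) (a1.biUnion E (E := fun i => (u i w)ᶜ) fun i hi => ?_))
      fun k hk => ?_
    · by_cases h : 𝒥 w (X i w)ᶜ
      · rwa [e1 i w h]
      · rw [e2 i w h, compl_compl]
        exact (a2 i ((a3 E).1 a4 i hi)).resolve_right h
    · by_contra h
      simp only [mem_union, mem_Iio, mem_iUnion, mem_compl_iff, not_or, not_lt, not_exists,
        not_not] at h
      exact hk h
  refine ⟨u, hu, ?_, ?_, fun y hy => ?_⟩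
  · filter_upwards [p1, h2] with w a1 ⟨_, a2, _⟩ E a3 l
    refine nonempty_iff_ne_empty.2 fun h => a2 ?_
    have := a1 E a3 l
    rwa [h, compl_empty] at this
  · filter_upwards [h2, ev_all fun j => henum _ (hb j)] with w ⟨a1, a2, a3⟩ a4 j a5
    obtain ⟨i, a6, a7⟩ := a4 j a5
    refine ⟨i, a6, ?_⟩
    by_cases h : 𝒥 w (X i w)ᶜ
    · refine Or.inr ⟨fun hk => a2 (a1.of_diff h ?_), by rw [e1 i w h, a7]⟩
      simpa [hk, a7] using a3 j a5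
    · rw [e2 i w h, a7]
      exact Or.inl disjoint_compl_left
  · filter_upwards [p1, h4 y hy (fun w => LargeU u a (y w) w) fun n j f hf => by
      filter_upwards [henum f hf, ev_in_finset Ω] with w ⟨i, a1, a2⟩ a3 a4 a5 a6
      obtain ⟨m, v, s, b1, b2, b3⟩ := a5 n {i} ((a3 _).2 (by simpa using a1)) 0 j a4
      refine ⟨m, v, s, b1, fun k hk => ?_, b3⟩
      rw [← a2] at a6 ⊢
      rw [← e1 i w a6]
      exact (b2 hk).2 i (Finset.mem_singleton_self i)] with w a1 a2 a3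
    obtain ⟨h, a4, a5⟩ := a2 a3
    exact ⟨h, a4, fun E a6 l => a5 _ (a1 E a6 l)⟩

end Pool.Agent.P.MP_92f5e0_lc
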